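import Pool.Agent.P.MP_db4732_co.Q.Defs

/-! Almost periodicity by random sampling. -/

set_option autoImplicit false

namespace Pool.Agent.P.MP_db4732_co.Q

open Finset

theorem cs_exp_le {z : ℝ} (τ : ℝ) (hz : |z| ≤ 1) :
    Real.exp (τ * z) ≤ Real.cosh τ + z * Real.sinh τ := by
  obtain ⟨h1, h2⟩ := abs_le.1 hz
  have h := convexOn_exp.2 (Set.mem_univ τ) (Set.mem_univ (-τ))
    (show (0 : ℝ) ≤ (1 + z) / 2 by linarith) (show (0 : ℝ) ≤ (1 - z) / 2 by linarith) (by ring)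
  simp only [smul_eq_mul] at h
  rw [show (1 + z) / 2 * τ + (1 - z) / 2 * -τ = τ * z by ring] at h
  rw [Real.cosh_eq, Real.sinh_eq]
  linarith

theorem cs_mgf1 {α : Type} (A : Finset α) (f : α → ℝ) (τ : ℝ) (hf : ∀ b ∈ A, |f b| ≤ 1)
    (h0 : ∑ b ∈ A, f b = 0) : ∑ b ∈ A, Real.exp (τ * f b) ≤ #A * Real.exp (τ ^ 2 / 2) := by
  calc ∑ b ∈ A, Real.exp (τ * f b) ≤ ∑ b ∈ A, (Real.cosh τ + f b * Real.sinh τ) :=
        sum_le_sum fun b hb => cs_exp_le τ (hf b hb)
    _ = #A * Real.cosh τ := by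
        rw [sum_add_distrib, ← sum_mul, h0, sum_const, nsmul_eq_mul]; ring
    _ ≤ _ := mul_le_mul_of_nonneg_left (Real.cosh_le_exp_half_sq τ) (Nat.cast_nonneg _)

theorem cs_mgf {α : Type} [DecidableEq α] (A : Finset α) (f : α → ℝ) (τ : ℝ) (s : ℕ)
    (hf : ∀ b ∈ A, |f b| ≤ 1) (h0 : ∑ b ∈ A, f b = 0) :
    ∑ w ∈ Fintype.piFinset (fun _ : Fin s => A), Real.exp (τ * ∑ i, f (w i)) ≤
      (#A : ℝ) ^ s * Real.exp (s * (τ ^ 2 / 2)) := by
  have e : ∀ w : Fin s → α, Real.exp (τ * ∑ i, f (w i)) = ∏ i, Real.exp (τ * f (w i)) := by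
    intro w
    rw [mul_sum, Real.exp_sum]
  simp only [e]
  rw [← prod_univ_sum (fun _ : Fin s => A) (fun _ b => Real.exp (τ * f b)), prod_const, card_univ,
    Fintype.card_fin, Real.exp_nat_mul, ← mul_pow]
  exact pow_le_pow_left₀ (sum_nonneg fun _ _ => (Real.exp_pos _).le) (cs_mgf1 A f τ hf h0) s

theorem cs_mgf_abs {α : Type} [DecidableEq α] (A : Finset α) (f : α → ℝ) (τ : ℝ) (s : ℕ)
    (hf : ∀ b ∈ A, |f b| ≤ 1) (h0 : ∑ b ∈ A, f b = 0) :
    ∑ w ∈ Fintype.piFinset (fun _ : Fin s => A), Real.exp (τ * |∑ i, f (w i)|) ≤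
      2 * ((#A : ℝ) ^ s * Real.exp (s * (τ ^ 2 / 2))) := by
  have h1 := cs_mgf A f τ s hf h0
  have h2 := cs_mgf A f (-τ) s hf h0
  rw [neg_sq] at h2
  calc ∑ w ∈ Fintype.piFinset (fun _ : Fin s => A), Real.exp (τ * |∑ i, f (w i)|)
      ≤ ∑ w ∈ Fintype.piFinset (fun _ : Fin s => A),
          (Real.exp (τ * ∑ i, f (w i)) + Real.exp (-τ * ∑ i, f (w i))) := by
        refine sum_le_sum fun w _ => ?_
        rcases abs_cases (∑ i, f (w i)) with h | h
        · rw [h.1]; linarith [Real.exp_pos (-τ * ∑ i, f (w i))]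
        · rw [h.1, mul_neg, neg_mul]; linarith [Real.exp_pos (τ * ∑ i, f (w i))]
    _ ≤ _ := by rw [sum_add_distrib]; linarith

theorem cs_markov {β : Type} (P : Finset β) (G : β → ℝ) (M : ℝ) (hM : 0 < M)
    (hG : ∀ w, 0 ≤ G w) (h : ∑ w ∈ P, G w ≤ #P * M) :
    (#P : ℝ) ≤ 2 * #{w ∈ P | G w ≤ 2 * M} := by
  classical
  have h1 : (#{w ∈ P | G w ≤ 2 * M} : ℝ) + #{w ∈ P | ¬ G w ≤ 2 * M} = #P := by
    exact_mod_cast card_filter_add_card_filter_not (s := P) (fun w => G w ≤ 2 * M)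
  have h2 : (#{w ∈ P | ¬ G w ≤ 2 * M} : ℝ) * (2 * M) ≤ ∑ w ∈ P, G w := by
    calc (#{w ∈ P | ¬ G w ≤ 2 * M} : ℝ) * (2 * M) = ∑ _w ∈ P with ¬ G _w ≤ 2 * M, 2 * M := by
          rw [sum_const, nsmul_eq_mul]
      _ ≤ ∑ w ∈ P with ¬ G w ≤ 2 * M, G w :=
          sum_le_sum fun w hw => (not_le.1 (mem_filter.1 hw).2).le
      _ ≤ _ := sum_le_sum_of_subset_of_nonneg (filter_subset _ _) fun w _ _ => hG w
  have h3 : (#{w ∈ P | ¬ G w ≤ 2 * M} : ℝ) * 2 ≤ #P :=
    le_of_mul_le_mul_right (by linarith) hM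
  linarith

theorem cs_jensen {α : Type} (B : Finset α) (y : α → ℝ) (c : ℝ)
    (h : ∑ x ∈ B, Real.exp (y x) ≤ #B * Real.exp c) : ∑ x ∈ B, y x ≤ #B * c := by
  have h1 : ∑ x ∈ B, (Real.exp c * (1 + y x - c)) ≤ ∑ x ∈ B, Real.exp (y x) := by
    refine sum_le_sum fun x _ => ?_
    have := Real.add_one_le_exp (y x - c)
    have e : Real.exp (y x) = Real.exp c * Real.exp (y x - c) := by
      rw [← Real.exp_add]; congr 1; ring
    rw [e]
    exact mul_le_mul_of_nonneg_left (by linarith) (Real.exp_pos c).le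
  rw [← mul_sum, sum_sub_distrib, sum_add_distrib, sum_const, sum_const, nsmul_eq_mul,
    nsmul_eq_mul] at h1
  have h2 : Real.exp c * (#B * 1 + ∑ x ∈ B, y x - #B * c) ≤ Real.exp c * #B := by linarith
  have := le_of_mul_le_mul_left h2 (Real.exp_pos c)
  linarith

theorem cs_shift {W : Type} [AddCommGroup W] [Fintype W] [DecidableEq W] {s : ℕ}
    (Gd : Finset (Fin s → W)) : ∃ w : Fin s → W,
      Fintype.card W * #Gd ≤ Fintype.card W ^ s * #{t : W | (fun i => w i + t) ∈ Gd} := by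
  have h : ∑ w : Fin s → W, #{t : W | (fun i => w i + t) ∈ Gd} = Fintype.card W * #Gd := by
    simp only [card_filter]
    rw [sum_comm, ← card_univ, card_eq_sum_ones (univ : Finset W), sum_mul, one_mul]
    refine sum_congr rfl fun t _ => ?_
    rw [← card_filter]
    refine card_bij (fun w _ => fun i => w i + t) (fun w hw => (mem_filter.1 hw).2)
      (fun w _ w' _ e => funext fun i => add_right_cancel (congrFun e i)) fun v hv =>
        ⟨fun i => v i - t, ?_, ?_⟩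
    · simpa using hv
    · simp
  obtain ⟨w, -, hw⟩ := exists_max_image (univ : Finset (Fin s → W))
    (fun w => #{t : W | (fun i => w i + t) ∈ Gd}) univ_nonempty
  refine ⟨w, ?_⟩
  rw [← h]
  refine (sum_le_card_nsmul _ _ _ hw).trans ?_
  rw [smul_eq_mul, card_univ, Fintype.card_fun, Fintype.card_fin]

theorem cs_exp_four {l : ℕ} (hl : 1 ≤ l) : 4 * 2 ^ l * Real.exp l ≤ Real.exp (4 * l) := by
  have h1 : (2 : ℝ) ≤ Real.exp 1 := by linarith [Real.add_one_le_exp (1 : ℝ)]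
  have h2 : (2 : ℝ) ^ l ≤ Real.exp l := by
    rw [← mul_one (l : ℝ), Real.exp_nat_mul]
    exact pow_le_pow_left₀ (by norm_num) h1 l
  have h3 : (2 : ℝ) ≤ 2 ^ l := le_self_pow₀ (by norm_num) (by omega)
  have h4 : Real.exp (4 * l) = Real.exp l * Real.exp l * Real.exp l * Real.exp l := by
    simp only [← Real.exp_add]; congr 1; ring
  rw [h4]
  have h5 : (2 : ℝ) ≤ Real.exp l := h3.trans h2
  have h6 : (4 : ℝ) ≤ Real.exp l * Real.exp l := by nlinarith
  gcongr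

theorem almost_periods : ∃ K : ℕ, ∀ (W : Type) [AddCommGroup W] [Fintype W] [DecidableEq W],
    (∀ x : W, x + x = 0) → ∀ (A₁ A₂ S : Finset W) (l k : ℕ), 1 ≤ l → 1 ≤ k →
    Fintype.card W ≤ 2 ^ l * #A₁ → Fintype.card W ≤ 2 ^ l * #A₂ →
    ∃ T : Finset W, Fintype.card W ≤ 2 ^ (K * k ^ 2 * l ^ 2) * #T ∧ ∀ t ∈ T, ∀ z : W,
      ∑ x ∈ A₂, |(cv S A₁ (x + z + t) : ℝ) / #A₁ - (cv S A₁ (x + z) : ℝ) / #A₁| ≤ #A₂ / k := by
  refine ⟨33, ?_⟩
  intro W _ _ _ h2 A₁ A₂ S l k hl hk hA₁ hA₂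
  have hNn : 0 < Fintype.card W := Fintype.card_pos
  have hN : (0 : ℝ) < Fintype.card W := by exact_mod_cast hNn
  have hAn : 0 < #A₁ := Nat.pos_of_mul_pos_left (hNn.trans_le hA₁)
  have hAp : (0 : ℝ) < #A₁ := by exact_mod_cast hAn
  have hkp : (0 : ℝ) < k := by exact_mod_cast hk
  have hlp : (0 : ℝ) < l := by exact_mod_cast hl
  obtain ⟨s, hs⟩ : ∃ s : ℕ, s = 32 * k ^ 2 * l := ⟨_, rfl⟩
  have hsr : (s : ℝ) = 32 * k ^ 2 * l := by rw [hs]; push_cast; ring
  obtain ⟨u, hu⟩ : ∃ u : W → ℝ, ∀ x, u x = (cv S A₁ x : ℝ) / #A₁ := ⟨_, fun _ => rfl⟩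
  obtain ⟨ind, hind⟩ : ∃ ind : W → ℝ, ∀ y, ind y = if y ∈ S then 1 else 0 := ⟨_, fun _ => rfl⟩
  have hcv : ∀ x, ∑ b ∈ A₁, ind (x + b) = cv S A₁ x := by
    intro x
    simp only [hind, cv]
    rw [sum_boole]
  have hu01 : ∀ x, 0 ≤ u x ∧ u x ≤ 1 := by
    intro x
    rw [hu]
    refine ⟨by positivity, (div_le_one hAp).2 ?_⟩
    exact_mod_cast card_filter_le _ _
  obtain ⟨G, hG⟩ : ∃ G : (Fin s → W) → ℝ, ∀ w,
      G w = ∑ x, Real.exp (1 / (4 * k) * |∑ i, (ind (x + w i) - u x)|) := ⟨_, fun _ => rfl⟩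
  have hsum : ∑ w ∈ Fintype.piFinset (fun _ : Fin s => A₁), G w ≤
      #(Fintype.piFinset (fun _ : Fin s => A₁)) * (2 * Fintype.card W * Real.exp l) := by
    simp only [hG]
    rw [sum_comm]
    have e : ∀ x : W, ∑ w ∈ Fintype.piFinset (fun _ : Fin s => A₁),
        Real.exp (1 / (4 * k) * |∑ i, (ind (x + w i) - u x)|) ≤
          2 * ((#A₁ : ℝ) ^ s * Real.exp l) := by
      intro x
      have := cs_mgf_abs A₁ (fun b => ind (x + b) - u x) (1 / (4 * k)) s
        (fun b _ => by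
          obtain ⟨p, q⟩ := hu01 x
          rw [hind, abs_le]
          split_ifs <;> constructor <;> linarith)
        (by
          rw [sum_sub_distrib, hcv, sum_const, nsmul_eq_mul, hu]
          field_simp
          ring)
      rwa [show (s : ℝ) * ((1 / (4 * k)) ^ 2 / 2) = l by rw [hsr]; field_simp; ring] at this
    refine (sum_le_card_nsmul _ _ _ fun x _ => e x).trans (le_of_eq ?_)
    rw [Fintype.card_piFinset, prod_const, card_univ, card_univ, Fintype.card_fin, nsmul_eq_mul]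
    push_cast
    ring
  have hmk := cs_markov _ G _ (by positivity)
    (fun w => by rw [hG]; exact sum_nonneg fun _ _ => (Real.exp_pos _).le) hsum
  set Gd := {w ∈ Fintype.piFinset (fun _ : Fin s => A₁) |
    G w ≤ 2 * (2 * Fintype.card W * Real.exp l)} with hGd
  have hgood : ∀ w ∈ Gd, ∀ z : W,
      ∑ x ∈ A₂, |∑ i, (ind (x + z + w i) - u (x + z))| ≤ 16 * k * l * #A₂ := by
    intro w hw z
    have e1 := (mem_filter.1 hw).2
    have e2 : ∑ x ∈ A₂, Real.exp (1 / (4 * k) * |∑ i, (ind (x + z + w i) - u (x + z))|) ≤ G w := by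
      rw [hG, ← Equiv.sum_comp (Equiv.addRight z)]
      exact sum_le_sum_of_subset_of_nonneg (subset_univ _) fun _ _ _ => (Real.exp_pos _).le
    have e3 : (Fintype.card W : ℝ) ≤ 2 ^ l * #A₂ := by exact_mod_cast hA₂
    have e4 := cs_jensen A₂ (fun x => 1 / (4 * k) * |∑ i, (ind (x + z + w i) - u (x + z))|)
      (4 * l) (by
        calc _ ≤ 2 * (2 * Fintype.card W * Real.exp l) := e2.trans e1
          _ ≤ 2 * (2 * (2 ^ l * #A₂) * Real.exp l) := by gcongr
          _ = #A₂ * (4 * 2 ^ l * Real.exp l) := by ring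
          _ ≤ _ := mul_le_mul_of_nonneg_left (cs_exp_four hl) (Nat.cast_nonneg _))
    rw [← mul_sum, one_div, inv_mul_le_iff₀ (by positivity)] at e4
    linarith
  obtain ⟨w, hw⟩ := cs_shift Gd
  set T₀ : Finset W := {t : W | (fun i => w i + t) ∈ Gd} with hT₀
  have hT : Fintype.card W ≤ 2 ^ (l * s + 1) * #T₀ := by
    have e1 : #A₁ ^ s ≤ 2 * #Gd := by
      rw [Fintype.card_piFinset, prod_const, card_univ, Fintype.card_fin] at hmk
      exact_mod_cast hmk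
    have e2 : Fintype.card W ^ s ≤ 2 ^ (l * s) * #A₁ ^ s := by
      rw [pow_mul, ← mul_pow]
      exact Nat.pow_le_pow_left hA₁ s
    refine Nat.le_of_mul_le_mul_left ?_ (pow_pos hNn s)
    calc Fintype.card W ^ s * Fintype.card W ≤ 2 ^ (l * s) * (2 * #Gd) * Fintype.card W :=
          Nat.mul_le_mul_right _ (e2.trans (Nat.mul_le_mul_left _ e1))
      _ = 2 ^ (l * s + 1) * (Fintype.card W * #Gd) := by ring
      _ ≤ 2 ^ (l * s + 1) * (Fintype.card W ^ s * #T₀) := Nat.mul_le_mul_left _ hw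
      _ = _ := by ring
  obtain ⟨t₀, ht₀⟩ : T₀.Nonempty := card_pos.1 (Nat.pos_of_mul_pos_left (hNn.trans_le hT))
  refine ⟨T₀.image (· + t₀), ?_, ?_⟩
  · rw [card_image_of_injective _ (add_left_injective t₀)]
    refine hT.trans (Nat.mul_le_mul_right _ (Nat.pow_le_pow_right two_pos ?_))
    have : 1 ≤ k ^ 2 * l ^ 2 := Nat.one_le_iff_ne_zero.2 (by positivity)
    rw [hs]
    nlinarith
  · intro t ht z
    obtain ⟨t₁, ht₁, rfl⟩ := mem_image.1 ht
    have g0 := hgood _ (mem_filter.1 ht₀).2 (z + (t₁ + t₀))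
    have g1 := hgood _ (mem_filter.1 ht₁).2 z
    have hsp : (0 : ℝ) < s := by rw [hsr]; positivity
    have e : ∀ x ∈ A₂, s * |u (x + z + (t₁ + t₀)) - u (x + z)| ≤
        |∑ i, (ind (x + (z + (t₁ + t₀)) + (w i + t₀)) - u (x + (z + (t₁ + t₀))))| +
          |∑ i, (ind (x + z + (w i + t₁)) - u (x + z))| := by
      intro x _
      have f1 : ∀ i, x + (z + (t₁ + t₀)) + (w i + t₀) = x + z + (w i + t₁) := by
        intro i
        calc x + (z + (t₁ + t₀)) + (w i + t₀) = x + z + (w i + t₁) + (t₀ + t₀) := by abel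
          _ = _ := by rw [h2, add_zero]
      simp only [f1]
      simp only [sum_sub_distrib, sum_const, card_univ, Fintype.card_fin, nsmul_eq_mul]
      rw [← add_assoc x z]
      generalize ∑ i, ind (x + z + (w i + t₁)) = P
      generalize u (x + z + (t₁ + t₀)) = p
      generalize u (x + z) = q
      have f2 : (s : ℝ) * |p - q| = |(P - s * q) - (P - s * p)| := by
        rw [show P - s * q - (P - s * p) = s * (p - q) by ring, abs_mul, abs_of_pos hsp]
      rw [f2, add_comm]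
      exact abs_sub _ _
    have e' := sum_le_sum e
    rw [← mul_sum, sum_add_distrib] at e'
    simp only [← hu]
    rw [le_div_iff₀ hkp]
    refine le_of_mul_le_mul_left ?_ (show (0 : ℝ) < 32 * k * l by positivity)
    rw [hsr] at e'
    linarith

end Pool.Agent.P.MP_db4732_co.Q
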