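import Pool.Agent.P.MP_db4732_co.Q.Defs

/-! The large spectrum of a dense set has low dimension. -/

set_option autoImplicit false

namespace Pool.Agent.P.MP_db4732_co.Q

open Finset

section

variable {W : Type} [AddCommGroup W]

/-- The real part of a character. -/
noncomputable def changChi (ψ : AddChar W ℂ) (x : W) : ℝ := (ψ x).re

theorem chang_val (h2 : ∀ x : W, x + x = 0) (ψ : AddChar W ℂ) (x : W) : ψ x = 1 ∨ ψ x = -1 := by
  rw [← mul_self_eq_one_iff, ← ψ.map_add_eq_mul, h2, ψ.map_zero_eq_one]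

theorem chang_pm (h2 : ∀ x : W, x + x = 0) (ψ : AddChar W ℂ) (x : W) :
    changChi ψ x = 1 ∨ changChi ψ x = -1 := by
  rcases chang_val h2 ψ x with h | h <;> simp [changChi, h]

theorem chang_add (h2 : ∀ x : W, x + x = 0) (ψ : AddChar W ℂ) (x y : W) :
    changChi ψ (x + y) = changChi ψ x * changChi ψ y := by
  unfold changChi
  rw [ψ.map_add_eq_mul]
  rcases chang_val h2 ψ x with h | h <;> simp [h]

theorem chang_zero (ψ : AddChar W ℂ) : changChi ψ 0 = 1 := by simp [changChi]

/-- The kernel of a character inside a subgroup. -/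
def changKer (h2 : ∀ x : W, x + x = 0) (ψ : AddChar W ℂ) (V : AddSubgroup W) : AddSubgroup W where
  carrier := {x | x ∈ V ∧ changChi ψ x = 1}
  zero_mem' := ⟨V.zero_mem, chang_zero ψ⟩
  add_mem' := fun ha hb => ⟨V.add_mem ha.1 hb.1, by rw [chang_add h2, ha.2, hb.2, mul_one]⟩
  neg_mem' := fun {x} ha => by rwa [neg_eq_of_add_eq_zero_right (h2 x)]

variable [Fintype W] [DecidableEq W]

theorem chang_sum (x : W) :
    ∑ ψ : AddChar W ℂ, changChi ψ x = if x = 0 then (Fintype.card W : ℝ) else 0 := by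
  unfold changChi
  rw [← Complex.re_sum, AddChar.sum_apply_eq_ite]
  split_ifs <;> simp

theorem chang_parseval (h2 : ∀ x : W, x + x = 0) (g : W → ℝ) :
    ∑ ψ : AddChar W ℂ, (∑ x, g x * changChi ψ x) ^ 2 = Fintype.card W * ∑ x, g x ^ 2 := by
  have e : ∀ x y : W, x + y = 0 ↔ x = y := fun x y =>
    ⟨fun h => add_right_cancel (h.trans (h2 y).symm), fun h => h ▸ h2 x⟩
  calc ∑ ψ : AddChar W ℂ, (∑ x, g x * changChi ψ x) ^ 2
      = ∑ ψ : AddChar W ℂ, ∑ x, ∑ y, g x * g y * changChi ψ (x + y) := by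
        refine sum_congr rfl fun ψ _ => ?_
        rw [sq, sum_mul_sum]
        refine sum_congr rfl fun x _ => sum_congr rfl fun y _ => ?_
        rw [chang_add h2]
        ring
    _ = ∑ x, ∑ y, g x * g y * ∑ ψ : AddChar W ℂ, changChi ψ (x + y) := by
        rw [sum_comm]
        refine sum_congr rfl fun x _ => ?_
        rw [sum_comm]
        simp only [mul_sum]
    _ = _ := by
        simp only [chang_sum, e, mul_ite, mul_zero, sum_ite_eq, mem_univ, if_true, mul_sum]
        exact sum_congr rfl fun x _ => by ring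

omit [DecidableEq W] in
theorem chang_avg (h2 : ∀ x : W, x + x = 0) (T : Finset W) (g : W → ℝ) (ψ : AddChar W ℂ) :
    ∑ x, avg T g x * changChi ψ x =
      (∑ t ∈ T, changChi ψ t) / #T * ∑ x, g x * changChi ψ x := by
  simp only [avg, div_mul_eq_mul_div, ← sum_div]
  congr 1
  simp only [sum_mul]
  rw [sum_comm]
  refine sum_congr rfl fun t _ => ?_
  rw [mul_sum, ← Equiv.sum_comp (Equiv.addRight t)]
  refine sum_congr rfl fun x _ => ?_
  rw [Equiv.coe_addRight, add_assoc, h2, add_zero, chang_add h2]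
  ring

omit [DecidableEq W] in
theorem chang_triv (h2 : ∀ x : W, x + x = 0) {V : AddSubgroup W} {g : W → ℝ}
    (hg : ∀ x, ∑ y ∈ cs V x, g y = 0) {ψ : AddChar W ℂ} (hψ : ∀ v ∈ V, changChi ψ v = 1) :
    ∑ x, g x * changChi ψ x = 0 := by
  have h1 : ∑ x, ∑ y ∈ cs V x, g y * changChi ψ y = 0 := by
    refine sum_eq_zero fun x _ => ?_
    rw [sum_congr rfl (g := fun y => g y * changChi ψ x), ← sum_mul, hg, zero_mul]
    intro y hy
    have := hψ _ (mem_cs.1 hy)
    rw [chang_add h2] at this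
    congr 1
    rcases chang_pm h2 ψ x with h | h <;> rw [h] at this ⊢ <;> linarith
  rw [sum_comm' (t' := univ) (s' := fun y => cs V y) (by
    intro x y
    simp only [mem_univ, true_and, and_true, mem_cs, add_comm])] at h1
  simp only [sum_const, card_cs, nsmul_eq_mul, ← mul_sum] at h1
  exact (mul_eq_zero.1 h1).resolve_left (by exact_mod_cast Nat.card_pos.ne')

/-- The state of the iteration. -/
def changState (T : Finset W) (j : ℕ) : Prop :=
  ∃ (V : AddSubgroup W) (F : W → ℝ), Fintype.card W ≤ 2 ^ j * Nat.card V ∧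
    (∀ v ∈ V, ∀ x, F (x + v) = F x) ∧ j / 2 * (#T : ℝ) ≤ ∑ t ∈ T, F t ∧
    ∑ x, Real.exp (F x / 2) ≤ Fintype.card W * Real.exp (j / 8)

/-- The goal of the iteration. -/
def changFound (T : Finset W) (j : ℕ) : Prop :=
  ∃ V : AddSubgroup W, Fintype.card W ≤ 2 ^ j * Nat.card V ∧
    ∀ ψ : AddChar W ℂ, (#T : ℝ) / 2 < |∑ t ∈ T, changChi ψ t| → ∀ v ∈ V, changChi ψ v = 1

theorem chang_step (h2 : ∀ x : W, x + x = 0) {T : Finset W} {j : ℕ} (h : changState T j) :
    changFound T j ∨ changState T (j + 1) := by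
  obtain ⟨V, F, a1, a2, a3, a4⟩ := h
  rw [or_iff_not_imp_left]
  intro hn
  unfold changFound at hn
  push Not at hn
  obtain ⟨ψ, hψ, v, hv, hv1⟩ := hn V a1
  have hv2 : changChi ψ v = -1 := (chang_pm h2 ψ v).resolve_left hv1
  obtain ⟨σ, hσ, hσ2⟩ : ∃ σ : ℝ, (σ = 1 ∨ σ = -1) ∧ (#T : ℝ) / 2 ≤ σ * ∑ t ∈ T, changChi ψ t := by
    rcases lt_abs.1 hψ with h | h
    · exact ⟨1, Or.inl rfl, by linarith⟩
    · exact ⟨-1, Or.inr rfl, by linarith⟩
  refine ⟨changKer h2 ψ V, fun x => F x + σ * changChi ψ x, ?_, fun w hw x => ?_, ?_, ?_⟩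
  · have b1 : cs V 0 ⊆ cs (changKer h2 ψ V) 0 ∪ cs (changKer h2 ψ V) v := fun x hx => by
      rw [mem_cs, add_zero] at hx
      rw [mem_union, mem_cs, mem_cs, add_zero]
      rcases chang_pm h2 ψ x with h | h
      · exact Or.inl ⟨hx, h⟩
      · exact Or.inr ⟨V.add_mem hx hv, by rw [chang_add h2, h, hv2]; norm_num⟩
    have b2 := (card_le_card b1).trans (card_union_le _ _)
    rw [card_cs, card_cs, card_cs] at b2
    refine a1.trans ?_
    rw [pow_succ, mul_assoc]
    exact Nat.mul_le_mul_left _ (by omega)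
  · beta_reduce
    rw [a2 w hw.1, chang_add h2, hw.2, mul_one]
  · rw [sum_add_distrib, ← mul_sum]
    push_cast
    linarith
  · have b1 : ∑ x, Real.exp (F x / 2) * changChi ψ x = 0 := by
      have := Equiv.sum_comp (Equiv.addRight v) fun x => Real.exp (F x / 2) * changChi ψ x
      simp only [Equiv.coe_addRight, a2 v hv, chang_add h2, hv2, mul_neg, mul_one,
        sum_neg_distrib] at this
      linarith
    have b2 : ∀ x, Real.exp ((F x + σ * changChi ψ x) / 2) = Real.cosh (1 / 2) * Real.exp (F x / 2) +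
        σ * Real.sinh (1 / 2) * (Real.exp (F x / 2) * changChi ψ x) := fun x => by
      have c1 := Real.cosh_add_sinh (1 / 2)
      have c2 := Real.cosh_sub_sinh (1 / 2)
      rw [add_div, Real.exp_add]
      rcases hσ with h | h <;> rcases chang_pm h2 ψ x with h' | h' <;> rw [h, h']
      · rw [show (1 : ℝ) * 1 / 2 = 1 / 2 by ring, ← c1]; ring
      · rw [show (1 : ℝ) * -1 / 2 = -(1 / 2) by ring, ← c2]; ring
      · rw [show (-1 : ℝ) * 1 / 2 = -(1 / 2) by ring, ← c2]; ring
      · rw [show (-1 : ℝ) * -1 / 2 = 1 / 2 by ring, ← c1]; ring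
    simp only [b2, sum_add_distrib, ← mul_sum, b1, mul_zero, add_zero]
    calc Real.cosh (1 / 2) * ∑ x, Real.exp (F x / 2)
        ≤ Real.exp ((1 / 2) ^ 2 / 2) * (Fintype.card W * Real.exp (j / 8)) :=
          mul_le_mul (Real.cosh_le_exp_half_sq _) a4 (by positivity) (by positivity)
      _ = _ := by
          rw [mul_left_comm, ← Real.exp_add]
          push_cast
          ring_nf

theorem chang_iter (h2 : ∀ x : W, x + x = 0) (T : Finset W) (j : ℕ) :
    changFound T j ∨ changState T (j + 1) := by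
  induction j with
  | zero =>
    exact chang_step h2 ⟨⊤, fun _ => 0, by rw [card_top]; simp, fun _ _ _ => rfl, by simp, by simp⟩
  | succ j ih =>
    rcases ih with ⟨V, h1, h⟩ | h
    · exact Or.inl ⟨V, h1.trans (Nat.mul_le_mul_right _ (Nat.pow_le_pow_right two_pos
        (Nat.le_succ j))), h⟩
    · exact chang_step h2 h

omit [DecidableEq W] in
theorem chang_end {T : Finset W} {l : ℕ} (hT : Fintype.card W ≤ 2 ^ l * #T) :
    ¬ changState T (8 * l + 1) := by
  rintro ⟨V, F, -, -, a3, a4⟩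
  generalize hj : ((8 * l + 1 : ℕ) : ℝ) = j at a3 a4
  push_cast at hj
  have hT' : (Fintype.card W : ℝ) ≤ 2 ^ l * #T := by exact_mod_cast hT
  have hN : (0 : ℝ) < Fintype.card W := by exact_mod_cast Fintype.card_pos
  have hT0 : (0 : ℝ) < #T := by
    by_contra h
    nlinarith [show (0 : ℝ) < 2 ^ l by positivity]
  have b1 : Real.exp (j / 4) * #T ≤ ∑ x ∈ T, Real.exp (F x / 2) := by
    calc Real.exp (j / 4) * #T ≤ Real.exp (j / 4) * ∑ x ∈ T, (F x / 2 - j / 4 + 1) := by
          refine mul_le_mul_of_nonneg_left ?_ (Real.exp_pos _).le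
          simp only [sum_add_distrib, sum_sub_distrib, ← sum_div, sum_const, nsmul_eq_mul]
          linarith
      _ ≤ _ := by
          rw [mul_sum]
          refine sum_le_sum fun x _ => ?_
          calc Real.exp (j / 4) * (F x / 2 - j / 4 + 1)
              ≤ Real.exp (j / 4) * Real.exp (F x / 2 - j / 4) :=
                mul_le_mul_of_nonneg_left (Real.add_one_le_exp _) (Real.exp_pos _).le
            _ = _ := by rw [← Real.exp_add]; ring_nf
  have b2 : ∑ x ∈ T, Real.exp (F x / 2) ≤ ∑ x, Real.exp (F x / 2) :=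
    sum_le_sum_of_subset_of_nonneg (subset_univ _) fun x _ _ => (Real.exp_pos _).le
  have b3 : (2 : ℝ) ^ l ≤ Real.exp l := by
    rw [← mul_one (l : ℝ), Real.exp_nat_mul]
    exact pow_le_pow_left₀ two_pos.le (by linarith [Real.add_one_le_exp 1]) l
  have b4 : Real.exp (j / 4) * #T ≤ Real.exp (l + j / 8) * #T := by
    rw [Real.exp_add]
    calc Real.exp (j / 4) * #T ≤ Fintype.card W * Real.exp (j / 8) := b1.trans (b2.trans a4)
      _ ≤ (Real.exp l * #T) * Real.exp (j / 8) := by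
          gcongr
          exact hT'.trans (by gcongr)
      _ = _ := by ring
  have b5 := Real.exp_le_exp.1 (le_of_mul_le_mul_right b4 hT0)
  linarith

end

theorem chang (W : Type) [AddCommGroup W] [Fintype W] [DecidableEq W] (h2 : ∀ x : W, x + x = 0)
    (T : Finset W) (l : ℕ) (hT : Fintype.card W ≤ 2 ^ l * #T) :
    ∃ V : AddSubgroup W, Fintype.card W ≤ 2 ^ (8 * l) * Nat.card V ∧
      ∀ g : W → ℝ, (∀ x, ∑ y ∈ cs V x, g y = 0) → ∑ x, avg T g x ^ 2 ≤ (∑ x, g x ^ 2) / 4 := by
  obtain ⟨V, h1, h⟩ := (chang_iter h2 T (8 * l)).resolve_right (chang_end hT)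
  refine ⟨V, h1, fun g hg => ?_⟩
  have hN : (0 : ℝ) < Fintype.card W := by exact_mod_cast Fintype.card_pos
  refine le_of_mul_le_mul_left ?_ hN
  rw [← mul_div_assoc, ← chang_parseval h2, ← chang_parseval h2, sum_div]
  refine sum_le_sum fun ψ _ => ?_
  rw [chang_avg h2]
  by_cases hψ : (#T : ℝ) / 2 < |∑ t ∈ T, changChi ψ t|
  · rw [chang_triv h2 hg (h ψ hψ)]
    simp
  · have a1 : |(∑ t ∈ T, changChi ψ t) / #T| ≤ 1 / 2 := by
      rw [abs_div, Nat.abs_cast]
      exact div_le_of_le_mul₀ (Nat.cast_nonneg _) (by norm_num) (by linarith)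
    have a2 : ((∑ t ∈ T, changChi ψ t) / #T) ^ 2 ≤ 1 / 4 := by
      rw [← sq_abs]
      nlinarith [abs_nonneg ((∑ t ∈ T, changChi ψ t) / #T)]
    rw [mul_pow]
    nlinarith [sq_nonneg (∑ x, g x * changChi ψ x)]

end Pool.Agent.P.MP_db4732_co.Q
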