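import Pool.Agent.P.MP_db4732_co.Q.CS
import Pool.Agent.P.MP_db4732_co.Q.Chang

/-! From sifted sets to a density increment on a coset. -/

set_option autoImplicit false

namespace Pool.Agent.P.MP_db4732_co.Q

open Finset

section aux

variable {W : Type} [AddCommGroup W] [Fintype W] [DecidableEq W]

omit [Fintype W] [DecidableEq W] in
theorem core_avg_mono (T : Finset W) {g h : W → ℝ} (H : ∀ x, g x ≤ h x) (x : W) :
    avg T g x ≤ avg T h x :=
  div_le_div_of_nonneg_right (sum_le_sum fun _ _ => H _) (Nat.cast_nonneg _)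

omit [Fintype W] [DecidableEq W] in
theorem core_avg_le {T : Finset W} (hT : T.Nonempty) {g : W → ℝ} {ρ : ℝ} (H : ∀ x, g x ≤ ρ)
    (x : W) : avg T g x ≤ ρ := by
  have T0 : (0 : ℝ) < #T := by exact_mod_cast hT.card_pos
  rw [avg, div_le_iff₀ T0, mul_comm, ← nsmul_eq_mul]
  exact sum_le_card_nsmul _ _ _ fun _ _ => H _

omit [Fintype W] [DecidableEq W] in
theorem core_avg_lin (T : Finset W) (c : ℝ) (g h : W → ℝ) :
    avg T (fun x => c * g x + h x) = fun x => c * avg T g x + avg T h x := by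
  funext x
  simp only [avg, sum_add_distrib, ← mul_sum]
  ring

omit [Fintype W] [DecidableEq W] in
theorem core_iter_lin (T : Finset W) (c : ℝ) (g h : W → ℝ) (i : ℕ) :
    (avg T)^[i] (fun x => c * g x + h x) = fun x => c * (avg T)^[i] g x + (avg T)^[i] h x := by
  induction i with
  | zero => rfl
  | succ i ih => simp only [Function.iterate_succ_apply', ih, core_avg_lin]

omit [Fintype W] [DecidableEq W] in
theorem core_iter_le {T : Finset W} (hT : T.Nonempty) {g : W → ℝ} {ρ : ℝ} (H : ∀ x, g x ≤ ρ)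
    (i : ℕ) : ∀ x, (avg T)^[i] g x ≤ ρ := by
  induction i with
  | zero => exact H
  | succ i ih => rw [Function.iterate_succ_apply']; exact core_avg_le hT ih

omit [Fintype W] [DecidableEq W] in
theorem core_avg_comm (A B : Finset W) (g : W → ℝ) : avg A (avg B g) = avg B (avg A g) := by
  funext x
  simp only [avg, ← sum_div]
  rw [sum_comm, div_right_comm]
  simp only [add_right_comm]

omit [Fintype W] [DecidableEq W] in
theorem core_iter_comm (T B : Finset W) (g : W → ℝ) (i : ℕ) :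
    (avg T)^[i] (avg B g) = avg B ((avg T)^[i] g) := by
  induction i with
  | zero => rfl
  | succ i ih => simp only [Function.iterate_succ_apply', ih, core_avg_comm T B]

theorem core_nc (Y B : Finset W) :
    nc Y B = avg B fun x => if x ∈ Y then (Fintype.card W : ℝ) / #Y else 0 := by
  funext x
  rw [avg, ← sum_filter, sum_const, nsmul_eq_mul, nc, cv]
  ring

theorem core_pair (h2 : ∀ x : W, x + x = 0) (B A : Finset W) (h : W → ℝ) :
    ∑ y, h y * nc B A y = Fintype.card W / #A * ∑ x ∈ A, avg B h x := by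
  have e1 : ∀ y, h y * nc B A y =
      Fintype.card W / (#B * #A) * ∑ a ∈ A, if y + a ∈ B then h y else 0 := by
    intro y
    rw [← sum_filter, sum_const, nsmul_eq_mul, nc, cv]
    ring
  have e2 : ∀ a, ∑ y, (if y + a ∈ B then h y else 0) = ∑ b ∈ B, h (a + b) := by
    intro a
    rw [← Equiv.sum_comp (Equiv.addLeft a)]
    simp only [Equiv.coe_addLeft]
    have : ∀ b, a + b + a = b := fun b => by rw [add_right_comm, h2, zero_add]
    simp only [this]
    rw [sum_ite_mem, univ_inter]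
  simp only [e1, ← mul_sum]
  rw [sum_comm]
  simp only [e2, avg, ← sum_div]
  ring

omit [DecidableEq W] in
theorem core_cs_shift (h2 : ∀ x : W, x + x = 0) (V : AddSubgroup W) (h : W → ℝ) (x t : W) :
    ∑ y ∈ cs V x, h (y + t) = ∑ y ∈ cs V (x + t), h y := by
  have e : ∀ y : W, y + t + (x + t) = y + x := fun y => by
    rw [show y + t + (x + t) = y + x + (t + t) by abel, h2, add_zero]
  refine sum_bij (fun y _ => y + t) (fun y hy => ?_) (fun _ _ _ _ e => add_right_cancel e)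
    (fun y hy => ⟨y + t, ?_, by rw [add_assoc, h2, add_zero]⟩) fun _ _ => rfl
  · rw [mem_cs] at hy ⊢
    rwa [e]
  · rw [mem_cs] at hy ⊢
    rwa [add_assoc, add_comm t]

omit [DecidableEq W] in
theorem core_cs_avg (h2 : ∀ x : W, x + x = 0) (V : AddSubgroup W) (T : Finset W) (h : W → ℝ)
    (x : W) : ∑ y ∈ cs V x, avg T h y = avg T (fun x => ∑ y ∈ cs V x, h y) x := by
  simp only [avg, ← sum_div]
  rw [sum_comm]
  simp only [core_cs_shift h2]

omit [DecidableEq W] in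
theorem core_cs_eq (h2 : ∀ x : W, x + x = 0) {V : AddSubgroup W} {x y : W} (h : y ∈ cs V x) :
    cs V y = cs V x := by
  rw [mem_cs] at h
  ext w
  rw [mem_cs, mem_cs]
  constructor
  · intro hw
    have := V.add_mem hw h
    rwa [show w + y + (y + x) = w + x + (y + y) by abel, h2, add_zero] at this
  · intro hw
    have := V.add_mem hw h
    rwa [show w + x + (y + x) = w + y + (x + x) by abel, h2, add_zero] at this

omit [DecidableEq W] in
theorem core_orth (V : AddSubgroup W) {r : W → ℝ} (hr : ∀ x, ∑ y ∈ cs V x, r y = 0) (g : W → ℝ) :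
    ∑ x, r x * ∑ y ∈ cs V x, g y = 0 := by
  simp only [mul_sum]
  rw [sum_comm' (t' := univ) (s' := fun y => cs V y) (by
    intro x y
    simp only [mem_univ, true_and, and_true, mem_cs, add_comm])]
  simp only [← sum_mul, hr, zero_mul, sum_const_zero]

omit [DecidableEq W] in
theorem core_decay (h2 : ∀ x : W, x + x = 0) {V : AddSubgroup W} {T : Finset W}
    (hV : ∀ g : W → ℝ, (∀ x, ∑ y ∈ cs V x, g y = 0) → ∑ x, avg T g x ^ 2 ≤ (∑ x, g x ^ 2) / 4)
    {r : W → ℝ} (hr : ∀ x, ∑ y ∈ cs V x, r y = 0) (i : ℕ) :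
    (∀ x, ∑ y ∈ cs V x, (avg T)^[i] r y = 0) ∧
      (2 ^ i) ^ 2 * ∑ x, (avg T)^[i] r x ^ 2 ≤ ∑ x, r x ^ 2 := by
  induction i with
  | zero => exact ⟨hr, by simp⟩
  | succ i ih =>
    rw [Function.iterate_succ_apply']
    refine ⟨fun x => ?_, ?_⟩
    · rw [core_cs_avg h2]
      simp [avg, ih.1]
    · have := mul_le_mul_of_nonneg_left (hV _ ih.1) (show (0 : ℝ) ≤ (2 ^ i) ^ 2 by positivity)
      rw [pow_succ (2 : ℝ) i]
      linarith [ih.2]

omit [Fintype W] [DecidableEq W] in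
theorem core_walk {T A : Finset W} (hT : T.Nonempty) {u : W → ℝ} {δ : ℝ}
    (h : ∀ t ∈ T, ∀ z : W, ∑ x ∈ A, |u (x + z + t) - u (x + z)| ≤ δ) (i : ℕ) :
    ∀ z : W, ∑ x ∈ A, u (x + z) - i * δ ≤ ∑ x ∈ A, (avg T)^[i] u (x + z) := by
  have T0 : (0 : ℝ) < #T := by exact_mod_cast hT.card_pos
  induction i with
  | zero => intro z; simp
  | succ i ih =>
    intro z
    rw [Function.iterate_succ_apply']
    simp only [avg, ← sum_div]
    rw [sum_comm, le_div_iff₀ T0, mul_comm, ← nsmul_eq_mul]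
    refine card_nsmul_le_sum _ _ _ fun t ht => ?_
    have e1 := ih (z + t)
    have e2 : ∑ x ∈ A, (u (x + z) - u (x + z + t)) ≤ δ :=
      (sum_le_sum fun x _ => by rw [abs_sub_comm]; exact le_abs_self _).trans (h t ht z)
    rw [sum_sub_distrib] at e2
    simp only [← add_assoc] at e1
    push_cast
    linarith

end aux

theorem core {ε : ℝ} (hε : 0 < ε) : ∃ K : ℕ, ∀ (W : Type) [AddCommGroup W] [Fintype W]
    [DecidableEq W], (∀ x : W, x + x = 0) → ∀ (Y B A₁ A₂ : Finset W) (l k : ℕ) (l₁ : ℝ),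
    1 ≤ l → 1 ≤ k → Y.Nonempty → B.Nonempty → Fintype.card W ≤ 2 ^ l * #A₁ →
    Fintype.card W ≤ 2 ^ l * #A₂ → 0 ≤ l₁ →
    (#{q ∈ A₁ ×ˢ A₂ | nc Y B (q.1 + q.2) < l₁} : ℝ) ≤ ε * #A₁ * #A₂ →
    nsq Y A₁ * nsq B A₂ ≤ (ε * l₁ * 2 ^ k) ^ 2 →
    ∃ (V : AddSubgroup W) (z : W), Fintype.card W ≤ 2 ^ (K * k ^ 2 * l ^ 2) * Nat.card V ∧
      (1 - 3 * ε) * l₁ * #Y * Nat.card V ≤ #(Y ∩ cs V z) * (Fintype.card W : ℝ) := by
  obtain ⟨K₀, hK⟩ := almost_periods
  obtain ⟨k₀, hk₀⟩ := exists_nat_gt (1 / ε)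
  have k0 : (0 : ℝ) < k₀ := lt_trans (by positivity) hk₀
  have k1 : 1 ≤ k₀ := by exact_mod_cast k0
  refine ⟨8 * K₀ * k₀ ^ 2, fun W _ _ _ h2 Y B A₁ A₂ l k l₁ hl hk hY hB hA₁ hA₂ hl₁ hbad hsq => ?_⟩
  have N0 : 0 < Fintype.card W := Fintype.card_pos
  have N1 : (0 : ℝ) < Fintype.card W := by exact_mod_cast N0
  have a1 : (0 : ℝ) < #A₁ := by exact_mod_cast Nat.pos_of_mul_pos_left (N0.trans_le hA₁)
  have a2 : (0 : ℝ) < #A₂ := by exact_mod_cast Nat.pos_of_mul_pos_left (N0.trans_le hA₂)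
  have n1 : A₁.Nonempty := card_pos.1 (by exact_mod_cast a1)
  have Y0 : (0 : ℝ) < #Y := by exact_mod_cast hY.card_pos
  obtain ⟨S, hS⟩ : ∃ S : Finset W, ∀ x, x ∈ S ↔ l₁ ≤ nc Y B x :=
    ⟨univ.filter fun x => l₁ ≤ nc Y B x, fun x => by simp⟩
  obtain ⟨T, hT, hper⟩ := hK W h2 A₁ A₂ S l (k * k₀) hl (Nat.mul_pos hk k1) hA₁ hA₂
  have nT : T.Nonempty := card_pos.1 (Nat.pos_of_mul_pos_left (N0.trans_le hT))
  obtain ⟨V, hV, hch⟩ := chang W h2 T _ hT
  have v0 : (0 : ℝ) < Nat.card V := by exact_mod_cast Nat.card_pos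
  obtain ⟨z, -, hz⟩ := exists_max_image univ (fun z => #(Y ∩ cs V z)) univ_nonempty
  refine ⟨V, z, by
    rwa [show 8 * K₀ * k₀ ^ 2 * k ^ 2 * l ^ 2 = 8 * (K₀ * (k * k₀) ^ 2 * l ^ 2) by ring], ?_⟩
  obtain ⟨u, hu⟩ : ∃ u : W → ℝ, u = fun x => (cv S A₁ x : ℝ) / #A₁ := ⟨_, rfl⟩
  have e1 : (1 - ε) * #A₂ ≤ ∑ x ∈ A₂, u x := by
    have b1 : tri S A₁ A₂ + #{q ∈ A₁ ×ˢ A₂ | nc Y B (q.1 + q.2) < l₁} = #A₁ * #A₂ := by
      rw [tri_eq, ← card_product, ← card_filter_add_card_filter_not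
        (s := A₁ ×ˢ A₂) fun q => q.1 + q.2 ∈ S]
      congr 2
      exact filter_congr fun q _ => by rw [hS, not_le]
    have b2 : (tri S A₁ A₂ : ℝ) + #{q ∈ A₁ ×ˢ A₂ | nc Y B (q.1 + q.2) < l₁} = #A₁ * #A₂ := by
      exact_mod_cast b1
    simp only [hu, ← sum_div]
    rw [le_div_iff₀ a1, ← Nat.cast_sum]
    change _ ≤ (tri S A₁ A₂ : ℝ)
    linarith
  have e2 : (1 - 2 * ε) * #A₂ ≤ ∑ x ∈ A₂, (avg T)^[k] u x := by
    have b1 := core_walk nT (u := u) (by rw [hu]; exact hper) k 0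
    simp only [add_zero] at b1
    have b2 : (k : ℝ) * (#A₂ / ((k * k₀ : ℕ) : ℝ)) ≤ ε * #A₂ := by
      have : (0 : ℝ) < k := by exact_mod_cast hk
      push_cast
      rw [show (k : ℝ) * (#A₂ / (k * k₀)) = #A₂ / k₀ by field_simp, div_le_iff₀ k0]
      rw [div_lt_iff₀ hε] at hk₀
      nlinarith
    linarith
  have e3 : ∀ x, l₁ * (avg T)^[k] u x ≤ (avg T)^[k] (avg A₁ (nc Y B)) x := by
    intro x
    have b1 : ∀ x, l₁ * u x + -avg A₁ (nc Y B) x ≤ 0 := by
      intro x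
      have : l₁ * u x ≤ avg A₁ (nc Y B) x := by
        rw [hu, avg]
        simp only
        rw [← mul_div_assoc, cv, card_filter]
        push_cast
        rw [mul_sum]
        refine div_le_div_of_nonneg_right (sum_le_sum fun a _ => ?_) a1.le
        split_ifs with h
        · rw [mul_one]; exact (hS _).1 h
        · rw [mul_zero, nc]; positivity
      linarith
    have b2 := core_iter_le nT b1 k x
    have b3 := congrFun (core_iter_lin T (-1) (avg A₁ (nc Y B)) (fun _ => 0) k) x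
    have b4 := core_iter_le nT (g := fun _ => (0 : ℝ)) (fun _ => le_rfl) k x
    have b5 := congrFun (core_iter_lin T (-1) (fun _ => 0) (fun _ => 0) k) x
    rw [core_iter_lin] at b2
    simp only [neg_mul, one_mul, add_zero, neg_zero] at b2 b3 b5
    linarith
  have e4 : (1 - 2 * ε) * l₁ * Fintype.card W ≤ ∑ y, (avg T)^[k] (nc Y A₁) y * nc B A₂ y := by
    rw [core_pair h2, ← core_iter_comm, core_nc Y A₁, core_avg_comm, ← core_nc Y B]
    have b1 : l₁ * ((1 - 2 * ε) * #A₂) ≤ ∑ x ∈ A₂, (avg T)^[k] (avg A₁ (nc Y B)) x := by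
      refine (mul_le_mul_of_nonneg_left e2 hl₁).trans ?_
      rw [mul_sum]
      exact sum_le_sum fun x _ => e3 x
    refine le_trans (le_of_eq ?_) (mul_le_mul_of_nonneg_left b1 (by positivity))
    field_simp
  obtain ⟨P, hP⟩ : ∃ P : W → ℝ, P = fun x => (∑ y ∈ cs V x, nc Y A₁ y) / Nat.card V := ⟨_, rfl⟩
  obtain ⟨r, hr⟩ : ∃ r : W → ℝ, r = fun x => nc Y A₁ x - P x := ⟨_, rfl⟩
  have r0 : ∀ x, ∑ y ∈ cs V x, r y = 0 := by
    intro x
    have : ∑ y ∈ cs V x, P y = ∑ y ∈ cs V x, P x :=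
      sum_congr rfl fun y hy => by simp only [hP, core_cs_eq h2 hy]
    simp only [hr, sum_sub_distrib]
    rw [this, sum_const, card_cs, nsmul_eq_mul, hP]
    field_simp
    ring
  have hg : nc Y A₁ = fun x => 1 * r x + P x := by
    funext x; simp [hr]
  have r1 : ∑ x, r x ^ 2 ≤ ∑ x, nc Y A₁ x ^ 2 := by
    have b1 : ∑ x, r x * P x = 0 := by
      simp only [hP, ← mul_div_assoc, ← sum_div, core_orth V r0, zero_div]
    have b2 : ∑ x, nc Y A₁ x ^ 2 = ∑ x, r x ^ 2 + 2 * ∑ x, r x * P x + ∑ x, P x ^ 2 := by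
      rw [mul_sum, ← sum_add_distrib, ← sum_add_distrib]
      exact sum_congr rfl fun x _ => by rw [hr]; ring
    have b3 : 0 ≤ ∑ x, P x ^ 2 := sum_nonneg fun _ _ => sq_nonneg _
    linarith
  have e5 : ∑ y, (avg T)^[k] r y * nc B A₂ y ≤ ε * l₁ * Fintype.card W := by
    refine le_of_pow_le_pow_left₀ (n := 2) (by norm_num) (by positivity) ?_
    have b1 := sum_mul_sq_le_sq_mul_sq univ ((avg T)^[k] r) (nc B A₂)
    have b2 := (core_decay h2 hch r0 k).2.trans r1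
    have b3 : 0 ≤ ∑ x, nc B A₂ x ^ 2 := sum_nonneg fun _ _ => sq_nonneg _
    have b4 : (0 : ℝ) < (2 ^ k) ^ 2 := by positivity
    rw [nsq, nsq, div_mul_div_comm, div_le_iff₀ (by positivity)] at hsq
    refine le_of_mul_le_mul_left ?_ b4
    nlinarith [mul_le_mul_of_nonneg_left b1 b4.le, mul_le_mul_of_nonneg_right b2 b3]
  clear hr
  obtain ⟨ρ, hρ⟩ : ∃ ρ : ℝ, ρ = #(Y ∩ cs V z) * (Fintype.card W / #Y) / Nat.card V := ⟨_, rfl⟩
  have P1 : ∀ x, P x ≤ ρ := by
    intro x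
    rw [hP, hρ]
    refine div_le_div_of_nonneg_right ?_ v0.le
    rw [core_nc, core_cs_avg h2]
    refine core_avg_le n1 (fun w => ?_) x
    rw [sum_ite_mem, sum_const, nsmul_eq_mul, inter_comm]
    exact mul_le_mul_of_nonneg_right (Nat.cast_le.2 (hz w (mem_univ _))) (div_pos N1 Y0).le
  have e6 : ∑ y, (avg T)^[k] P y * nc B A₂ y ≤ ρ * Fintype.card W := by
    clear hg
    rw [core_pair h2]
    have b1 := sum_le_card_nsmul A₂ _ ρ fun x _ => core_avg_le hB (core_iter_le nT P1 k) x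
    rw [nsmul_eq_mul] at b1
    refine (mul_le_mul_of_nonneg_left b1 (div_pos N1 a2).le).trans (le_of_eq ?_)
    rw [← mul_assoc, div_mul_cancel₀ _ a2.ne', mul_comm]
  have e7 : (1 - 3 * ε) * l₁ ≤ ρ := by
    rw [hg, core_iter_lin] at e4
    simp only [one_mul, add_mul, sum_add_distrib] at e4
    refine le_of_mul_le_mul_right ?_ N1
    linarith
  rw [hρ, le_div_iff₀ v0, ← mul_div_assoc, le_div_iff₀ Y0] at e7
  linarith

end Pool.Agent.P.MP_db4732_co.Q
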