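import Mathlib

/-! Corners in vector spaces over the field with two elements: definitions. -/

set_option autoImplicit false

namespace Pool.Agent.P.MP_db4732_co.Q

open Finset

variable {W : Type} [AddCommGroup W] [Fintype W] [DecidableEq W]

/-- No nontrivial corner. -/
def CF (A : Finset (W × W)) : Prop :=
  ∀ x y z : W, (x, y) ∈ A → (x, y + z) ∈ A → (x + z, y) ∈ A → z = 0

/-- Number of `b ∈ B` with `x + b ∈ Y`. -/
def cv (Y B : Finset W) (x : W) : ℕ := #{b ∈ B | x + b ∈ Y}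

/-- Number of pairs `(b, x) ∈ B × C` with `x + b ∈ Y`. -/
def tri (Y B C : Finset W) : ℕ := ∑ x ∈ C, cv Y B x

/-- Normalised convolution of the uniform densities of `Y` and `B`. -/
noncomputable def nc (Y B : Finset W) (x : W) : ℝ :=
  (cv Y B x : ℝ) * Fintype.card W / ((#Y : ℝ) * #B)

/-- Mean square of the normalised convolution. -/
noncomputable def nsq (Y B : Finset W) : ℝ := (∑ x, nc Y B x ^ 2) / Fintype.card W

/-- Average over translations by `T`. -/
noncomputable def avg (T : Finset W) (g : W → ℝ) (x : W) : ℝ := (∑ t ∈ T, g (x + t)) / #T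

/-- Upper bound for the density of the Cayley graph of `Y` on large rectangles. -/
def Up (Y : Finset W) (a : ℕ) (l : ℝ) (p : ℕ) : Prop :=
  ∀ lam : ℝ, l ≤ lam → ∀ B C : Finset W, Fintype.card W ≤ 2 ^ a * #B →
    (Fintype.card W : ℝ) ≤ lam ^ p * #C →
    (tri Y B C : ℝ) * Fintype.card W < lam * #Y * #B * #C

open Classical in
/-- A coset. -/
noncomputable def cs (V : AddSubgroup W) (z : W) : Finset W := univ.filter fun x => x + z ∈ V

/-- No density increment on cosets of subgroups of `V`, at rate `θ`. -/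
def Spread (κ θ : ℝ) (V : AddSubgroup W) (Y : Finset W) : Prop :=
  ∀ V' ≤ V, ∀ z : W, (#(Y ∩ cs V' z) : ℝ) * (Nat.card V : ℝ) ^ (1 - θ) ≤
    κ * #Y * (Nat.card V' : ℝ) ^ (1 - θ)

/-- Mean inner product. -/
noncomputable def ip {δ : Type} (D : Finset δ) (u v : δ → ℝ) : ℝ := (∑ d ∈ D, u d * v d) / #D

/-- The row of `x`, indexed by the diagonal. -/
def nb (A : Finset (W × W)) (D : Finset W) (x : W) : Finset W := {d ∈ D | (x, x + d) ∈ A}

/-- `A` lies in the container of `X`, `Y`, `D`. -/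
def In (A : Finset (W × W)) (X Y D : Finset W) : Prop :=
  ∀ q ∈ A, q.1 ∈ X ∧ q.2 ∈ Y ∧ q.1 + q.2 ∈ D

/-- The part of `A` in a smaller container. -/
def res (A : Finset (W × W)) (X Y D : Finset W) : Finset (W × W) :=
  {q ∈ A | q.1 ∈ X ∧ q.2 ∈ Y ∧ q.1 + q.2 ∈ D}

/-- A density increment of the bipartite graph of rows on a rectangle. -/
def Inc (A : Finset (W × W)) (X D : Finset W) (g₀ : ℝ) (K M b : ℕ) : Prop :=
  ∃ X' ⊆ X, ∃ D' ⊆ D, ∃ g : ℝ, g₀ ≤ g ∧ (#X : ℝ) ≤ g ^ K * #X' ∧ #X ≤ 2 ^ b * #X' ∧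
    (#D : ℝ) ≤ g ^ M * #D' ∧
    g ^ 4 * #A * #X' * #D' ≤ (∑ x ∈ X', (#(nb A D x ∩ D') : ℝ)) * #X * #D

/-- A density increment inside a smaller container. -/
def Better (A : Finset (W × W)) (X Y D : Finset W) (g₀ : ℝ) (K M : ℕ) : Prop :=
  ∃ X' ⊆ X, ∃ Y' ⊆ Y, ∃ D' ⊆ D, ∃ g : ℝ, g₀ ≤ g ∧ (res A X' Y' D').Nonempty ∧
    g ^ 2 * #A * tri D' X' Y' ≤ #(res A X' Y' D') * (tri D X Y : ℝ) ∧
    (#A : ℝ) * #X' * #Y' ≤ g ^ M * #(res A X' Y' D') * #X * #Y ∧
    (#X : ℝ) * #Y ≤ g ^ K * #X' * #Y'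

/-- The trace of `Y` on a coset of `V`, moved to `V`. -/
noncomputable def pull (V : AddSubgroup W) [Fintype V] (z : W) (Y : Finset W) : Finset V :=
  univ.filter fun v => (v : W) + z ∈ Y

omit [DecidableEq W] in
theorem mem_cs {V : AddSubgroup W} {z x : W} : x ∈ cs V z ↔ x + z ∈ V := by
  simp [cs]

omit [DecidableEq W] in
theorem card_cs (V : AddSubgroup W) (z : W) : #(cs V z) = Nat.card V := by
  classical
  rw [Nat.card_eq_fintype_card, ← card_univ]
  refine card_bij (fun x hx => ⟨x + z, mem_cs.1 hx⟩) (fun _ _ => mem_univ _)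
    (fun x _ y _ h => add_right_cancel (congrArg Subtype.val h)) fun v _ =>
      ⟨v - z, mem_cs.2 (by simp), by simp⟩

omit [DecidableEq W] in
theorem cs_top (z : W) : cs (⊤ : AddSubgroup W) z = univ := by
  ext x; simp [mem_cs]

omit [DecidableEq W] in
theorem card_top : Nat.card (⊤ : AddSubgroup W) = Fintype.card W := by
  rw [← card_cs ⊤ (0 : W), cs_top, card_univ]

omit [Fintype W] in
theorem mem_pull {V : AddSubgroup W} [Fintype V] {z : W} {Y : Finset W} {v : V} :
    v ∈ pull V z Y ↔ (v : W) + z ∈ Y := by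
  simp [pull]

omit [Fintype W] in
theorem tri_eq (Y B C : Finset W) : tri Y B C = #{q ∈ B ×ˢ C | q.1 + q.2 ∈ Y} := by
  unfold tri cv
  rw [card_filter, sum_product_right]
  refine sum_congr rfl fun x _ => ?_
  rw [card_filter]
  exact sum_congr rfl fun b _ => by rw [add_comm]

omit [Fintype W] in
theorem tri_comm (Y B C : Finset W) : tri Y B C = tri Y C B := by
  unfold tri cv
  simp only [card_filter]
  rw [sum_comm]
  exact sum_congr rfl fun x _ => sum_congr rfl fun b _ => by rw [add_comm]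

omit [Fintype W] in
theorem tri_le (Y B C : Finset W) : tri Y B C ≤ #B * #C := by
  rw [tri_eq, ← card_product]; exact card_filter_le _ _

omit [Fintype W] in
/-- In characteristic two the three sets play the same role. -/
theorem tri_rot (h2 : ∀ x : W, x + x = 0) (Y B C : Finset W) : tri Y B C = tri B Y C := by
  unfold tri cv
  refine sum_congr rfl fun x _ => ?_
  refine card_bij (fun b _ => x + b) (fun b hb => ?_) (fun _ _ _ _ h => add_left_cancel h)
    fun y hy => ⟨x + y, ?_, by rw [← add_assoc, h2, zero_add]⟩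
  · rw [mem_filter] at hb ⊢
    exact ⟨hb.2, by rw [← add_assoc, h2, zero_add]; exact hb.1⟩
  · rw [mem_filter] at hy ⊢
    exact ⟨hy.2, by rw [← add_assoc, h2, zero_add]; exact hy.1⟩

theorem Up.mono {Y : Finset W} {a a' p p' : ℕ} {l l' : ℝ} (h : Up Y a l p) (ha : a' ≤ a)
    (hl : l ≤ l') (h1 : 1 ≤ l') (hp : p' ≤ p) : Up Y a' l' p' := fun lam hlam B C hB hC =>
  h lam (hl.trans hlam) B C
    (hB.trans (Nat.mul_le_mul_right _ (Nat.pow_le_pow_right two_pos ha)))
    (hC.trans (mul_le_mul_of_nonneg_right (pow_le_pow_right₀ (h1.trans hlam) hp)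
      (Nat.cast_nonneg _)))

end Pool.Agent.P.MP_db4732_co.Q
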