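import Pool.Agent.P.MP_db4732_co.Q.Sift

/-! Extremal sifting: a subset on which the self-convolution is almost constant. -/

set_option autoImplicit false

namespace Pool.Agent.P.MP_db4732_co.Q

open Finset

section aux

variable {W : Type} [AddCommGroup W] [Fintype W] [DecidableEq W]

theorem ext_cv (h2 : ∀ x : W, x + x = 0) (Y : Finset W) (x y : W) :
    cv Y Y (x + y) = #{t : W | t + x ∈ Y ∧ t + y ∈ Y} := by
  unfold cv
  refine card_bij (fun b _ => b + y) (fun b hb => ?_) (fun _ _ _ _ h => add_right_cancel h)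
    fun t ht => ⟨t + y, ?_, by rw [add_assoc, h2, add_zero]⟩
  · rw [mem_filter] at hb ⊢
    refine ⟨mem_univ _, ?_, ?_⟩
    · have : b + y + x = x + y + b := by abel
      rw [this]; exact hb.2
    · rw [add_assoc, h2, add_zero]; exact hb.1
  · rw [mem_filter] at ht ⊢
    refine ⟨ht.2.2, ?_⟩
    have : x + y + (t + y) = t + x + (y + y) := by abel
    rw [this, h2, add_zero]; exact ht.2.1

/-- Dependent random choice as an identity. -/
theorem ext_drc (h2 : ∀ x : W, x + x = 0) (Y A : Finset W) (φ : W → W → ℝ) :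
    ∑ x ∈ A, ∑ y ∈ A, (cv Y Y (x + y) : ℝ) * φ x y =
      ∑ t : W, ∑ x ∈ {b ∈ A | t + b ∈ Y}, ∑ y ∈ {b ∈ A | t + b ∈ Y}, φ x y := by
  have h : ∀ x y : W, (cv Y Y (x + y) : ℝ) * φ x y =
      ∑ t : W, if t + x ∈ Y then (if t + y ∈ Y then φ x y else 0) else 0 := by
    intro x y
    rw [ext_cv h2, ← nsmul_eq_mul, ← sum_const, sum_filter]
    refine sum_congr rfl fun t _ => ?_
    by_cases h1 : t + x ∈ Y <;> by_cases h3 : t + y ∈ Y <;> simp [h1, h3]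
  simp_rw [h, sum_filter]
  calc ∑ x ∈ A, ∑ y ∈ A, ∑ t : W, (if t + x ∈ Y then (if t + y ∈ Y then φ x y else 0) else 0)
      = ∑ x ∈ A, ∑ t : W, ∑ y ∈ A,
          (if t + x ∈ Y then (if t + y ∈ Y then φ x y else 0) else 0) :=
        sum_congr rfl fun x _ => sum_comm
    _ = ∑ t : W, ∑ x ∈ A, ∑ y ∈ A,
          (if t + x ∈ Y then (if t + y ∈ Y then φ x y else 0) else 0) := sum_comm
    _ = _ := by
        refine sum_congr rfl fun t _ => sum_congr rfl fun x _ => ?_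
        split_ifs <;> simp

theorem ext_nsq_nonneg (Y A : Finset W) : 0 ≤ nsq Y A := by
  unfold nsq
  positivity

theorem ext_nsq_eq (Y A : Finset W) :
    nsq Y A * (#A : ℝ) ^ 2 =
      (Fintype.card W : ℝ) / (#Y : ℝ) ^ 2 * ∑ t : W, (#{b ∈ A | t + b ∈ Y} : ℝ) ^ 2 := by
  have hN : (Fintype.card W : ℝ) ≠ 0 := by exact_mod_cast Fintype.card_pos.ne'
  rcases A.eq_empty_or_nonempty with rfl | hA
  · simp
  have hA' : (#A : ℝ) ≠ 0 := by exact_mod_cast hA.card_pos.ne'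
  unfold nsq nc cv
  rw [sum_div, sum_mul, mul_sum]
  refine sum_congr rfl fun t _ => ?_
  field_simp

theorem ext_first (h2 : ∀ x : W, x + x = 0) (Y A : Finset W) :
    ∑ x ∈ A, ∑ y ∈ A, nc Y Y (x + y) = nsq Y A * (#A : ℝ) ^ 2 := by
  have h := ext_drc h2 Y A fun _ _ => (Fintype.card W : ℝ) / (#Y : ℝ) ^ 2
  rw [ext_nsq_eq, mul_sum]
  calc ∑ x ∈ A, ∑ y ∈ A, nc Y Y (x + y)
      = ∑ x ∈ A, ∑ y ∈ A, (cv Y Y (x + y) : ℝ) * ((Fintype.card W : ℝ) / (#Y : ℝ) ^ 2) := by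
        refine sum_congr rfl fun x _ => sum_congr rfl fun y _ => ?_
        unfold nc
        ring
    _ = _ := by
        rw [h]
        refine sum_congr rfl fun t _ => ?_
        simp only [sum_const, nsmul_eq_mul]
        ring

theorem ext_second (h2 : ∀ x : W, x + x = 0) (Y A : Finset W) :
    ∑ x ∈ A, ∑ y ∈ A, nc Y Y (x + y) ^ 2 = (Fintype.card W : ℝ) / (#Y : ℝ) ^ 2 *
      ∑ t : W, nsq Y {b ∈ A | t + b ∈ Y} * (#{b ∈ A | t + b ∈ Y} : ℝ) ^ 2 := by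
  have h := ext_drc h2 Y A fun x y => (Fintype.card W : ℝ) / (#Y : ℝ) ^ 2 * nc Y Y (x + y)
  rw [mul_sum]
  calc ∑ x ∈ A, ∑ y ∈ A, nc Y Y (x + y) ^ 2
      = ∑ x ∈ A, ∑ y ∈ A, (cv Y Y (x + y) : ℝ) *
          ((Fintype.card W : ℝ) / (#Y : ℝ) ^ 2 * nc Y Y (x + y)) := by
        refine sum_congr rfl fun x _ => sum_congr rfl fun y _ => ?_
        unfold nc
        ring
    _ = _ := by
        rw [h]
        refine sum_congr rfl fun t _ => ?_
        rw [← ext_first h2, mul_sum]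
        exact sum_congr rfl fun x _ => by rw [mul_sum]

/-- Chebyshev's inequality on pairs. -/
theorem ext_cheb {ι : Type} (A : Finset ι) (f : ι → ι → ℝ) {lam ε η : ℝ} (hlam : 0 < lam)
    (hε : 0 < ε) (hη : η ≤ ε ^ 3) (h1 : ∑ x ∈ A, ∑ y ∈ A, f x y = lam * (#A : ℝ) ^ 2)
    (hsq : ∑ x ∈ A, ∑ y ∈ A, f x y ^ 2 ≤ (1 + η) * lam ^ 2 * (#A : ℝ) ^ 2) :
    (#{q ∈ A ×ˢ A | f q.1 q.2 < (1 - ε) * lam} : ℝ) ≤ ε * #A * #A := by
  rw [← sum_product'] at h1 hsq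
  have hv : ∑ q ∈ A ×ˢ A, (f q.1 q.2 - lam) ^ 2 ≤ η * lam ^ 2 * (#A : ℝ) ^ 2 := by
    have h : ∀ q : ι × ι, (f q.1 q.2 - lam) ^ 2 =
        f q.1 q.2 ^ 2 - 2 * lam * f q.1 q.2 + lam ^ 2 := fun q => by ring
    simp_rw [h]
    rw [sum_add_distrib, sum_sub_distrib, ← mul_sum, h1, sum_const, card_product, nsmul_eq_mul]
    push_cast
    nlinarith
  have hb : (#{q ∈ A ×ˢ A | f q.1 q.2 < (1 - ε) * lam} : ℝ) * (ε * lam) ^ 2 ≤
      ∑ q ∈ A ×ˢ A, (f q.1 q.2 - lam) ^ 2 := by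
    rw [← nsmul_eq_mul, ← sum_const]
    refine le_trans (sum_le_sum fun q hq => ?_)
      (sum_le_sum_of_subset_of_nonneg (filter_subset _ _) fun _ _ _ => sq_nonneg _)
    have h := (mem_filter.1 hq).2
    have h3 : ε * lam ≤ lam - f q.1 q.2 := by linarith
    calc (ε * lam) ^ 2 ≤ (lam - f q.1 q.2) ^ 2 := pow_le_pow_left₀ (by positivity) h3 2
      _ = _ := by ring
  refine le_of_mul_le_mul_right (hb.trans (hv.trans ?_)) (by positivity)
  calc η * lam ^ 2 * (#A : ℝ) ^ 2 ≤ ε ^ 3 * lam ^ 2 * (#A : ℝ) ^ 2 := by gcongr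
    _ = _ := by ring

end aux

theorem ext_sift {ε : ℝ} (hε : 0 < ε) : ∃ K : ℕ, ∀ (W : Type) [AddCommGroup W]
    [Fintype W] [DecidableEq W], (∀ x : W, x + x = 0) → ∀ (Y A₀ : Finset W) (a : ℕ),
    1 ≤ a → Fintype.card W ≤ 2 ^ a * #Y → A₀.Nonempty →
    ∃ A ⊆ A₀, A.Nonempty ∧ nsq Y A₀ ≤ nsq Y A ∧
      #A₀ * nsq Y A₀ ^ (K * a) ≤ #A * nsq Y A ^ (K * a) ∧
      (#{q ∈ A ×ˢ A | nc Y Y (q.1 + q.2) < (1 - ε) * nsq Y A} : ℝ) ≤ ε * #A * #A := by
  obtain ⟨e, he0, he1, heε⟩ : ∃ e : ℝ, 0 < e ∧ e ≤ 1 ∧ 2 * e ≤ ε ^ 3 :=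
    ⟨min 1 (ε ^ 3 / 2), lt_min one_pos (by positivity), min_le_left _ _,
      by linarith [min_le_right 1 (ε ^ 3 / 2)]⟩
  obtain ⟨K, hK1, hK⟩ : ∃ K : ℕ, 1 ≤ K ∧ 4 ≤ e * (1 + e) ^ K := by
    obtain ⟨K, hK⟩ := pow_unbounded_of_one_lt (4 / e) (show (1 : ℝ) < 1 + e by linarith)
    refine ⟨K + 1, by omega, ?_⟩
    rw [div_lt_iff₀ he0] at hK
    have : (1 + e) ^ K ≤ (1 + e) ^ (K + 1) := pow_le_pow_right₀ (by linarith) (by omega)
    nlinarith
  refine ⟨K, ?_⟩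
  intro W _ _ _ h2 Y A₀ a ha hY hA₀
  have hNpos : 0 < Fintype.card W := Fintype.card_pos
  have hN : (0 : ℝ) < Fintype.card W := by exact_mod_cast hNpos
  have hYne : Y.Nonempty := by
    rw [← card_pos]
    by_contra h0
    rw [Nat.eq_zero_of_not_pos h0] at hY
    omega
  have hY0 : (0 : ℝ) < #Y := by exact_mod_cast hYne.card_pos
  have hY' : (Fintype.card W : ℝ) ≤ 2 ^ a * #Y := by exact_mod_cast hY
  have hn : K * a ≠ 0 := Nat.mul_ne_zero (by omega) (by omega)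
  obtain ⟨A, hA, hmax⟩ := exists_max_image {A ∈ A₀.powerset | A.Nonempty}
    (fun A => (#A : ℝ) * nsq Y A ^ (K * a)) ⟨A₀, by simp [hA₀]⟩
  rw [mem_filter, mem_powerset] at hA
  have hmax' : ∀ B ⊆ A₀, B.Nonempty → (#B : ℝ) * nsq Y B ^ (K * a) ≤ #A * nsq Y A ^ (K * a) :=
    fun B hB hB' => hmax B (by rw [mem_filter, mem_powerset]; exact ⟨hB, hB'⟩)
  have hA0 : (0 : ℝ) < #A := by exact_mod_cast hA.2.card_pos
  have hlam : 1 ≤ nsq Y A := one_le_nsq hYne hA.2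
  have hmain := hmax' A₀ Subset.rfl hA₀
  refine ⟨A, hA.1, hA.2, ?_, hmain, ?_⟩
  · refine le_of_pow_le_pow_left₀ hn (by linarith) ?_
    have h1 : (#A : ℝ) ≤ #A₀ := by exact_mod_cast card_le_card hA.1
    refine le_of_mul_le_mul_left (le_trans ?_ hmain) hA0
    exact mul_le_mul_of_nonneg_right h1 (pow_nonneg (ext_nsq_nonneg _ _) _)
  set lam := nsq Y A with hlam_def
  obtain ⟨r, hr⟩ : ∃ r : ℝ, r = 2 ^ a := ⟨_, rfl⟩
  have hr1 : 1 ≤ r := hr ▸ one_le_pow₀ one_le_two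
  have hr0 : 0 < r := by linarith
  rw [← hr] at hY'
  have hrK : r ^ 2 ≤ e * (1 + e) ^ (K * a) := by
    calc r ^ 2 = 4 ^ a := by rw [hr, ← pow_mul, mul_comm, pow_mul]; norm_num
      _ ≤ (e * (1 + e) ^ K) ^ a := pow_le_pow_left₀ (by norm_num) hK a
      _ = e ^ a * (1 + e) ^ (K * a) := by rw [mul_pow, ← pow_mul]
      _ ≤ _ := mul_le_mul_of_nonneg_right (pow_le_of_le_one he0.le he1 (by omega))
          (by positivity)
  have hB : ∀ B ⊆ A, nsq Y B * (#B : ℝ) ^ 2 ≤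
      (1 + e) * lam * (#B : ℝ) ^ 2 + e * (#A : ℝ) ^ 2 / r ^ 2 := by
    intro B hBA
    have hq := ext_nsq_nonneg Y B
    by_cases hc : e * #A ≤ r ^ 2 * #B
    · have hBne : B.Nonempty := by
        rw [← card_pos]
        by_contra h0
        rw [Nat.eq_zero_of_not_pos h0] at hc
        have : 0 < e * (#A : ℝ) := by positivity
        simp at hc
        linarith
      have h1 := hmax' B (hBA.trans hA.1) hBne
      have h3 : nsq Y B ≤ (1 + e) * lam := by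
        refine le_of_pow_le_pow_left₀ hn (by positivity) ?_
        refine le_of_mul_le_mul_left ?_ (mul_pos he0 hA0)
        calc e * #A * nsq Y B ^ (K * a) ≤ r ^ 2 * #B * nsq Y B ^ (K * a) :=
              mul_le_mul_of_nonneg_right hc (pow_nonneg hq _)
          _ = r ^ 2 * (#B * nsq Y B ^ (K * a)) := by ring
          _ ≤ r ^ 2 * (#A * lam ^ (K * a)) := mul_le_mul_of_nonneg_left h1 (by positivity)
          _ ≤ e * (1 + e) ^ (K * a) * (#A * lam ^ (K * a)) :=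
              mul_le_mul_of_nonneg_right hrK (by positivity)
          _ = _ := by rw [mul_pow]; ring
      have h4 : 0 ≤ e * (#A : ℝ) ^ 2 / r ^ 2 := by positivity
      have h5 : nsq Y B * (#B : ℝ) ^ 2 ≤ (1 + e) * lam * (#B : ℝ) ^ 2 :=
        mul_le_mul_of_nonneg_right h3 (by positivity)
      linarith
    · rw [not_le] at hc
      have h1 : nsq Y B ≤ r := le_of_mul_le_mul_right ((nsq_le hYne).trans hY') hY0
      have h3 : (r ^ 2 * #B) ^ 2 ≤ (e * #A) ^ 2 := pow_le_pow_left₀ (by positivity) hc.le 2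
      have h4 : nsq Y B * (#B : ℝ) ^ 2 ≤ e * (#A : ℝ) ^ 2 / r ^ 2 := by
        rw [le_div_iff₀ (by positivity)]
        calc nsq Y B * (#B : ℝ) ^ 2 * r ^ 2 ≤ r ^ 2 * (#B : ℝ) ^ 2 * r ^ 2 := by
              gcongr
              nlinarith
          _ = (r ^ 2 * #B) ^ 2 := by ring
          _ ≤ (e * #A) ^ 2 := h3
          _ = e * (e * (#A : ℝ) ^ 2) := by ring
          _ ≤ 1 * (e * (#A : ℝ) ^ 2) := by gcongr
          _ = _ := one_mul _
      have h5 : 0 ≤ (1 + e) * lam * (#B : ℝ) ^ 2 := by positivity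
      linarith
  refine ext_cheb A (fun x y => nc Y Y (x + y)) (by linarith) hε heε (ext_first h2 Y A) ?_
  rw [ext_second h2]
  have hS := ext_nsq_eq Y A
  rw [← hlam_def] at hS
  have hNY : ((Fintype.card W : ℝ) / #Y) ^ 2 ≤ r ^ 2 :=
    pow_le_pow_left₀ (by positivity) ((div_le_iff₀ hY0).2 hY') 2
  calc (Fintype.card W : ℝ) / (#Y : ℝ) ^ 2 *
        ∑ t : W, nsq Y {b ∈ A | t + b ∈ Y} * (#{b ∈ A | t + b ∈ Y} : ℝ) ^ 2
      ≤ (Fintype.card W : ℝ) / (#Y : ℝ) ^ 2 * ∑ t : W,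
          ((1 + e) * lam * (#{b ∈ A | t + b ∈ Y} : ℝ) ^ 2 + e * (#A : ℝ) ^ 2 / r ^ 2) :=
        mul_le_mul_of_nonneg_left (sum_le_sum fun t _ => hB _ (filter_subset _ _))
          (by positivity)
    _ = (1 + e) * lam * (lam * (#A : ℝ) ^ 2) +
          ((Fintype.card W : ℝ) / #Y) ^ 2 * (e * (#A : ℝ) ^ 2 / r ^ 2) := by
        rw [sum_add_distrib, ← mul_sum, sum_const, card_univ, nsmul_eq_mul, hS]
        ring
    _ ≤ (1 + e) * lam * (lam * (#A : ℝ) ^ 2) + r ^ 2 * (e * (#A : ℝ) ^ 2 / r ^ 2) := by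
        gcongr
    _ = (1 + e) * lam ^ 2 * (#A : ℝ) ^ 2 + e * 1 * (#A : ℝ) ^ 2 := by
        field_simp
    _ ≤ (1 + e) * lam ^ 2 * (#A : ℝ) ^ 2 + e * lam ^ 2 * (#A : ℝ) ^ 2 := by
        gcongr
        exact one_le_pow₀ hlam
    _ = _ := by ring

end Pool.Agent.P.MP_db4732_co.Q
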