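import Pool.Agent.P.MP_db4732_co.Q.Level

/-! Spectral positivity and unbalancing. -/

set_option autoImplicit false

namespace Pool.Agent.P.MP_db4732_co.Q

open Finset

/-- Sum of the tensor powers of a family of vectors. -/
noncomputable def gramU {ι δ : Type} (s : Finset ι) (u : ι → δ → ℝ) (j : ℕ) (p : Fin j → δ) : ℝ :=
  ∑ x ∈ s, ∏ i, u x (p i)

theorem gram_pow {ι κ δ : Type} (s : Finset ι) (t : Finset κ) (D : Finset δ) (u : ι → δ → ℝ)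
    (v : κ → δ → ℝ) (j : ℕ) :
    ∑ q ∈ s ×ˢ t, ip D (u q.1) (v q.2) ^ j =
      (∑ p ∈ Fintype.piFinset (fun _ : Fin j => D), gramU s u j p * gramU t v j p) /
        (#D : ℝ) ^ j := by
  simp only [ip, div_pow, gramU]
  rw [← sum_div]
  congr 1
  simp only [Finset.sum_pow', prod_mul_distrib, sum_mul_sum]
  rw [sum_comm]
  exact sum_congr rfl fun p _ => sum_product _ _ _

theorem gram_nonneg {ι δ : Type} (s : Finset ι) (D : Finset δ) (u : ι → δ → ℝ) (j : ℕ) :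
    0 ≤ ∑ q ∈ s ×ˢ s, ip D (u q.1) (u q.2) ^ j := by
  rw [gram_pow]
  exact div_nonneg (sum_nonneg fun p _ => mul_self_nonneg _) (by positivity)

theorem gram_cs {ι κ δ : Type} (s : Finset ι) (t : Finset κ) (D : Finset δ) (u : ι → δ → ℝ)
    (v : κ → δ → ℝ) (j : ℕ) :
    (∑ q ∈ s ×ˢ t, ip D (u q.1) (v q.2) ^ j) ^ 2 ≤
      (∑ q ∈ s ×ˢ s, ip D (u q.1) (u q.2) ^ j) * ∑ q ∈ t ×ˢ t, ip D (v q.1) (v q.2) ^ j := by
  rw [gram_pow, gram_pow, gram_pow, div_pow, div_mul_div_comm, ← sq]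
  refine div_le_div_of_nonneg_right ?_ (by positivity)
  simp only [← sq]
  exact sum_mul_sq_le_sq_mul_sq _ _ _

theorem gram_choose {m : ℕ} (hm : 1 ≤ m) (r : ℕ) : m ^ r ≤ (m * r).choose r := by
  induction r with
  | zero => simp
  | succ r ih =>
    obtain ⟨n, hn⟩ : ∃ n, m * (r + 1) = n + 1 := ⟨m * (r + 1) - 1, by
      have : 1 ≤ m * (r + 1) := Nat.mul_pos hm (Nat.succ_pos r)
      omega⟩
    have h1 : m * r ≤ n := by
      have : m * (r + 1) = m * r + m := by ring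
      omega
    have h2 := Nat.add_one_mul_choose_eq n r
    have h3 : m ^ r ≤ n.choose r := ih.trans (Nat.choose_le_choose r h1)
    rw [hn]
    refine Nat.le_of_mul_le_mul_right ?_ (Nat.succ_pos r)
    calc m ^ (r + 1) * (r + 1) = m * (r + 1) * m ^ r := by ring
      _ ≤ (n + 1) * n.choose r := by rw [hn]; exact Nat.mul_le_mul_left _ h3
      _ = _ := h2

theorem gram_num {e k : ℕ} (he : 1 ≤ e) (hk : 1 ≤ k) :
    (1 + 1 / (16 * e) : ℝ) ^ (8 * e * k) + 2 < 4 ^ k := by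
  have he0 : (0 : ℝ) < e := by exact_mod_cast he
  have h1 : (1 + 1 / (16 * e) : ℝ) ^ (8 * e) ≤ Real.exp (1 / 2) := by
    have h2 : (1 + 1 / (16 * e) : ℝ) ≤ Real.exp (1 / (16 * e)) := by
      have := Real.add_one_le_exp (1 / (16 * e) : ℝ)
      linarith
    calc _ ≤ Real.exp (1 / (16 * e)) ^ (8 * e) := by gcongr
      _ = _ := by
        rw [← Real.exp_nat_mul]
        congr 1
        push_cast
        field_simp
        norm_num
  have h3 : Real.exp (1 / 2) ≤ 7 / 4 := by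
    have h4 : Real.exp (1 / 2) ^ 2 = Real.exp 1 := by
      rw [← Real.exp_nat_mul]; norm_num
    have h5 := Real.exp_one_lt_d9
    have h6 := Real.exp_pos (1 / 2)
    nlinarith
  obtain ⟨n, rfl⟩ : ∃ n, k = n + 1 := ⟨k - 1, by omega⟩
  have h7 : (1 + 1 / (16 * e) : ℝ) ^ (8 * e * (n + 1)) ≤ (7 / 4) ^ (n + 1) := by
    rw [pow_mul]
    gcongr
    exact h1.trans h3
  have h8 : (7 / 4 : ℝ) ^ n ≤ 4 ^ n := by gcongr; norm_num
  have h9 : (1 : ℝ) ≤ 4 ^ n := one_le_pow₀ (by norm_num)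
  rw [pow_succ] at h7
  rw [pow_succ (4 : ℝ)]
  linarith

theorem gram_one {ι δ : Type} (s : Finset ι) (D : Finset δ) (u : ι → δ → ℝ) {e k : ℕ}
    (he : 1 ≤ e) (hk : 1 ≤ k) (hs : s.Nonempty)
    (hu : ∀ x ∈ s, ∀ x' ∈ s, 0 ≤ 1 + ip D (u x) (u x'))
    (h : (#s : ℝ) ^ 2 ≤ (2 * e) ^ (2 * k) * ∑ q ∈ s ×ˢ s, ip D (u q.1) (u q.2) ^ (2 * k)) :
    ∃ lam : ℝ, 1 + 1 / (16 * e) ≤ lam ∧
      (#s : ℝ) ^ 2 ≤ lam ^ (16 * e * k) * #{q ∈ s ×ˢ s | lam ≤ 1 + ip D (u q.1) (u q.2)} := by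
  have he0 : (0 : ℝ) < e := by exact_mod_cast he
  have hs0 : (0 : ℝ) < #s := by exact_mod_cast hs.card_pos
  have hc : (#(s ×ˢ s) : ℝ) = (#s : ℝ) ^ 2 := by rw [card_product]; push_cast; ring
  have h1 : ∑ q ∈ s ×ˢ s, (1 + ip D (u q.1) (u q.2)) ^ (8 * e * k) =
      ∑ j ∈ range (8 * e * k + 1),
        (∑ q ∈ s ×ˢ s, ip D (u q.1) (u q.2) ^ j) * ((8 * e * k).choose j : ℝ) := by
    simp only [sum_mul]
    rw [sum_comm]
    refine sum_congr rfl fun q _ => ?_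
    rw [add_comm, add_pow]
    simp
  have h2 : (∑ q ∈ s ×ˢ s, ip D (u q.1) (u q.2) ^ (2 * k)) * ((8 * e * k).choose (2 * k) : ℝ) ≤
      ∑ j ∈ range (8 * e * k + 1),
        (∑ q ∈ s ×ˢ s, ip D (u q.1) (u q.2) ^ j) * ((8 * e * k).choose j : ℝ) :=
    single_le_sum (f := fun j =>
        (∑ q ∈ s ×ˢ s, ip D (u q.1) (u q.2) ^ j) * ((8 * e * k).choose j : ℝ))
      (fun j _ => mul_nonneg (gram_nonneg s D u j) (Nat.cast_nonneg _))
      (mem_range.2 (by nlinarith))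
  have h3 : (4 : ℝ) ^ k * (2 * e) ^ (2 * k) ≤ ((8 * e * k).choose (2 * k) : ℝ) := by
    have h4 := gram_choose (m := 4 * e) (by omega) (2 * k)
    rw [show 4 * e * (2 * k) = 8 * e * k by ring] at h4
    have h5 : (4 : ℝ) ^ k * (2 * e) ^ (2 * k) = ((4 * e) ^ (2 * k) : ℕ) := by
      push_cast
      rw [show (4 : ℝ) ^ k = 2 ^ (2 * k) by rw [pow_mul]; norm_num, ← mul_pow]
      congr 1
      ring
    rw [h5]
    exact_mod_cast h4
  have h6 := gram_nonneg s D u (2 * k)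
  have h7 := gram_num he hk
  obtain ⟨lam, hl, hl2⟩ := level (s ×ˢ s) (fun q => 1 + ip D (u q.1) (u q.2))
    (fun q hq => hu _ (mem_product.1 hq).1 _ (mem_product.1 hq).2)
    (l₀ := 1 + 1 / (16 * e)) (by positivity) (8 * e * k) (by
      rw [h1, hc]
      refine lt_of_lt_of_le ?_ h2
      calc _ < (4 : ℝ) ^ k * (#s : ℝ) ^ 2 := by gcongr
        _ ≤ 4 ^ k * ((2 * e) ^ (2 * k) * ∑ q ∈ s ×ˢ s, ip D (u q.1) (u q.2) ^ (2 * k)) := by
          gcongr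
        _ = (∑ q ∈ s ×ˢ s, ip D (u q.1) (u q.2) ^ (2 * k)) * (4 ^ k * (2 * e) ^ (2 * k)) := by
          ring
        _ ≤ _ := by gcongr)
  refine ⟨lam, hl, ?_⟩
  rw [hc, show 2 * (8 * e * k) = 16 * e * k by ring] at hl2
  exact hl2

/-- If the inner products of two families of vectors are negative on a dense set, then the Gram
kernel of one family is large on a dense set. -/
theorem cnt {ι κ δ : Type} (s : Finset ι) (t : Finset κ) (D : Finset δ) (u : ι → δ → ℝ)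
    (v : κ → δ → ℝ) (E : Finset (ι × κ)) (hE : E ⊆ s ×ˢ t) {e k : ℕ} (he : 1 ≤ e) (hk : 1 ≤ k)
    (hs : s.Nonempty) (ht : t.Nonempty) (hd : #s * #t ≤ 2 ^ k * #E)
    (hneg : ∀ q ∈ E, ip D (u q.1) (v q.2) ≤ -(1 / e))
    (hu : ∀ x ∈ s, ∀ x' ∈ s, 0 ≤ 1 + ip D (u x) (u x'))
    (hv : ∀ y ∈ t, ∀ y' ∈ t, 0 ≤ 1 + ip D (v y) (v y')) :
    ∃ lam : ℝ, 1 + 1 / (16 * e) ≤ lam ∧
      ((#s : ℝ) ^ 2 ≤ lam ^ (16 * e * k) * #{q ∈ s ×ˢ s | lam ≤ 1 + ip D (u q.1) (u q.2)} ∨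
        (#t : ℝ) ^ 2 ≤ lam ^ (16 * e * k) * #{q ∈ t ×ˢ t | lam ≤ 1 + ip D (v q.1) (v q.2)}) := by
  have he0 : (0 : ℝ) < e := by exact_mod_cast he
  have hs0 : (0 : ℝ) < #s := by exact_mod_cast hs.card_pos
  have ht0 : (0 : ℝ) < #t := by exact_mod_cast ht.card_pos
  have h1 : ∀ q ∈ E, (1 : ℝ) ≤ (e : ℝ) ^ (2 * k) * ip D (u q.1) (v q.2) ^ (2 * k) := by
    intro q hq
    have h2 := hneg q hq
    rw [← mul_pow, pow_mul]
    refine one_le_pow₀ ?_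
    have h3 : (e : ℝ) * ip D (u q.1) (v q.2) ≤ -1 := by
      calc _ ≤ (e : ℝ) * -(1 / e) := by gcongr
        _ = -1 := by field_simp
    nlinarith
  have h2 : (#E : ℝ) ≤ (e : ℝ) ^ (2 * k) * ∑ q ∈ s ×ˢ t, ip D (u q.1) (v q.2) ^ (2 * k) := by
    have h3 := sum_le_sum h1
    rw [sum_const, nsmul_eq_mul, mul_one, ← mul_sum] at h3
    refine h3.trans (mul_le_mul_of_nonneg_left (sum_le_sum_of_subset_of_nonneg hE
      fun q _ _ => ?_) (by positivity))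
    rw [pow_mul]
    positivity
  have h4 : (#s : ℝ) * #t ≤
      (2 * e) ^ (2 * k) * ∑ q ∈ s ×ˢ t, ip D (u q.1) (v q.2) ^ (2 * k) := by
    have h5 : (#s : ℝ) * #t ≤ 2 ^ k * #E := by exact_mod_cast hd
    have h6 : (2 : ℝ) ^ k ≤ 2 ^ (2 * k) := pow_le_pow_right₀ (by norm_num) (by omega)
    have h7 : (0 : ℝ) ≤ #E := Nat.cast_nonneg _
    calc _ ≤ (2 : ℝ) ^ k * #E := h5
      _ ≤ 2 ^ (2 * k) * #E := by gcongr
      _ ≤ 2 ^ (2 * k) *
          ((e : ℝ) ^ (2 * k) * ∑ q ∈ s ×ˢ t, ip D (u q.1) (v q.2) ^ (2 * k)) := by gcongr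
      _ = _ := by rw [mul_pow]; ring
  have h8 := gram_cs s t D u v (2 * k)
  have h9 := gram_nonneg s D u (2 * k)
  have h10 := gram_nonneg t D v (2 * k)
  set a := ∑ q ∈ s ×ˢ s, ip D (u q.1) (u q.2) ^ (2 * k)
  set b := ∑ q ∈ t ×ˢ t, ip D (v q.1) (v q.2) ^ (2 * k)
  set c := ∑ q ∈ s ×ˢ t, ip D (u q.1) (v q.2) ^ (2 * k)
  set M : ℝ := (2 * e) ^ (2 * k) with hM
  have hM0 : 0 < M := by positivity
  by_cases hA : (#s : ℝ) ^ 2 ≤ M * a
  · obtain ⟨lam, hl, hl2⟩ := gram_one s D u he hk hs hu hA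
    exact ⟨lam, hl, Or.inl hl2⟩
  by_cases hB : (#t : ℝ) ^ 2 ≤ M * b
  · obtain ⟨lam, hl, hl2⟩ := gram_one t D v he hk ht hv hB
    exact ⟨lam, hl, Or.inr hl2⟩
  exfalso
  push Not at hA hB
  have h11 : (M * a) * (M * b) < (#s : ℝ) ^ 2 * (#t : ℝ) ^ 2 :=
    mul_lt_mul'' hA hB (by positivity) (by positivity)
  have h12 : ((#s : ℝ) * #t) ^ 2 ≤ (M * c) ^ 2 := by gcongr
  have h13 : M ^ 2 * c ^ 2 ≤ M ^ 2 * (a * b) := by gcongr
  nlinarith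

end Pool.Agent.P.MP_db4732_co.Q
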