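import Pool.Agent.P.MP_db4732_co.Q.RSift

/-! An increment from a dense set of correlated pairs of rows. -/

set_option autoImplicit false

namespace Pool.Agent.P.MP_db4732_co.Q

open Finset

/-- A dense fibre. -/
theorem inca_fib {ι : Type} [DecidableEq ι] {s : Finset ι} {Γ : Finset (ι × ι)} {P : ℝ}
    (hs : s.Nonempty) (hΓ : Γ ⊆ s ×ˢ s) (hP : 0 ≤ P) (h : (#s : ℝ) ^ 2 ≤ P * #Γ) :
    ∃ x' ∈ s, (#s : ℝ) ≤ P * #{x ∈ s | (x, x') ∈ Γ} := by
  refine exists_le_of_sum_le hs ?_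
  rw [sum_const, nsmul_eq_mul, ← sq, ← mul_sum]
  refine h.trans (mul_le_mul_of_nonneg_left ?_ hP)
  rw [card_eq_sum_card_fiberwise (s := Γ) (t := s) (f := Prod.snd)
    fun q hq => mem_coe.2 (mem_product.1 (hΓ (mem_coe.1 hq))).2]
  push_cast
  refine sum_le_sum fun x' _ => Nat.cast_le.2 (card_le_card_of_injOn Prod.fst ?_ ?_)
  · intro q hq
    obtain ⟨h1, rfl⟩ := mem_filter.1 (mem_coe.1 hq)
    exact mem_coe.2 (mem_filter.2 ⟨(mem_product.1 (hΓ h1)).1, h1⟩)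
  · intro q hq q' hq' e
    exact Prod.ext e ((mem_filter.1 (mem_coe.1 hq)).2.trans (mem_filter.1 (mem_coe.1 hq')).2.symm)

theorem inca_two {i j : ℕ} (h : i ≤ j) : (2 : ℝ) ^ i ≤ 2 ^ j := pow_le_pow_right₀ one_le_two h

theorem inca_big {Λ w : ℝ} (h1 : 1 ≤ Λ) (h2 : 4 * Λ ≤ w) :
    4 * Λ * ((Λ + 1) * (w + 2) + 1) < w ^ 4 := by
  have hw : 0 ≤ w := by linarith
  have a : (Λ + 1) * (w + 2) ≤ w / 2 * (2 * w) :=
    mul_le_mul (by linarith) (by linarith) (by linarith) (by linarith)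
  have b : 4 * Λ * ((Λ + 1) * (w + 2) + 1) ≤ w * (w / 2 * (2 * w) + 1) :=
    mul_le_mul h2 (by linarith) (by positivity) (by linarith)
  have c : 16 ≤ w ^ 2 := by nlinarith
  have e : w * (w ^ 2 + 1) < w * (w * w ^ 2) :=
    mul_lt_mul_of_pos_left (by nlinarith) (by linarith)
  nlinarith

theorem inca_m {lam : ℝ} {L : ℕ} (hL : 1 ≤ L) (h1 : 33 / 32 ≤ lam) (h2 : lam ≤ 2 ^ (2 * L + 4)) :
    ∃ m : ℕ, 1 ≤ m ∧ m ≤ 276 * L ∧ 2 ^ (4 * L + 8) ≤ lam ^ m ∧ lam ^ (m + 1) ≤ 2 ^ (24 * L) := by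
  have h0 : (2 : ℝ) ^ (4 * L + 8) ≤ lam ^ (276 * L) := by
    have a : (2 : ℝ) ≤ lam ^ 23 := le_trans (by norm_num) (pow_le_pow_left₀ (by norm_num) h1 23)
    calc (2 : ℝ) ^ (4 * L + 8) ≤ 2 ^ (12 * L) := inca_two (by omega)
      _ ≤ (lam ^ 23) ^ (12 * L) := pow_le_pow_left₀ (by norm_num) a _
      _ = _ := by rw [← pow_mul]; congr 1; ring
  have hex : ∃ m, (2 : ℝ) ^ (4 * L + 8) ≤ lam ^ m := ⟨_, h0⟩
  have h3 := Nat.find_spec hex
  have h4 : Nat.find hex ≤ 276 * L := Nat.find_min' hex h0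
  rcases e : Nat.find hex with _ | m
  · rw [e, pow_zero] at h3
    exact absurd h3 (not_le.2 (one_lt_pow₀ one_lt_two (by omega)))
  · have h5 := Nat.find_min hex (m := m) (by omega)
    rw [e] at h3 h4
    refine ⟨m + 1, by omega, h4, h3, ?_⟩
    calc lam ^ (m + 1 + 1) = lam ^ m * lam * lam := by ring
      _ ≤ 2 ^ (4 * L + 8) * 2 ^ (2 * L + 4) * 2 ^ (2 * L + 4) := by
          have := (not_le.1 h5).le
          gcongr
      _ = 2 ^ (4 * L + 8 + (2 * L + 4) + (2 * L + 4)) := by rw [← pow_add, ← pow_add]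
      _ ≤ _ := inca_two (by omega)

theorem inca_root (k : ℕ) {x : ℝ} (hx : 0 ≤ x) : ∃ y : ℝ, 0 ≤ y ∧ y ^ (k + 1) = x :=
  ⟨x ^ (((k + 1 : ℕ) : ℝ)⁻¹), Real.rpow_nonneg hx _, Real.rpow_inv_natCast_pow hx (by omega)⟩

variable {W : Type} [AddCommGroup W] [Fintype W] [DecidableEq W]

/-- The majorant is spread on all rectangles, up to two error terms. -/
theorem inca_sp {Y : Finset W} {b q : ℕ} {Λ : ℝ} (hΛ : 0 < Λ) (hU : Up Y b Λ q) (B C : Finset W) :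
    (tri Y B C : ℝ) ≤ #Y / Fintype.card W * (Λ * #B * #C) + Fintype.card W / 2 ^ b * #C +
      Fintype.card W / Λ ^ q * #B := by
  have hN : (0 : ℝ) < Fintype.card W := Nat.cast_pos.2 Fintype.card_pos
  have ht : (tri Y B C : ℝ) ≤ #B * #C := by exact_mod_cast tri_le Y B C
  have p1 : (0 : ℝ) ≤ #Y / Fintype.card W * (Λ * #B * #C) := by positivity
  have p2 : (0 : ℝ) ≤ Fintype.card W / 2 ^ b * #C := by positivity
  have p3 : (0 : ℝ) ≤ Fintype.card W / Λ ^ q * #B := by positivity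
  by_cases h1 : Fintype.card W ≤ 2 ^ b * #B
  · by_cases h2 : (Fintype.card W : ℝ) ≤ Λ ^ q * #C
    · have a := hU Λ le_rfl B C h1 h2
      have : (tri Y B C : ℝ) ≤ #Y / Fintype.card W * (Λ * #B * #C) := by
        rw [div_mul_eq_mul_div, le_div_iff₀ hN]
        linarith
      linarith
    · have a : (#C : ℝ) ≤ Fintype.card W / Λ ^ q := by
        rw [le_div_iff₀ (by positivity)]
        linarith [not_le.1 h2]
      have := mul_le_mul_of_nonneg_left a (Nat.cast_nonneg (α := ℝ) #B)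
      linarith
  · have a : (#B : ℝ) ≤ Fintype.card W / 2 ^ b := by
      rw [le_div_iff₀ (by positivity), mul_comm]
      exact_mod_cast (not_le.1 h1).le
    have := mul_le_mul_of_nonneg_right a (Nat.cast_nonneg (α := ℝ) #C)
    linarith

omit [Fintype W] in
theorem inca_nb {A : Finset (W × W)} {X Y D : Finset W} (h : In A X Y D) {x d : W}
    (hd : d ∈ nb A D x) : x + d ∈ Y := (h _ (mem_filter.1 hd).2).2.1

/-- A huge correlation contradicts the upper bound. -/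
theorem inca_huge {A : Finset (W × W)} {X Y D X₀ : Finset W} {Γ : Finset (W × W)} {L c a : ℕ}
    {lam μ : ℝ} (hI : In A X Y D) (hL : 1 ≤ L) (hLa : L ≤ a) (hca : c ≤ a) (hX : X₀.Nonempty)
    (hμ : 0 < μ) (hrow : ∀ x ∈ X₀, μ * #D ≤ #(nb A D x)) (hΓ : Γ ⊆ X₀ ×ˢ X₀)
    (hd : (#X₀ : ℝ) ^ 2 ≤ lam ^ (32 * (c + 1)) * #Γ)
    (hco : ∀ q ∈ Γ, lam * #(nb A D q.1) * #(nb A D q.2) ≤ #(nb A D q.1 ∩ nb A D q.2) * (#D : ℝ))
    (h0 : (Fintype.card W : ℝ) ≤ 2 ^ (a + 1) * #X₀) (hD : (Fintype.card W : ℝ) ≤ 2 ^ (c + 1) * #D)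
    (h1 : (#Y : ℝ) ≤ 2 ^ (L + 2) * μ * Fintype.card W) (h2 : 1 ≤ 2 ^ (4 * a) * μ)
    (hU : Up Y (10000 * a) (2 ^ L) (10000 * a)) (hl : 2 ^ (2 * L + 4) ≤ lam) : False := by
  have hN : (0 : ℝ) < Fintype.card W := Nat.cast_pos.2 Fintype.card_pos
  have hl0 : 0 ≤ lam := le_trans (by positivity) hl
  obtain ⟨r, hr0, hr⟩ := inca_root 1 hl0
  have hr1 : 2 ^ (L + 2) ≤ r := by
    refine le_of_pow_le_pow_left₀ (n := 1 + 1) (by norm_num) hr0 ?_
    rw [hr, ← pow_mul]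
    exact le_trans (inca_two (by omega)) hl
  have hr2 : 2 ≤ r := le_trans (le_self_pow₀ one_le_two (by omega)) hr1
  obtain ⟨x', hx', hC⟩ := inca_fib hX hΓ (by positivity) hd
  obtain ⟨C, hCe⟩ : ∃ C, C = {x ∈ X₀ | (x, x') ∈ Γ} := ⟨_, rfl⟩
  rw [← hCe] at hC
  have hD0 : (0 : ℝ) < #D := by
    by_contra h
    have : (#D : ℝ) = 0 := le_antisymm (not_lt.1 h) (Nat.cast_nonneg _)
    rw [this] at hD
    linarith
  have hB := hrow x' hx'
  have a1 : Fintype.card W ≤ 2 ^ (10000 * a) * #(nb A D x') := by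
    have : (Fintype.card W : ℝ) ≤ 2 ^ (10000 * a) * #(nb A D x') := by
      calc (Fintype.card W : ℝ) ≤ 2 ^ (c + 1) * (1 * #D) := by rwa [one_mul]
        _ ≤ 2 ^ (c + 1) * (2 ^ (4 * a) * μ * #D) := by gcongr
        _ = 2 ^ (c + 1 + 4 * a) * (μ * #D) := by rw [pow_add 2 (c + 1)]; ring
        _ ≤ _ := mul_le_mul (inca_two (by omega)) hB (by positivity) (by positivity)
    exact_mod_cast this
  have a2 : (Fintype.card W : ℝ) ≤ r ^ (10000 * a) * #C := by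
    calc (Fintype.card W : ℝ) ≤ r ^ (a + 1) * (lam ^ (32 * (c + 1)) * #C) :=
          h0.trans (mul_le_mul (pow_le_pow_left₀ zero_le_two hr2 _) hC (by positivity)
            (by positivity))
      _ = r ^ (a + 1 + (1 + 1) * (32 * (c + 1))) * #C := by rw [pow_add r (a + 1), pow_mul r, hr]; ring
      _ ≤ _ := mul_le_mul_of_nonneg_right (pow_le_pow_right₀ (by linarith) (by omega))
          (Nat.cast_nonneg _)
  have a3 := hU r (le_trans (inca_two (by omega)) hr1) _ C a1 a2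
  have a4 : lam * μ * #(nb A D x') * #C ≤ tri Y (nb A D x') C := by
    unfold tri
    push_cast
    rw [mul_comm, ← nsmul_eq_mul]
    refine card_nsmul_le_sum _ _ _ fun x hx => ?_
    rw [hCe] at hx
    obtain ⟨hx1, hx2⟩ := mem_filter.1 hx
    have b1 := hco _ hx2
    have b2 : (#(nb A D x ∩ nb A D x') : ℝ) ≤ cv Y (nb A D x') x :=
      Nat.cast_le.2 (card_le_card fun d hd =>
        mem_filter.2 ⟨(mem_inter.1 hd).2, inca_nb hI (mem_inter.1 hd).1⟩)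
    refine le_trans (le_of_mul_le_mul_right (le_trans ?_ b1) hD0) b2
    calc lam * μ * #(nb A D x') * #D = lam * (μ * #D) * #(nb A D x') := by ring
      _ ≤ _ := by have := hrow x hx1; gcongr
  have a5 : r * #Y ≤ lam * μ * Fintype.card W := by
    calc r * #Y ≤ r * (r * μ * Fintype.card W) := by
          refine mul_le_mul_of_nonneg_left (h1.trans ?_) hr0
          gcongr
      _ = _ := by rw [← hr]; ring
  have a6 := mul_le_mul_of_nonneg_right a4 hN.le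
  have a7 := mul_le_mul_of_nonneg_right a5
    (mul_nonneg (Nat.cast_nonneg (α := ℝ) #(nb A D x')) (Nat.cast_nonneg (α := ℝ) #C))
  nlinarith

theorem inc_gamma : ∃ K : ℕ, ∀ (W : Type) [AddCommGroup W] [Fintype W] [DecidableEq W],
    (∀ x : W, x + x = 0) → ∀ (A : Finset (W × W)) (X Y D X₀ : Finset W) (Γ : Finset (W × W))
    (L c a : ℕ) (lam : ℝ), In A X Y D → 1 ≤ L → L ≤ c → c * L ≤ a → X₀ ⊆ X → #X ≤ 2 * #X₀ →
    (∀ x ∈ X₀, (299 / 300 : ℝ) * #A ≤ #(nb A D x) * #X) → 33 / 32 ≤ lam → Γ ⊆ X₀ ×ˢ X₀ →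
    (#X₀ : ℝ) ^ 2 ≤ lam ^ (32 * (c + 1)) * #Γ →
    (∀ q ∈ Γ, lam * #(nb A D q.1) * #(nb A D q.2) ≤ #(nb A D q.1 ∩ nb A D q.2) * (#D : ℝ)) →
    #X * #Y * #D ≤ 2 ^ (L + 1) * #A * Fintype.card W → Fintype.card W ≤ 2 ^ a * #X →
    Fintype.card W ≤ 2 ^ a * #Y → Fintype.card W ≤ 2 ^ (c + 1) * #D →
    Up Y (K * a) (2 ^ L) (K * a) → Inc A X D (1 + 1 / 5000) (K * c) (K * L) (K * a) := by
  refine ⟨10000, fun W _ _ _ _ A X Y D X₀ Γ L c a lam hI hL hLc hcL hX₀ hXX hrow hlam hΓ hd hco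
    hA hNX hNY hND hU => ?_⟩
  have hN' : 0 < Fintype.card W := Fintype.card_pos
  have hca : c ≤ a := le_trans (Nat.le_mul_of_pos_right c hL) hcL
  have hX0 : 0 < #X := Nat.pos_of_mul_pos_left (hN'.trans_le hNX)
  have hY0 : 0 < #Y := Nat.pos_of_mul_pos_left (hN'.trans_le hNY)
  have hD0 : 0 < #D := Nat.pos_of_mul_pos_left (hN'.trans_le hND)
  have hX1 : 0 < #X₀ := by omega
  have hA0 : 0 < #A := Nat.pos_of_mul_pos_left (Nat.pos_of_mul_pos_right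
    ((Nat.mul_pos (Nat.mul_pos hX0 hY0) hD0).trans_le hA))
  have hN : (0 : ℝ) < Fintype.card W := Nat.cast_pos.2 hN'
  have hx : (0 : ℝ) < #X := Nat.cast_pos.2 hX0
  have hy : (0 : ℝ) < #Y := Nat.cast_pos.2 hY0
  have hdd : (0 : ℝ) < #D := Nat.cast_pos.2 hD0
  have haa : (0 : ℝ) < #A := Nat.cast_pos.2 hA0
  have rXX : (#X : ℝ) ≤ 2 * #X₀ := by exact_mod_cast hXX
  have rA : (#X : ℝ) * #Y * #D ≤ 2 ^ (L + 1) * #A * Fintype.card W := by exact_mod_cast hA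
  have rX : (Fintype.card W : ℝ) ≤ 2 ^ a * #X := by exact_mod_cast hNX
  have rY : (Fintype.card W : ℝ) ≤ 2 ^ a * #Y := by exact_mod_cast hNY
  have rD : (Fintype.card W : ℝ) ≤ 2 ^ (c + 1) * #D := by exact_mod_cast hND
  have rX0 : (Fintype.card W : ℝ) ≤ 2 ^ (a + 1) * #X₀ :=
    rX.trans (by rw [pow_succ, mul_assoc]; gcongr)
  obtain ⟨μ, hμ0, hμ⟩ : ∃ μ : ℝ, 0 < μ ∧ μ * (#X * #D) = 299 / 300 * #A :=
    ⟨299 / 300 * #A / (#X * #D), by positivity, div_mul_cancel₀ _ (by positivity)⟩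
  have hrow' : ∀ x ∈ X₀, μ * #D ≤ #(nb A D x) := fun x hx' =>
    le_of_mul_le_mul_right (by have := hrow x hx'; nlinarith) hx
  have k1 : (#Y : ℝ) ≤ 2 ^ (L + 2) * μ * Fintype.card W := by
    refine le_of_mul_le_mul_right ?_ (mul_pos hx hdd)
    calc (#Y : ℝ) * (#X * #D) = #X * #Y * #D := by ring
      _ ≤ 2 ^ (L + 1) * (#A * Fintype.card W) := by rw [← mul_assoc]; exact rA
      _ ≤ 2 ^ (L + 1) * ((2 * (299 / 300 * #A)) * Fintype.card W) := by gcongr; linarith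
      _ = _ := by rw [← hμ, pow_succ 2 (L + 1)]; ring
  have k2 : 1 ≤ 2 ^ (4 * a) * μ := by
    refine le_of_mul_le_mul_right ?_ hN
    calc (1 : ℝ) * Fintype.card W ≤ 2 ^ a * (2 ^ (L + 2) * μ * Fintype.card W) := by
          rw [one_mul]; exact rY.trans (by gcongr)
      _ = 2 ^ (a + (L + 2)) * μ * Fintype.card W := by rw [pow_add 2 a]; ring
      _ ≤ _ := by have := inca_two (i := a + (L + 2)) (j := 4 * a) (by omega); gcongr
  rcases le_total (2 ^ (2 * L + 4)) lam with hl | hl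
  · exact (inca_huge hI hL (hLc.trans hca) hca (card_pos.1 hX1) hμ0 hrow' hΓ hd hco rX0 rD k1 k2
      hU hl).elim
  have hl1 : 1 ≤ lam := by linarith
  have hl0 : 0 < lam := by linarith
  obtain ⟨m, hm1, hm2, hm3, hm4⟩ := inca_m hL hlam hl
  obtain ⟨l₁, hl₁0, hl₁⟩ := inca_root 3 hl0.le
  have hl₁p : 0 < l₁ := lt_of_le_of_ne hl₁0 fun e => by rw [← e] at hl₁; norm_num at hl₁; linarith
  obtain ⟨P, hP⟩ : ∃ P : ℝ, P = lam ^ (32 * (c + 1)) := ⟨_, rfl⟩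
  have hP0 : 0 < P := by rw [hP]; positivity
  rw [← hP] at hd
  obtain ⟨τ, hτ⟩ : ∃ τ : ℝ, τ = #Y / Fintype.card W := ⟨_, rfl⟩
  have hτ0 : 0 < τ := by rw [hτ]; positivity
  have hτ1 : 1 ≤ 2 ^ a * τ := by rw [hτ, ← mul_div_assoc, one_le_div hN]; exact rY
  have hτ2 : τ ≤ 2 ^ (L + 2) * μ := by rw [hτ, div_le_iff₀ hN]; exact k1
  obtain ⟨X₁, hX₁, D', hD', g', hg1, hg2, hg3, hg4⟩ := rsift X₀ D (nb A D)
    (fun x => {d ∈ D | x + d ∈ Y}) Γ (μ := μ) (lam := lam) (p := P⁻¹) (τ := τ) (Λ := 2 ^ L)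
    (β₁ := Fintype.card W / 2 ^ (10000 * a) / τ)
    (β₂ := Fintype.card W / (2 ^ L) ^ (10000 * a) / τ) (l₁ := l₁) (m := m) (card_pos.1 hX1)
    (card_pos.1 hD0) (fun x _ d hd => mem_filter.2 ⟨(mem_filter.1 hd).1, inca_nb hI hd⟩)
    (fun x _ => filter_subset _ _) hμ0 hrow' hΓ (inv_pos.2 hP0)
    (by rw [inv_mul_le_iff₀ hP0]; exact hd) hl0.le hco hm1 hτ0.le (by positivity)
    (fun B _ C _ => by
      have a1 : ∑ x ∈ B, (#({d ∈ D | x + d ∈ Y} ∩ C) : ℝ) ≤ tri Y B C := by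
        rw [tri_comm, tri]
        push_cast
        exact sum_le_sum fun x _ => Nat.cast_le.2 (card_le_card fun d hd =>
          mem_filter.2 ⟨(mem_inter.1 hd).2, (mem_filter.1 (mem_inter.1 hd).1).2⟩)
      refine a1.trans ((inca_sp (by positivity) hU B C).trans (le_of_eq ?_))
      rw [← hτ]
      field_simp)
    (by
      have a1 : (2 * P) ^ (m + 1) ≤ 2 ^ (m + 1 + 24 * L * (32 * (c + 1))) := by
        rw [mul_pow, hP, ← pow_mul, mul_comm (32 * (c + 1)), pow_mul lam, pow_add 2 (m + 1),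
          pow_mul 2 (24 * L)]
        gcongr
      have a2 : m + 1 + 24 * L * (32 * (c + 1)) + (a + 1) + a ≤ 10000 * a := by nlinarith
      rw [div_div, div_le_iff₀ (by positivity), inv_eq_one_div, div_div, mul_comm P, one_div,
        inv_pow, mul_assoc, le_inv_mul_iff₀ (by positivity)]
      calc (2 * P) ^ (m + 1) * Fintype.card W
          ≤ 2 ^ (m + 1 + 24 * L * (32 * (c + 1))) * (2 ^ (a + 1) * #X₀) * (2 ^ a * τ) := by
            rw [← mul_one (_ * (Fintype.card W : ℝ))]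
            gcongr
        _ = #X₀ * (2 ^ (m + 1 + 24 * L * (32 * (c + 1)) + (a + 1) + a) * τ) := by
            rw [pow_add 2 _ a, pow_add 2 _ (a + 1)]; ring
        _ ≤ _ := by have := inca_two a2; gcongr)
    (by
      have a1 : 1 ≤ 2 ^ (4 * a * m) * μ ^ m := by
        rw [pow_mul, ← mul_pow]; exact one_le_pow₀ k2
      have a2 : 4 * a * m + (c + 1) + a ≤ L * (10000 * a) := by nlinarith
      rw [div_div, div_le_iff₀ (by positivity), ← pow_mul]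
      calc (Fintype.card W : ℝ) = 1 * Fintype.card W * 1 := by ring
        _ ≤ 2 ^ (4 * a * m) * μ ^ m * (2 ^ (c + 1) * #D) * (2 ^ a * τ) := by gcongr
        _ = μ ^ m * #D * (2 ^ (4 * a * m + (c + 1) + a) * τ) := by
            rw [pow_add 2 _ a, pow_add 2 _ (c + 1)]; ring
        _ ≤ _ := by have := inca_two a2; gcongr)
    hl₁p
    (by
      have a1 : (l₁ ^ m) ^ 4 = lam ^ m := by rw [← pow_mul, mul_comm, pow_mul, ← hl₁]
      have a2 : 4 * 2 ^ L ≤ l₁ ^ m := by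
        refine le_of_pow_le_pow_left₀ (n := 4) (by norm_num) (by positivity) ?_
        rw [a1]
        refine le_trans (le_of_eq ?_) hm3
        rw [pow_add, mul_pow, ← pow_mul, mul_comm L]
        norm_num [mul_comm]
      have a3 := inca_big (one_le_pow₀ one_le_two) a2
      rw [a1] at a3
      calc τ * ((2 ^ L + 1) * (l₁ ^ m + 2) + 1)
          ≤ 2 ^ (L + 2) * μ * ((2 ^ L + 1) * (l₁ ^ m + 2) + 1) := by gcongr
        _ = μ * (4 * 2 ^ L * ((2 ^ L + 1) * (l₁ ^ m + 2) + 1)) := by rw [pow_add]; ring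
        _ < _ := mul_lt_mul_of_pos_left a3 hμ0)
  obtain ⟨g, hg0, hg⟩ := inca_root 7 (hl₁0.trans hg1)
  have b1 : lam ≤ g ^ 32 := by
    calc lam = l₁ ^ 4 := hl₁.symm
      _ ≤ g' ^ 4 := pow_le_pow_left₀ hl₁0 hg1 4
      _ = g ^ 32 := by rw [← hg, ← pow_mul]
  have b2 : 1 + 1 / 5000 ≤ g :=
    le_of_pow_le_pow_left₀ (n := 32) (by norm_num) hg0 (le_trans (by norm_num) (hlam.trans b1))
  have b3 : 300 / 299 ≤ g ^ 4 :=
    le_of_pow_le_pow_left₀ (n := 8) (by norm_num) (by positivity)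
      (le_trans (by norm_num) ((hlam.trans b1).trans (by rw [← pow_mul])))
  have b4 : 1 ≤ g := by linarith
  have b5 : (#X : ℝ) ≤ 4 * P * #X₁ := by
    rw [inv_mul_le_iff₀ hP0] at hg2
    linarith
  refine ⟨X₁, hX₁.trans hX₀, D', hD', g, b2, b5.trans ?_, ?_, hg3.trans ?_, ?_⟩
  · refine mul_le_mul_of_nonneg_right ?_ (Nat.cast_nonneg _)
    have a1 : 4 ≤ lam ^ 46 := le_trans (by norm_num) (pow_le_pow_left₀ (by norm_num) hlam 46)
    calc 4 * P ≤ lam ^ 46 * lam ^ (32 * (c + 1)) := by rw [hP]; gcongr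
      _ = lam ^ (46 + 32 * (c + 1)) := (pow_add _ _ _).symm
      _ ≤ (g ^ 32) ^ (46 + 32 * (c + 1)) := pow_le_pow_left₀ hl0.le b1 _
      _ ≤ _ := by rw [← pow_mul]; exact pow_le_pow_right₀ b4 (by omega)
  · have : (#X : ℝ) ≤ 2 ^ (10000 * a) * #X₁ := by
      refine b5.trans (mul_le_mul_of_nonneg_right ?_ (Nat.cast_nonneg _))
      calc 4 * P ≤ 2 ^ 2 * (2 ^ (2 * L + 4)) ^ (32 * (c + 1)) := by
            rw [hP]; gcongr; norm_num
        _ = 2 ^ (2 + (2 * L + 4) * (32 * (c + 1))) := by rw [← pow_mul, ← pow_add]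
        _ ≤ _ := inca_two (by nlinarith)
    exact_mod_cast this
  · rw [← hg, ← pow_mul]
    exact mul_le_mul_of_nonneg_right (pow_le_pow_right₀ b4 (by omega)) (Nat.cast_nonneg _)
  · have a1 : g ^ 4 * #A ≤ g' * μ * (#X * #D) := by
      rw [mul_assoc, hμ, ← hg]
      calc g ^ 4 * #A = g ^ 4 * (300 / 299) * (299 / 300 * #A) := by ring
        _ ≤ g ^ 4 * g ^ 4 * (299 / 300 * #A) := by gcongr
        _ = _ := by ring
    calc g ^ 4 * #A * #X₁ * #D' ≤ g' * μ * (#X * #D) * #X₁ * #D' := by gcongr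
      _ = g' * μ * #X₁ * #D' * #X * #D := by ring
      _ ≤ _ := by gcongr

end Pool.Agent.P.MP_db4732_co.Q
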