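import Pool.Agent.P.MP_db4732_co.Q.Defs

/-! From an increment of the graph of rows to an increment inside the container. -/

set_option autoImplicit false

namespace Pool.Agent.P.MP_db4732_co.Q

open Finset

theorem card_res_eq {W : Type} [AddCommGroup W] [DecidableEq W] (h2 : ∀ x : W, x + x = 0)
    {A : Finset (W × W)} {X Y D X' D' : Finset W} (hIn : In A X Y D) :
    #(res A X' Y D') = ∑ x ∈ X', #(nb A D x ∩ D') := by
  rw [← card_sigma]
  symm
  refine card_bij (fun q _ => (q.1, q.1 + q.2)) (fun q hq => ?_) (fun q _ q' _ h => ?_)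
    (fun q hq => ?_)
  · simp only [mem_sigma, mem_inter, nb, mem_filter] at hq
    simp only [res, mem_filter]
    refine ⟨hq.2.1.2, hq.1, (hIn _ hq.2.1.2).2.1, ?_⟩
    rw [← add_assoc, h2, zero_add]
    exact hq.2.2
  · obtain ⟨x, d⟩ := q
    obtain ⟨x', d'⟩ := q'
    simp only [Prod.mk.injEq] at h
    obtain ⟨rfl, h⟩ := h
    rw [add_left_cancel h]
  · simp only [res, mem_filter] at hq
    have e : q.1 + (q.1 + q.2) = q.2 := by rw [← add_assoc, h2, zero_add]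
    refine ⟨⟨q.1, q.1 + q.2⟩, ?_, ?_⟩
    · simp only [mem_sigma, mem_inter, nb, mem_filter]
      refine ⟨hq.2.1, ⟨(hIn _ hq.1).2.2, ?_⟩, hq.2.2.2⟩
      rw [e]
      exact hq.1
    · simp only [e]

theorem better_of_inc {g₀ : ℝ} (hg : 1 < g₀) (K₀ : ℕ) : ∃ K : ℕ, ∀ (W : Type) [AddCommGroup W]
    [Fintype W] [DecidableEq W], (∀ x : W, x + x = 0) → ∀ (A : Finset (W × W)) (X Y D : Finset W)
    (L c a : ℕ), In A X Y D → A.Nonempty → 1 ≤ L → L ≤ c → 1 ≤ a → Fintype.card W ≤ 2 ^ a * #X →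
    Fintype.card W ≤ 2 ^ (c + 1) * #D →
    (#X : ℝ) * #Y * #D ≤ g₀ * tri D X Y * Fintype.card W → Up Y (K * a) g₀ (K * c) →
    Inc A X D g₀ (K₀ * c) (K₀ * L) (K₀ * a) → Better A X Y D g₀ (K₀ * c) (K₀ * L) := by
  obtain ⟨k, hk⟩ := pow_unbounded_of_one_lt (2 : ℝ) hg
  refine ⟨K₀ + 1 + 2 * k, ?_⟩
  intro W _ _ _ h2 A X Y D L c a hIn hA hL hLc ha hX hD hT hUp hInc
  obtain ⟨X', hX', D', hD', g, hg0, h1, h2', h3, h4⟩ := hInc
  have hg1 : 1 ≤ g := hg.le.trans hg0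
  have hgp : 0 < g := by linarith
  have hS : (#(res A X' Y D') : ℝ) = ∑ x ∈ X', (#(nb A D x ∩ D') : ℝ) := by
    rw [card_res_eq h2 hIn]; push_cast; rfl
  rw [← hS] at h4
  set S : ℝ := (#(res A X' Y D') : ℝ) with hSdef
  obtain ⟨q, hq⟩ := hA
  have hAp : (0 : ℝ) < #A := by exact_mod_cast card_pos.2 ⟨q, hq⟩
  have hXp : (0 : ℝ) < #X := by exact_mod_cast card_pos.2 ⟨_, (hIn q hq).1⟩
  have hDp : (0 : ℝ) < #D := by exact_mod_cast card_pos.2 ⟨_, (hIn q hq).2.2⟩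
  have hX'p : (0 : ℝ) < #X' := (mul_pos_iff_of_pos_left (by positivity)).1 (hXp.trans_le h1)
  have hD'p : (0 : ℝ) < #D' := (mul_pos_iff_of_pos_left (by positivity)).1 (hDp.trans_le h3)
  have hN : (0 : ℝ) < Fintype.card W := by exact_mod_cast Fintype.card_pos
  have hSp : 0 < S := by
    have : 0 < S * #X * #D := lt_of_lt_of_le (by positivity) h4
    by_contra hc
    have hS0 : S ≤ 0 := not_lt.1 hc
    have : S * #X * #D ≤ 0 :=
      mul_nonpos_of_nonpos_of_nonneg (mul_nonpos_of_nonpos_of_nonneg hS0 hXp.le) hDp.le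
    linarith
  have hB : Fintype.card W ≤ 2 ^ ((K₀ + 1 + 2 * k) * a) * #X' := by
    calc Fintype.card W ≤ 2 ^ a * #X := hX
      _ ≤ 2 ^ a * (2 ^ (K₀ * a) * #X') := Nat.mul_le_mul_left _ h2'
      _ = 2 ^ (a + K₀ * a) * #X' := by rw [pow_add, mul_assoc]
      _ ≤ _ := Nat.mul_le_mul_right _ (Nat.pow_le_pow_right two_pos (by nlinarith))
  have hC : (Fintype.card W : ℝ) ≤ g ^ ((K₀ + 1 + 2 * k) * c) * #D' := by
    have e1 : (2 : ℝ) ≤ g ^ k := hk.le.trans (pow_le_pow_left₀ (by linarith) hg0 k)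
    have hc1 : 1 ≤ c := hL.trans hLc
    have e2 : K₀ * L ≤ K₀ * c := Nat.mul_le_mul_left _ hLc
    have e3 : k ≤ k * c := Nat.le_mul_of_pos_right _ hc1
    calc (Fintype.card W : ℝ) ≤ 2 ^ (c + 1) * #D := by exact_mod_cast hD
      _ ≤ (g ^ k) ^ (c + 1) * (g ^ (K₀ * L) * #D') := by gcongr
      _ = g ^ (k * (c + 1) + K₀ * L) * #D' := by rw [← pow_mul, pow_add, mul_assoc]
      _ ≤ _ := by
        refine mul_le_mul_of_nonneg_right (pow_le_pow_right₀ hg1 ?_) hD'p.le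
        nlinarith
  have hU := hUp g hg0 X' D' hB hC
  have hT' : tri D' X' Y = tri Y X' D' := by
    rw [tri_comm D' X' Y, tri_rot h2 D' Y X', tri_comm]
  have hYn : (0 : ℝ) ≤ #Y := Nat.cast_nonneg _
  have hTn : (0 : ℝ) ≤ tri D X Y := Nat.cast_nonneg _
  refine ⟨X', hX', Y, Subset.rfl, D', hD', g, hg0, ?_, ?_, ?_, ?_⟩
  · rw [← card_pos]
    have : (0 : ℝ) < #(res A X' Y D') := hSp
    exact_mod_cast this
  · rw [hT', ← hSdef]
    refine le_of_mul_le_mul_right ?_ (mul_pos hgp hN)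
    have e1 : (#X : ℝ) * #Y * #D ≤ g * tri D X Y * Fintype.card W :=
      hT.trans (by gcongr)
    calc g ^ 2 * #A * tri Y X' D' * (g * Fintype.card W)
        = g ^ 3 * #A * ((tri Y X' D' : ℝ) * Fintype.card W) := by ring
      _ ≤ g ^ 3 * #A * (g * #Y * #X' * #D') := by gcongr
      _ = g ^ 4 * #A * #X' * #D' * #Y := by ring
      _ ≤ S * #X * #D * #Y := by gcongr
      _ = S * (#X * #Y * #D) := by ring
      _ ≤ S * (g * tri D X Y * Fintype.card W) := by gcongr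
      _ = _ := by ring
  · rw [← hSdef]
    refine mul_le_mul_of_nonneg_right ?_ hYn
    refine le_of_mul_le_mul_right ?_ hD'p
    calc (#A : ℝ) * #X' * #D' ≤ g ^ 4 * (#A * #X' * #D') :=
          le_mul_of_one_le_left (by positivity) (one_le_pow₀ hg1)
      _ = g ^ 4 * #A * #X' * #D' := by ring
      _ ≤ S * #X * #D := h4
      _ ≤ S * #X * (g ^ (K₀ * L) * #D') := by gcongr
      _ = _ := by ring
  · exact mul_le_mul_of_nonneg_right h1 hYn

end Pool.Agent.P.MP_db4732_co.Q
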