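import Pool.Agent.P.MP_db4732_co.Q.Gram

/-! The container is not too small. -/

set_option autoImplicit false

namespace Pool.Agent.P.MP_db4732_co.Q

open Finset

section aux

variable {W : Type} [AddCommGroup W] [Fintype W] [DecidableEq W]

theorem low_cv_univ (C : Finset W) (x : W) : cv C univ x = #C := by
  unfold cv
  refine card_bij (fun b _ => x + b) (fun b hb => (mem_filter.1 hb).2)
    (fun _ _ _ _ h => add_left_cancel h) fun y hy => ⟨y - x, ?_, by simp⟩
  rw [mem_filter]
  exact ⟨mem_univ _, by simpa using hy⟩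

theorem low_pairs (C : Finset W) :
    #{q ∈ (univ : Finset W) ×ˢ (univ : Finset W) | q.1 + q.2 ∈ C} = Fintype.card W * #C := by
  rw [← tri_eq]
  unfold tri
  simp [low_cv_univ]

/-- The uniform density of a set. -/
noncomputable def lowMu (X : Finset W) (w : W) : ℝ :=
  if w ∈ X then (Fintype.card W : ℝ) / #X else 0

theorem low_sum_mu {X : Finset W} (hX : X.Nonempty) (x : W) :
    ∑ t, lowMu X (x + t) = Fintype.card W := by
  have hX' : (#X : ℝ) ≠ 0 := by exact_mod_cast hX.card_pos.ne'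
  have h := low_cv_univ X x
  unfold cv at h
  unfold lowMu
  rw [← sum_filter, sum_const, h, nsmul_eq_mul]
  field_simp

theorem low_sum_mul (h2 : ∀ x : W, x + x = 0) (X Y : Finset W) (x y : W) :
    ∑ t, lowMu X (x + t) * lowMu Y (y + t) = nc X Y (x + y) * Fintype.card W := by
  have h : #{t : W | x + t ∈ X ∧ y + t ∈ Y} = cv X Y (x + y) := by
    unfold cv
    refine card_bij (fun t _ => y + t) (fun t ht => ?_) (fun _ _ _ _ h => add_left_cancel h)
      fun b hb => ⟨y + b, ?_, by rw [← add_assoc, h2, zero_add]⟩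
    · rw [mem_filter] at ht ⊢
      refine ⟨ht.2.2, ?_⟩
      rw [add_assoc, ← add_assoc y y, h2, zero_add]
      exact ht.2.1
    · rw [mem_filter] at hb ⊢
      refine ⟨mem_univ _, by rw [← add_assoc]; exact hb.2, ?_⟩
      rw [← add_assoc, h2, zero_add]
      exact hb.1
  have h' : ∀ t, lowMu X (x + t) * lowMu Y (y + t) =
      if x + t ∈ X ∧ y + t ∈ Y then
        (Fintype.card W : ℝ) / #X * ((Fintype.card W : ℝ) / #Y) else 0 := by
    intro t
    unfold lowMu
    by_cases h1 : x + t ∈ X <;> by_cases h3 : y + t ∈ Y <;> simp [h1, h3]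
  simp_rw [h']
  rw [← sum_filter, sum_const, h, nsmul_eq_mul]
  unfold nc
  ring

theorem low_ip (h2 : ∀ x : W, x + x = 0) {X Y : Finset W} (hX : X.Nonempty) (hY : Y.Nonempty)
    (x y : W) :
    ip univ (fun t => lowMu X (x + t) - 1) (fun t => lowMu Y (y + t) - 1) =
      nc X Y (x + y) - 1 := by
  have hN : (Fintype.card W : ℝ) ≠ 0 := by exact_mod_cast Fintype.card_pos.ne'
  unfold ip
  have h : ∀ t, (lowMu X (x + t) - 1) * (lowMu Y (y + t) - 1) =
      lowMu X (x + t) * lowMu Y (y + t) - lowMu X (x + t) - lowMu Y (y + t) + 1 := fun t => by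
    ring
  simp_rw [h]
  rw [sum_add_distrib, sum_sub_distrib, sum_sub_distrib, low_sum_mul h2, low_sum_mu hX,
    low_sum_mu hY, sum_const, card_univ, nsmul_eq_mul]
  field_simp
  ring

theorem low_nc_nonneg (X Y : Finset W) (x : W) : 0 ≤ nc X Y x := by
  unfold nc
  positivity

/-- A large level set of the self-convolution contradicts the upper bound. -/
theorem low_up (h2 : ∀ x : W, x + x = 0) {X : Finset W} {a p p' : ℕ} {l lam : ℝ} (hl : 1 ≤ l)
    (hlam : l ≤ lam) (hp : p' ≤ p) (hX : Fintype.card W ≤ 2 ^ a * #X) (hU : Up X a l p)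
    (h : ((#(univ : Finset W) : ℕ) : ℝ) ^ 2 ≤ lam ^ p' *
      #{q ∈ (univ : Finset W) ×ˢ (univ : Finset W) | lam ≤ 1 +
        ip univ (fun t => lowMu X (q.1 + t) - 1) (fun t => lowMu X (q.2 + t) - 1)}) : False := by
  have hNpos : 0 < Fintype.card W := Fintype.card_pos
  have hN : (0 : ℝ) < Fintype.card W := by exact_mod_cast hNpos
  have hXne : X.Nonempty := by
    rw [← card_pos]
    by_contra h0
    rw [Nat.eq_zero_of_not_pos h0] at hX
    omega
  have hX' : (0 : ℝ) < #X := by exact_mod_cast hXne.card_pos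
  set C : Finset W := {z | lam ≤ nc X X z} with hC
  have hset : {q ∈ (univ : Finset W) ×ˢ (univ : Finset W) | lam ≤ 1 +
        ip univ (fun t => lowMu X (q.1 + t) - 1) (fun t => lowMu X (q.2 + t) - 1)} =
      {q ∈ (univ : Finset W) ×ˢ (univ : Finset W) | q.1 + q.2 ∈ C} := by
    refine filter_congr fun q _ => ?_
    rw [low_ip h2 hXne hXne, hC, mem_filter]
    simp
  rw [hset, low_pairs, card_univ] at h
  push_cast at h
  have h1 : (Fintype.card W : ℝ) ≤ lam ^ p' * #C := by
    refine le_of_mul_le_mul_left ?_ hN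
    nlinarith [h]
  have h3 : (Fintype.card W : ℝ) ≤ lam ^ p * #C :=
    h1.trans (mul_le_mul_of_nonneg_right (pow_le_pow_right₀ (hl.trans hlam) hp)
      (Nat.cast_nonneg _))
  have h4 := hU lam hlam X C hX h3
  have h5 : lam * #X * #X * #C ≤ (tri X X C : ℝ) * Fintype.card W := by
    unfold tri
    push_cast
    rw [sum_mul, mul_comm _ (#C : ℝ), ← nsmul_eq_mul, ← sum_const]
    refine sum_le_sum fun z hz => ?_
    have hz' : lam ≤ nc X X z := (mem_filter.1 hz).2
    unfold nc at hz'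
    rw [le_div_iff₀ (by positivity)] at hz'
    linarith
  linarith

end aux

theorem low {ε : ℝ} (hε : 0 < ε) : ∃ l : ℝ, 1 < l ∧ ∃ K : ℕ, ∀ (W : Type) [AddCommGroup W]
    [Fintype W] [DecidableEq W], (∀ x : W, x + x = 0) → ∀ (X Y D : Finset W) (a c : ℕ), 1 ≤ c →
    Fintype.card W ≤ 2 ^ a * #X → Fintype.card W ≤ 2 ^ a * #Y → Fintype.card W ≤ 2 ^ c * #D →
    Up X a l (K * c) → Up Y a l (K * c) →
    (1 - ε) * #X * #Y * #D ≤ tri D X Y * (Fintype.card W : ℝ) := by
  obtain ⟨n, hn⟩ := exists_nat_ge (2 / ε)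
  obtain ⟨e, he1, he⟩ : ∃ e : ℕ, 1 ≤ e ∧ 1 / (e : ℝ) ≤ ε / 2 := by
    refine ⟨n + 1, by omega, ?_⟩
    rw [div_le_iff₀ hε] at hn
    push_cast
    rw [div_le_iff₀ (by positivity)]
    nlinarith
  have he0 : (0 : ℝ) < e := by exact_mod_cast he1
  have hl : (1 : ℝ) < 1 + 1 / (16 * e) := lt_add_of_pos_right _ (by positivity)
  refine ⟨1 + 1 / (16 * e), hl, 16 * e * (1 + e), ?_⟩
  intro W _ _ _ h2 X Y D a c hc hX hY hD hUX hUY
  by_contra hcon
  rw [not_le] at hcon
  have hNpos : 0 < Fintype.card W := Fintype.card_pos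
  have hne : ∀ (Z : Finset W) (b : ℕ), Fintype.card W ≤ 2 ^ b * #Z → Z.Nonempty := by
    intro Z b hZ
    rw [← card_pos]
    by_contra h0
    rw [Nat.eq_zero_of_not_pos h0] at hZ
    omega
  have hXne := hne X a hX
  have hYne := hne Y a hY
  have hX' : (0 : ℝ) < #X := by exact_mod_cast hXne.card_pos
  have hY' : (0 : ℝ) < #Y := by exact_mod_cast hYne.card_pos
  have hsum : ∑ d ∈ D, nc X Y d < (1 - ε) * #D := by
    rw [tri_rot h2, tri_comm] at hcon
    unfold nc
    rw [← sum_div, ← sum_mul, div_lt_iff₀ (by positivity)]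
    unfold tri at hcon
    push_cast at hcon
    linarith
  set E₀ : Finset W := {d ∈ D | nc X Y d ≤ 1 - ε / 2} with hE₀
  have hE₀card : ε / 2 * #D ≤ #E₀ := by
    have h1 : ∑ d ∈ D, ((1 - ε / 2) - if nc X Y d ≤ 1 - ε / 2 then (1 : ℝ) else 0) ≤
        ∑ d ∈ D, nc X Y d := by
      refine sum_le_sum fun d _ => ?_
      have := low_nc_nonneg X Y d
      split_ifs with h
      · linarith
      · linarith [not_le.1 h]
    rw [sum_sub_distrib, sum_const, nsmul_eq_mul, sum_boole] at h1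
    linarith
  have hDE : #D ≤ 2 ^ e * #E₀ := by
    have h1 : (#D : ℝ) ≤ e * #E₀ := by
      have h3 : 1 / (e : ℝ) * #D ≤ #E₀ :=
        (mul_le_mul_of_nonneg_right he (Nat.cast_nonneg _)).trans hE₀card
      rw [one_div, inv_mul_le_iff₀ he0] at h3
      exact h3
    have h3 : #D ≤ e * #E₀ := by exact_mod_cast h1
    exact h3.trans (Nat.mul_le_mul_right _ Nat.lt_two_pow_self.le)
  have hd : #(univ : Finset W) * #(univ : Finset W) ≤ 2 ^ (c + e) *
      #{q ∈ (univ : Finset W) ×ˢ (univ : Finset W) | q.1 + q.2 ∈ E₀} := by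
    rw [low_pairs, card_univ]
    calc Fintype.card W * Fintype.card W ≤ Fintype.card W * (2 ^ c * (2 ^ e * #E₀)) :=
          Nat.mul_le_mul_left _ (hD.trans (Nat.mul_le_mul_left _ hDE))
      _ = _ := by ring
  obtain ⟨lam, hlam, h⟩ := cnt (univ : Finset W) (univ : Finset W) (univ : Finset W)
    (fun x t => lowMu X (x + t) - 1) (fun y t => lowMu Y (y + t) - 1)
    {q ∈ (univ : Finset W) ×ˢ (univ : Finset W) | q.1 + q.2 ∈ E₀} (filter_subset _ _)
    (k := c + e) he1 (by omega) univ_nonempty univ_nonempty hd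
    (fun q hq => by
      have h1 : nc X Y (q.1 + q.2) ≤ 1 - ε / 2 := (mem_filter.1 (mem_filter.1 hq).2).2
      rw [low_ip h2 hXne hYne]
      linarith)
    (fun x _ x' _ => by
      rw [low_ip h2 hXne hXne]
      linarith [low_nc_nonneg X X (x + x')])
    (fun y _ y' _ => by
      rw [low_ip h2 hYne hYne]
      linarith [low_nc_nonneg Y Y (y + y')])
  have hp : 16 * e * (c + e) ≤ 16 * e * (1 + e) * c := by
    rw [mul_assoc (16 * e)]
    exact Nat.mul_le_mul_left _ (by nlinarith)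
  rcases h with h | h
  · exact low_up h2 hl.le hlam hp hX hUX h
  · exact low_up h2 hl.le hlam hp hY hUY h

end Pool.Agent.P.MP_db4732_co.Q
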