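import Pool.Agent.P.MP_db4732_co.Q.IncA
import Pool.Agent.P.MP_db4732_co.Q.IncB
import Pool.Agent.P.MP_db4732_co.Q.Low

/-! The combinatorial density increment. -/

set_option autoImplicit false

namespace Pool.Agent.P.MP_db4732_co.Q

open Finset

section aux

variable {W : Type} [AddCommGroup W] [Fintype W] [DecidableEq W]

omit [AddCommGroup W] [Fintype W] in
theorem incr_card_swap (A : Finset (W × W)) : #(A.image Prod.swap) = #A :=
  card_image_of_injective _ Prod.swap_injective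

omit [AddCommGroup W] [Fintype W] in
theorem incr_mem_swap {A : Finset (W × W)} {q : W × W} : q ∈ A.image Prod.swap ↔ q.swap ∈ A := by
  rw [mem_image]
  constructor
  · rintro ⟨p, hp, rfl⟩
    simpa using hp
  · exact fun h => ⟨q.swap, h, Prod.swap_swap q⟩

omit [Fintype W] in
theorem incr_in_swap {A : Finset (W × W)} {X Y D : Finset W} (h : In A X Y D) :
    In (A.image Prod.swap) Y X D := fun q hq => by
  obtain ⟨h1, h2, h3⟩ := h _ (incr_mem_swap.1 hq)
  exact ⟨h2, h1, by rw [add_comm]; exact h3⟩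

omit [Fintype W] in
theorem incr_sum_nb (h2 : ∀ x : W, x + x = 0) {A : Finset (W × W)} {X Y D : Finset W}
    (h : In A X Y D) (X₁ : Finset W) : ∑ x ∈ X₁, #(nb A D x) = #{q ∈ A | q.1 ∈ X₁} := by
  rw [card_eq_sum_card_fiberwise (f := Prod.fst) (s := {q ∈ A | q.1 ∈ X₁}) (t := X₁)
    fun q hq => mem_coe.2 (mem_filter.1 (mem_coe.1 hq)).2]
  refine sum_congr rfl fun x hx => ?_
  refine card_bij (fun d _ => (x, x + d)) (fun d hd => ?_)
    (fun _ _ _ _ e => add_left_cancel (Prod.mk.inj e).2) fun q hq => ?_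
  · exact mem_filter.2 ⟨mem_filter.2 ⟨(mem_filter.1 hd).2, hx⟩, rfl⟩
  · obtain ⟨h3, h4⟩ := mem_filter.1 hq
    have h5 := (mem_filter.1 h3).1
    have e : (x, x + (q.1 + q.2)) = q := by
      rw [← h4, ← add_assoc, h2, zero_add]
    exact ⟨q.1 + q.2, mem_filter.2 ⟨(h q h5).2.2, by rw [e]; exact h5⟩, e⟩

omit [Fintype W] in
theorem incr_sum_all (h2 : ∀ x : W, x + x = 0) {A : Finset (W × W)} {X Y D : Finset W}
    (h : In A X Y D) : ∑ x ∈ X, (#(nb A D x) : ℝ) = #A := by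
  have := incr_sum_nb h2 h X
  rw [filter_true_of_mem fun q hq => (h q hq).1] at this
  exact_mod_cast this

omit [Fintype W] in
theorem incr_inc_mono {A : Finset (W × W)} {X D : Finset W} {g₀ : ℝ} {K M b K' M' b' : ℕ}
    (h : Inc A X D g₀ K M b) (hg : 1 ≤ g₀) (hK : K ≤ K') (hM : M ≤ M') (hb : b ≤ b') :
    Inc A X D g₀ K' M' b' := by
  obtain ⟨X', h1, D', h2, g, h3, h4, h5, h6, h7⟩ := h
  exact ⟨X', h1, D', h2, g, h3,
    h4.trans (mul_le_mul_of_nonneg_right (pow_le_pow_right₀ (hg.trans h3) hK) (Nat.cast_nonneg _)),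
    h5.trans (Nat.mul_le_mul_right _ (Nat.pow_le_pow_right two_pos hb)),
    h6.trans (mul_le_mul_of_nonneg_right (pow_le_pow_right₀ (hg.trans h3) hM) (Nat.cast_nonneg _)),
    h7⟩

omit [Fintype W] in
theorem incr_better_mono {A : Finset (W × W)} {X Y D : Finset W} {g₀ : ℝ} {K M K' M' : ℕ}
    (h : Better A X Y D g₀ K M) (hg : 1 ≤ g₀) (hK : K ≤ K') (hM : M ≤ M') :
    Better A X Y D g₀ K' M' := by
  obtain ⟨X', h1, Y', h2, D', h3, g, h4, h5, h6, h7, h8⟩ := h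
  refine ⟨X', h1, Y', h2, D', h3, g, h4, h5, h6, h7.trans ?_, h8.trans ?_⟩
  · gcongr
    exact hg.trans h4
  · gcongr
    exact hg.trans h4

omit [Fintype W] in
theorem incr_res_swap (A : Finset (W × W)) (X Y D : Finset W) :
    res (A.image Prod.swap) Y X D = (res A X Y D).image Prod.swap := by
  ext q
  rw [incr_mem_swap, res, res, mem_filter, mem_filter, incr_mem_swap, add_comm q.1]
  simp only [Prod.fst_swap, Prod.snd_swap]
  tauto

omit [Fintype W] in
theorem incr_better_swap {A : Finset (W × W)} {X Y D : Finset W} {g₀ : ℝ} {K M : ℕ}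
    (h : Better (A.image Prod.swap) Y X D g₀ K M) : Better A X Y D g₀ K M := by
  obtain ⟨Y', h1, X', h2, D', h3, g, h4, h5, h6, h7, h8⟩ := h
  rw [incr_res_swap] at h5 h6 h7
  rw [incr_card_swap, incr_card_swap] at h6 h7
  rw [tri_comm D' Y', tri_comm D Y] at h6
  exact ⟨X', h2, Y', h1, D', h3, g, h4, image_nonempty.1 h5, h6, by linarith, by linarith⟩

/-- The normalised indicator. -/
noncomputable def incrU (D n : Finset W) (d : W) : ℝ := (if d ∈ n then (#D : ℝ) / #n else 0) - 1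

omit [AddCommGroup W] [Fintype W] in
theorem incr_ip {D n n' : Finset W} (h : n ⊆ D) (h' : n' ⊆ D) (hn : n.Nonempty)
    (hn' : n'.Nonempty) :
    1 + ip D (incrU D n) (incrU D n') = #(n ∩ n') * (#D : ℝ) / (#n * #n') := by
  have a1 : (0 : ℝ) < #n := by exact_mod_cast hn.card_pos
  have a2 : (0 : ℝ) < #n' := by exact_mod_cast hn'.card_pos
  have a3 : (0 : ℝ) < #D := by exact_mod_cast (hn.mono h).card_pos
  have key : ∀ (m : Finset W) (t : ℝ), m ⊆ D → ∑ d ∈ D, (if d ∈ m then t else 0) = #m * t := by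
    intro m t hm
    rw [sum_ite_mem, inter_eq_right.2 hm, sum_const, nsmul_eq_mul]
  have e : ∀ d, incrU D n d * incrU D n' d =
      (if d ∈ n ∩ n' then (#D : ℝ) / #n * (#D / #n') else 0) - (if d ∈ n then (#D : ℝ) / #n else 0) -
        (if d ∈ n' then (#D : ℝ) / #n' else 0) + 1 := by
    intro d
    by_cases h1 : d ∈ n <;> by_cases h2 : d ∈ n' <;> simp [incrU, h1, h2] <;> ring
  unfold ip
  simp only [e]
  rw [sum_add_distrib, sum_sub_distrib, sum_sub_distrib, key _ _ (inter_subset_left.trans h),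
    key _ _ h, key _ _ h', sum_const, nsmul_eq_mul]
  field_simp
  ring

theorem incr_num {A X Y D N n n' p : ℝ} (hA : 0 < A) (hp : 2 ≤ p) (hn : 0 ≤ n) (hn' : 0 ≤ n')
    (hX : 0 ≤ X) (hN : 0 ≤ N) (h1 : 299 / 300 * A ≤ n * X) (h2 : 299 / 300 * A ≤ n' * Y)
    (h3 : X * Y ≤ p * A) (h4 : N ≤ p * X) (h5 : N ≤ p * Y) (h6 : p ^ 6 ≤ N) (h7 : D ≤ N) :
    2 * D ≤ n * n' := by
  have p0 : 0 < p := by linarith
  have t0 : 0 ≤ n * n' := mul_nonneg hn hn'
  have e1 : 299 / 300 * A * (299 / 300 * A) ≤ n * X * (n' * Y) :=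
    mul_le_mul h1 h2 (by positivity) (mul_nonneg hn hX)
  have e2 : n * n' * (X * Y) ≤ n * n' * (p * A) := mul_le_mul_of_nonneg_left h3 t0
  have e3 : A / 2 ≤ n * n' * p := by
    refine le_of_mul_le_mul_right ?_ hA
    nlinarith [mul_pos hA hA]
  have e4 : N * N ≤ p * X * (p * Y) := mul_le_mul h4 h5 hN (mul_nonneg p0.le hX)
  have e5 : p * p * (X * Y) ≤ p * p * (p * A) := mul_le_mul_of_nonneg_left h3 (by positivity)
  have e6 : p ^ 6 * N ≤ N * N := mul_le_mul_of_nonneg_right h6 hN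
  have e7 : p ^ 3 * (A / 2) ≤ p ^ 3 * (n * n' * p) := mul_le_mul_of_nonneg_left e3 (by positivity)
  have e8 : p ^ 2 * N / 2 ≤ n * n' := by
    refine le_of_mul_le_mul_left ?_ (show 0 < p ^ 4 by positivity)
    nlinarith
  have e9 : 4 * N ≤ p ^ 2 * N := mul_le_mul_of_nonneg_right (by nlinarith) hN
  linarith

end aux

/-- Heavy rows give an increment at once. -/
theorem incr_row : ∃ K : ℕ, ∀ (W : Type) [AddCommGroup W] [Fintype W] [DecidableEq W],
    (∀ x : W, x + x = 0) → ∀ (A : Finset (W × W)) (X Y D : Finset W) (L c a : ℕ),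
    In A X Y D → A.Nonempty → 1 ≤ c → c ≤ a → #X * #Y ≤ 2 ^ c * #A →
    Fintype.card W ≤ 2 ^ a * #Y →
    Inc A X D (1 + 1 / 5000) (K * c) (K * L) (K * a) ∨ ∃ X₀ ⊆ X, #X ≤ 2 * #X₀ ∧
      (∀ x ∈ X₀, (299 / 300 : ℝ) * #A ≤ #(nb A D x) * #X) ∧
      3 * #A ≤ 4 * #{q ∈ A | q.1 ∈ X₀} := by
  obtain ⟨K, hK⟩ := pow_unbounded_of_one_lt (300 : ℝ) (show (1 : ℝ) < 1 + 1 / 5000 by norm_num)
  refine ⟨K + 11, fun W _ _ _ h2 A X Y D L c a hin hA c1 ca hXY hY => ?_⟩
  have A0 : (0 : ℝ) < #A := by exact_mod_cast hA.card_pos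
  have hsum := incr_sum_all h2 hin
  obtain ⟨X₀, hX₀⟩ : ∃ X₀ : Finset W, X₀ = {x ∈ X | (1 - 1 / 300 : ℝ) *
    ∑ i ∈ X, (#(nb A D i) : ℝ) ≤ (#(nb A D x) : ℝ) * #X} := ⟨_, rfl⟩
  have hsub : X₀ ⊆ X := by rw [hX₀]; exact filter_subset _ _
  rcases rows X (fun x => (#(nb A D x) : ℝ)) (fun _ _ => Nat.cast_nonneg _) (ε := 1 / 300)
    (by norm_num) (by norm_num) (by rw [hsum]; exact A0) X₀ hX₀ with ⟨h3, h4⟩ | ⟨g, h3, h4, h5⟩
  · refine Or.inr ⟨X₀, hsub, h4, fun x hx => ?_, ?_⟩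
    · rw [hX₀, mem_filter, hsum] at hx
      linarith [hx.2]
    · rw [hsum, ← Nat.cast_sum, incr_sum_nb h2 hin] at h3
      have : (3 * #A : ℝ) ≤ 4 * #{q ∈ A | q.1 ∈ X₀} := by linarith
      exact_mod_cast this
  · left
    rw [hsum] at h4
    have g0 : 0 < g := by linarith
    have X0 : (0 : ℝ) < #X := by
      obtain ⟨q, hq⟩ := hA
      exact_mod_cast card_pos.2 ⟨_, (hin q hq).1⟩
    have X1 : (0 : ℝ) < #X₀ := by
      by_contra hc
      have : (#X₀ : ℝ) = 0 := le_antisymm (not_lt.1 hc) (Nat.cast_nonneg _)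
      rw [this] at h5
      linarith
    obtain ⟨t, t0, ht⟩ : ∃ t : ℝ, 0 ≤ t ∧ t ^ 4 = g :=
      ⟨g ^ ((4 : ℕ) : ℝ)⁻¹, by positivity, Real.rpow_inv_natCast_pow g0.le (by norm_num)⟩
    have t1 : 1 + 1 / 5000 ≤ t := by
      refine le_of_pow_le_pow_left₀ (n := 4) (by norm_num) t0 ?_
      rw [ht]
      refine le_trans (by norm_num) h3
    have t2 : 1 ≤ t := le_trans (by norm_num) t1
    refine ⟨X₀, hsub, D, Subset.rfl, t, t1, ?_, ?_, le_mul_of_one_le_left (Nat.cast_nonneg _)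
      (one_le_pow₀ t2), ?_⟩
    · have e1 : 300 ≤ t ^ K := hK.le.trans (pow_le_pow_left₀ (by norm_num) t1 K)
      have e2 : t ^ (K + 4) ≤ t ^ ((K + 11) * c) := pow_le_pow_right₀ t2 (by nlinarith)
      rw [pow_add, ht] at e2
      have e3 : 300 * g ≤ t ^ K * g := mul_le_mul_of_nonneg_right e1 g0.le
      nlinarith [mul_le_mul_of_nonneg_right (e3.trans e2) X1.le]
    · have e1 : ∑ i ∈ X₀, (#(nb A D i) : ℝ) ≤ #X₀ * Fintype.card W := by
        refine (sum_le_card_nsmul _ _ (Fintype.card W : ℝ) fun i _ => ?_).trans (by rw [nsmul_eq_mul])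
        exact_mod_cast card_le_univ _
      have e2 : (Fintype.card W : ℝ) ≤ 2 ^ a * #Y := by exact_mod_cast hY
      have e3 : (#X : ℝ) * #Y ≤ 2 ^ a * #A := by
        have : #X * #Y ≤ 2 ^ a * #A :=
          hXY.trans (Nat.mul_le_mul_right _ (Nat.pow_le_pow_right two_pos ca))
        exact_mod_cast this
      have e4 : g ≤ 2 ^ a * 2 ^ a := by
        refine le_of_mul_le_mul_right ?_ (mul_pos A0 X1)
        calc g * (#A * #X₀) = g * #A * #X₀ := by ring
          _ ≤ #X₀ * (2 ^ a * #Y) * #X := h4.trans (mul_le_mul_of_nonneg_right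
              (e1.trans (mul_le_mul_of_nonneg_left e2 X1.le)) X0.le)
          _ = 2 ^ a * #X₀ * (#X * #Y) := by ring
          _ ≤ 2 ^ a * #X₀ * (2 ^ a * #A) := mul_le_mul_of_nonneg_left e3 (by positivity)
          _ = _ := by ring
      have e5 : (2 : ℝ) ^ (9 + a + a) ≤ 2 ^ ((K + 11) * a) :=
        pow_le_pow_right₀ (by norm_num) (by nlinarith)
      rw [pow_add, pow_add] at e5
      have e6 : (#X : ℝ) ≤ 2 ^ ((K + 11) * a) * #X₀ := by
        have : 300 * g ≤ 2 ^ ((K + 11) * a) := by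
          have : (0 : ℝ) ≤ 2 ^ a * 2 ^ a := by positivity
          nlinarith
        nlinarith [mul_le_mul_of_nonneg_right this X1.le]
      exact_mod_cast e6
    · rw [ht, sum_congr rfl fun x _ => by
        rw [inter_eq_left.2 (show nb A D x ⊆ D from filter_subset _ _)]]
      exact mul_le_mul_of_nonneg_right h4 (Nat.cast_nonneg _)

/-- A corner-free set has an increment of the graph of rows or of the graph of columns. -/
theorem inc_or : ∃ K : ℕ, ∀ (W : Type) [AddCommGroup W] [Fintype W] [DecidableEq W],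
    (∀ x : W, x + x = 0) → ∀ (A : Finset (W × W)) (X Y D : Finset W) (L c a : ℕ), CF A →
    In A X Y D → 1 ≤ L → L ≤ c → c * L ≤ a → #X * #Y ≤ 2 ^ c * #A →
    #X * #Y * #D ≤ 2 ^ (L + 1) * #A * Fintype.card W → Fintype.card W ≤ 2 ^ a * #X →
    Fintype.card W ≤ 2 ^ a * #Y → Fintype.card W ≤ 2 ^ (c + 1) * #D →
    2 ^ (K * a) ≤ Fintype.card W → Up X (K * a) (2 ^ L) (K * a) → Up Y (K * a) (2 ^ L) (K * a) →
    Inc A X D (1 + 1 / 5000) (K * c) (K * L) (K * a) ∨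
      Inc (A.image Prod.swap) Y D (1 + 1 / 5000) (K * c) (K * L) (K * a) := by
  obtain ⟨K₁, h₁⟩ := incr_row
  obtain ⟨K₂, h₂⟩ := inc_gamma
  refine ⟨K₁ + K₂ + 6, fun W _ _ _ h2 A X Y D L c a hcf hin L1 Lc ca hXY hXYD hX hY hD hN uX uY => ?_⟩
  have c1 : 1 ≤ c := L1.trans Lc
  have ca' : c ≤ a := le_trans (Nat.le_mul_of_pos_right c L1) ca
  have N0 : 0 < Fintype.card W := Fintype.card_pos
  have X0 : 0 < #X := Nat.pos_of_mul_pos_left (N0.trans_le hX)
  have Y0 : 0 < #Y := Nat.pos_of_mul_pos_left (N0.trans_le hY)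
  have A0 : 0 < #A := Nat.pos_of_mul_pos_left ((Nat.mul_pos X0 Y0).trans_le hXY)
  have hA : A.Nonempty := card_pos.1 A0
  have hin' := incr_in_swap hin
  have g1 : (1 : ℝ) ≤ 1 + 1 / 5000 := by norm_num
  have m1 : ∀ t, K₁ * t ≤ (K₁ + K₂ + 6) * t := fun t => Nat.mul_le_mul_right _ (by omega)
  have m2 : ∀ t, K₂ * t ≤ (K₁ + K₂ + 6) * t := fun t => Nat.mul_le_mul_right _ (by omega)
  rcases h₁ W h2 A X Y D L c a hin hA c1 ca' hXY hY with h | ⟨X₀, sX, cX, rX, eX⟩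
  · exact Or.inl (incr_inc_mono h g1 (m1 _) (m1 _) (m1 _))
  rcases h₁ W h2 (A.image Prod.swap) Y X D L c a hin' (hA.image _) c1 ca'
    (by rw [incr_card_swap, mul_comm]; exact hXY) hX with h | ⟨Y₀, sY, cY, rY, eY⟩
  · exact Or.inr (incr_inc_mono h g1 (m1 _) (m1 _) (m1 _))
  have A1 : (0 : ℝ) < #A := by exact_mod_cast A0
  have nX : ∀ x ∈ X₀, (nb A D x).Nonempty := fun x hx => by
    have := rX x hx
    rw [nonempty_iff_ne_empty]
    intro e
    rw [e, card_empty, Nat.cast_zero, zero_mul] at this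
    linarith
  have nY : ∀ y ∈ Y₀, (nb (A.image Prod.swap) D y).Nonempty := fun y hy => by
    have := rY y hy
    rw [nonempty_iff_ne_empty]
    intro e
    rw [e, card_empty, Nat.cast_zero, zero_mul, incr_card_swap] at this
    linarith
  have sD : ∀ (B : Finset (W × W)) (x : W), nb B D x ⊆ D := fun _ _ => filter_subset _ _
  obtain ⟨E, hE⟩ : ∃ E : Finset (W × W), E = {q ∈ A | q.1 ∈ X₀ ∧ q.2 ∈ Y₀} := ⟨_, rfl⟩
  have mE : ∀ q ∈ E, q ∈ A ∧ q.1 ∈ X₀ ∧ q.2 ∈ Y₀ := fun q hq => by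
    rw [hE] at hq; exact mem_filter.1 hq
  have cE : #A ≤ 2 * #E := by
    have e1 : #{q ∈ A.image Prod.swap | q.1 ∈ Y₀} ≤ #{q ∈ A | q.2 ∈ Y₀} :=
      card_le_card_of_injOn Prod.swap (fun q hq => mem_coe.2 (mem_filter.2
        ⟨incr_mem_swap.1 (mem_filter.1 (mem_coe.1 hq)).1, (mem_filter.1 (mem_coe.1 hq)).2⟩))
        Prod.swap_injective.injOn
    have e2 := card_union_add_card_inter {q ∈ A | q.1 ∈ X₀} {q ∈ A | q.2 ∈ Y₀}
    have e3 : #({q ∈ A | q.1 ∈ X₀} ∪ {q ∈ A | q.2 ∈ Y₀}) ≤ #A :=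
      card_le_card (union_subset (filter_subset _ _) (filter_subset _ _))
    have e4 : #({q ∈ A | q.1 ∈ X₀} ∩ {q ∈ A | q.2 ∈ Y₀}) ≤ #E := by
      rw [hE]
      refine card_le_card fun q hq => ?_
      obtain ⟨k1, k2⟩ := mem_inter.1 hq
      exact mem_filter.2 ⟨(mem_filter.1 k1).1, (mem_filter.1 k1).2, (mem_filter.1 k2).2⟩
    rw [incr_card_swap] at eY
    omega
  have hneg : ∀ q ∈ E, ip D (incrU D (nb A D q.1)) (incrU D (nb (A.image Prod.swap) D q.2)) ≤
      -(1 / (2 : ℕ)) := by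
    intro q hq
    obtain ⟨k1, k2, k3⟩ := mE q hq
    have e1 := incr_ip (sD _ _) (sD _ _) (nX _ k2) (nY _ k3)
    have e2 : #(nb A D q.1 ∩ nb (A.image Prod.swap) D q.2) ≤ 1 := by
      refine card_le_one_iff_subset_singleton.2 ⟨q.1 + q.2, fun d hd => mem_singleton.2 ?_⟩
      obtain ⟨d1, d2⟩ := mem_inter.1 hd
      have d3 : (q.2 + d, q.2) ∈ A := incr_mem_swap.1 (mem_filter.1 d2).2
      have d4 : q.1 + q.2 + d = 0 := by
        refine hcf q.1 q.2 _ k1 ?_ ?_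
        · rw [show q.2 + (q.1 + q.2 + d) = q.2 + q.2 + (q.1 + d) by abel, h2, zero_add]
          exact (mem_filter.1 d1).2
        · rw [show q.1 + (q.1 + q.2 + d) = q.1 + q.1 + (q.2 + d) by abel, h2, zero_add]
          exact d3
      exact add_left_cancel (d4.trans (h2 _).symm)
    have e3 : 2 * (#D : ℝ) ≤ #(nb A D q.1) * #(nb (A.image Prod.swap) D q.2) := by
      refine incr_num (N := Fintype.card W) (p := 2 ^ a) A1 ?_ (Nat.cast_nonneg _)
        (Nat.cast_nonneg _) (Nat.cast_nonneg _) (Nat.cast_nonneg _) (rX _ k2)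
        (by simpa only [incr_card_swap] using rY _ k3) ?_ (by exact_mod_cast hX)
        (by exact_mod_cast hY) ?_ (by exact_mod_cast card_le_univ D)
      · exact le_self_pow₀ (by norm_num) (by omega)
      · have : #X * #Y ≤ 2 ^ a * #A :=
          hXY.trans (Nat.mul_le_mul_right _ (Nat.pow_le_pow_right two_pos ca'))
        exact_mod_cast this
      · have : (2 ^ a) ^ 6 ≤ Fintype.card W := by
          rw [← pow_mul]
          exact (Nat.pow_le_pow_right two_pos (by nlinarith)).trans hN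
        exact_mod_cast this
    have e4 : (0 : ℝ) < #(nb A D q.1) * #(nb (A.image Prod.swap) D q.2) :=
      mul_pos (by exact_mod_cast (nX _ k2).card_pos) (by exact_mod_cast (nY _ k3).card_pos)
    have e5 : (#(nb A D q.1 ∩ nb (A.image Prod.swap) D q.2) : ℝ) * #D /
        (#(nb A D q.1) * #(nb (A.image Prod.swap) D q.2)) ≤ 1 / 2 := by
      rw [div_le_iff₀ e4]
      have e6 : (#(nb A D q.1 ∩ nb (A.image Prod.swap) D q.2) : ℝ) ≤ 1 := by exact_mod_cast e2
      have e7 := mul_le_mul_of_nonneg_right e6 (Nat.cast_nonneg (α := ℝ) #D)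
      linarith
    push_cast
    linarith
  have gam : ∀ (B : Finset (W × W)) (S : Finset W) (lam : ℝ), (∀ x ∈ S, (nb B D x).Nonempty) →
      ∀ q ∈ {q ∈ S ×ˢ S | lam ≤ 1 + ip D (incrU D (nb B D q.1)) (incrU D (nb B D q.2))},
        lam * #(nb B D q.1) * #(nb B D q.2) ≤ #(nb B D q.1 ∩ nb B D q.2) * (#D : ℝ) := by
    intro B S lam hS q hq
    obtain ⟨k1, k2⟩ := mem_filter.1 hq
    obtain ⟨k3, k4⟩ := mem_product.1 k1
    rw [incr_ip (sD _ _) (sD _ _) (hS _ k3) (hS _ k4), le_div_iff₀ (mul_pos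
      (by exact_mod_cast (hS _ k3).card_pos) (by exact_mod_cast (hS _ k4).card_pos))] at k2
    linarith
  have L2 : (1 : ℝ) ≤ 2 ^ L := one_le_pow₀ (by norm_num)
  obtain ⟨lam, hl, h | h⟩ := cnt X₀ Y₀ D (fun x => incrU D (nb A D x))
    (fun y => incrU D (nb (A.image Prod.swap) D y)) E
    (fun q hq => mem_product.2 (mE q hq).2) (e := 2) (k := c + 1) (by norm_num) (by omega)
    (card_pos.1 (by omega)) (card_pos.1 (by omega))
    ((Nat.mul_le_mul (card_le_card sX) (card_le_card sY)).trans (hXY.trans (by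
      rw [pow_succ, mul_assoc]; exact Nat.mul_le_mul_left _ cE))) hneg
    (fun x hx x' hx' => by rw [incr_ip (sD _ _) (sD _ _) (nX _ hx) (nX _ hx')]; positivity)
    (fun y hy y' hy' => by rw [incr_ip (sD _ _) (sD _ _) (nY _ hy) (nY _ hy')]; positivity)
  · exact Or.inl (incr_inc_mono (h₂ W h2 A X Y D X₀ _ L c a lam hin L1 Lc ca sX cX rX
      (le_trans (by norm_num) hl) (filter_subset _ _) h (gam A X₀ lam nX) hXYD hX hY hD
      (uY.mono (m2 _) le_rfl L2 (m2 _))) g1 (m2 _) (m2 _) (m2 _))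
  · exact Or.inr (incr_inc_mono (h₂ W h2 (A.image Prod.swap) Y X D Y₀ _ L c a lam hin' L1 Lc ca sY
      cY rY (le_trans (by norm_num) hl) (filter_subset _ _) h (gam _ Y₀ lam nY)
      (by rw [incr_card_swap, mul_comm #Y]; exact hXYD) hY hX hD
      (uX.mono (m2 _) le_rfl L2 (m2 _))) g1 (m2 _) (m2 _) (m2 _))

theorem incr : ∃ l₀ : ℝ, 1 < l₀ ∧ l₀ ≤ 2 ∧ ∃ K : ℕ, ∀ (W : Type) [AddCommGroup W] [Fintype W]
    [DecidableEq W], (∀ x : W, x + x = 0) → ∀ (A : Finset (W × W)) (X Y D : Finset W) (L c a : ℕ),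
    CF A → In A X Y D → 1 ≤ L → L ≤ c → c * L ≤ a → tri D X Y ≤ 2 ^ L * #A →
    #X * #Y ≤ 2 ^ c * #A → Fintype.card W ≤ 2 ^ a * #X → Fintype.card W ≤ 2 ^ a * #Y →
    2 ^ (K * a) ≤ Fintype.card W → Up X (K * a) l₀ (K * c) → Up Y (K * a) l₀ (K * c) →
    Up X (K * a) (2 ^ L) (K * a) → Up Y (K * a) (2 ^ L) (K * a) →
    Better A X Y D (1 + 1 / 5000) (K * c) (K * L) := by
  obtain ⟨l, l1, K₁, h₁⟩ := low (show (0 : ℝ) < 1 / 10000 by norm_num)
  obtain ⟨K₂, h₂⟩ := inc_or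
  have g1 : (1 : ℝ) < 1 + 1 / 5000 := by norm_num
  obtain ⟨K₃, h₃⟩ := better_of_inc g1 K₂
  refine ⟨min l (1 + 1 / 5000), lt_min l1 g1, (min_le_right _ _).trans (by norm_num),
    2 * K₁ + K₂ + K₃ + 2,
    fun W _ _ _ h2 A X Y D L c a hcf hin L1 Lc ca hS hXY hX hY hN uX uY vX vY => ?_⟩
  have c1 : 1 ≤ c := L1.trans Lc
  have a1 : 1 ≤ a := c1.trans (le_trans (Nat.le_mul_of_pos_right c L1) ca)
  have N0 : 0 < Fintype.card W := Fintype.card_pos
  have X0 : 0 < #X := Nat.pos_of_mul_pos_left (N0.trans_le hX)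
  have Y0 : 0 < #Y := Nat.pos_of_mul_pos_left (N0.trans_le hY)
  have A0 : 0 < #A := Nat.pos_of_mul_pos_left ((Nat.mul_pos X0 Y0).trans_le hXY)
  have hA : A.Nonempty := card_pos.1 A0
  have D0 : 0 < #D := by
    obtain ⟨q, hq⟩ := hA
    exact card_pos.2 ⟨_, (hin q hq).2.2⟩
  have m0 : ∀ t, t ≤ (2 * K₁ + K₂ + K₃ + 2) * t := fun t => Nat.le_mul_of_pos_left _ (by omega)
  have m2 : ∀ t, K₂ * t ≤ (2 * K₁ + K₂ + K₃ + 2) * t := fun t => Nat.mul_le_mul_right _ (by omega)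
  have m3 : ∀ t, K₃ * t ≤ (2 * K₁ + K₂ + K₃ + 2) * t := fun t => Nat.mul_le_mul_right _ (by omega)
  have m1 : K₁ * (c + 1) ≤ (2 * K₁ + K₂ + K₃ + 2) * c := by nlinarith
  have hAS : #A ≤ tri D X Y := by
    rw [tri_eq]
    exact card_le_card fun q hq => mem_filter.2
      ⟨mem_product.2 ⟨(hin q hq).1, (hin q hq).2.1⟩, (hin q hq).2.2⟩
  have hD : Fintype.card W ≤ 2 ^ (c + 1) * #D := by
    have X1 : (0 : ℝ) < #X := by exact_mod_cast X0
    have Y1 : (0 : ℝ) < #Y := by exact_mod_cast Y0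
    have D1 : (0 : ℝ) < #D := by exact_mod_cast D0
    obtain ⟨lam, hlam⟩ : ∃ lam : ℝ, lam * #Y * #X * #D = tri D X Y * (Fintype.card W : ℝ) :=
      ⟨tri D X Y * (Fintype.card W : ℝ) / (#Y * #X * #D), by field_simp⟩
    have e1 : (#X : ℝ) * #Y ≤ 2 ^ c * tri D X Y := by
      exact_mod_cast hXY.trans (Nat.mul_le_mul_left _ hAS)
    have e2 : (Fintype.card W : ℝ) ≤ 2 ^ c * lam * #D := by
      refine le_of_mul_le_mul_left ?_ (mul_pos X1 Y1)
      calc (#X : ℝ) * #Y * Fintype.card W ≤ 2 ^ c * tri D X Y * Fintype.card W :=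
            mul_le_mul_of_nonneg_right e1 (Nat.cast_nonneg _)
        _ = 2 ^ c * (lam * #Y * #X * #D) := by rw [hlam]; ring
        _ = _ := by ring
    rcases le_or_gt 2 lam with hl | hl
    · exfalso
      have e3 := uY lam ((min_le_right _ _).trans (le_trans (by norm_num) hl)) X D
        (hX.trans (Nat.mul_le_mul_right _ (Nat.pow_le_pow_right two_pos (m0 a)))) (e2.trans (by
          refine mul_le_mul_of_nonneg_right ?_ D1.le
          calc 2 ^ c * lam ≤ lam ^ c * lam :=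
                mul_le_mul_of_nonneg_right (pow_le_pow_left₀ (by norm_num) hl c) (by linarith)
            _ = lam ^ (c + 1) := by ring
            _ ≤ _ := pow_le_pow_right₀ (by linarith) (by nlinarith)))
      rw [hlam, tri_comm Y X D, tri_rot h2 Y D X, tri_comm D Y X] at e3
      exact lt_irrefl _ e3
    · have : (Fintype.card W : ℝ) ≤ 2 ^ (c + 1) * #D := by
        refine e2.trans (mul_le_mul_of_nonneg_right ?_ D1.le)
        rw [pow_succ]
        exact mul_le_mul_of_nonneg_left hl.le (by positivity)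
      exact_mod_cast this
  have hlow := h₁ W h2 X Y D a (c + 1) (by omega) hX hY hD
    (uX.mono (m0 a) (min_le_left _ _) l1.le m1) (uY.mono (m0 a) (min_le_left _ _) l1.le m1)
  have P0 : (0 : ℝ) ≤ #X * #Y * #D := by positivity
  have hg : (#X : ℝ) * #Y * #D ≤ (1 + 1 / 5000) * tri D X Y * Fintype.card W := by nlinarith
  have hXYD : #X * #Y * #D ≤ 2 ^ (L + 1) * #A * Fintype.card W := by
    have e1 : (#X : ℝ) * #Y * #D ≤ 2 * tri D X Y * Fintype.card W := by nlinarith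
    have e2 : #X * #Y * #D ≤ 2 * tri D X Y * Fintype.card W := by exact_mod_cast e1
    refine e2.trans (Nat.mul_le_mul_right _ ?_)
    rw [pow_succ', mul_assoc]
    exact Nat.mul_le_mul_left _ hS
  have L2 : (1 : ℝ) ≤ 2 ^ L := one_le_pow₀ (by norm_num)
  rcases h₂ W h2 A X Y D L c a hcf hin L1 Lc ca hXY hXYD hX hY hD
    ((Nat.pow_le_pow_right two_pos (m2 a)).trans hN) (vX.mono (m2 _) le_rfl L2 (m2 _))
    (vY.mono (m2 _) le_rfl L2 (m2 _)) with h | h
  · exact incr_better_mono (h₃ W h2 A X Y D L c a hin hA L1 Lc a1 hX hD hg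
      (uY.mono (m3 _) (min_le_right _ _) g1.le (m3 _)) h) g1.le (m2 _) (m2 _)
  · exact incr_better_mono (incr_better_swap (h₃ W h2 _ Y X D L c a (incr_in_swap hin) (hA.image _)
      L1 Lc a1 hY hD (by rw [tri_comm D Y, mul_comm (#Y : ℝ)]; exact hg)
      (uX.mono (m3 _) (min_le_right _ _) g1.le (m3 _)) h)) g1.le (m2 _) (m2 _)

end Pool.Agent.P.MP_db4732_co.Q
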