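import Pool.Agent.P.MP_db4732_co.Q.Defs

/-! Cosets and transport to a subgroup. -/

set_option autoImplicit false

namespace Pool.Agent.P.MP_db4732_co.Q

open Finset

variable {W : Type} [AddCommGroup W] [Fintype W] [DecidableEq W]

omit [Fintype W] [DecidableEq W] in
theorem trans_cancel (h2 : ∀ x : W, x + x = 0) (a b : W) : a + b + b = a := by
  rw [add_assoc, h2, add_zero]

omit [Fintype W] [DecidableEq W] in
theorem trans_add (h2 : ∀ x : W, x + x = 0) (a b c : W) : a + b + (b + c) = a + c := by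
  rw [← add_assoc, trans_cancel h2]

omit [DecidableEq W] in
theorem cs_subset (h2 : ∀ x : W, x + x = 0) {V V' : AddSubgroup W} (hV : V' ≤ V) {z₀ z : W}
    (hz : z ∈ cs V z₀) : cs V' z ⊆ cs V z₀ := fun x hx => by
  rw [mem_cs] at hx hz ⊢
  rw [← trans_add h2 x z z₀]
  exact V.add_mem (hV hx) hz

/-- Averaging over cosets. -/
theorem sum_cs (h2 : ∀ x : W, x + x = 0) {V V' : AddSubgroup W} (hV : V' ≤ V) (z₀ : W)
    {X : Finset W} (hX : X ⊆ cs V z₀) (φ : W → ℝ) :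
    ∑ z ∈ cs V z₀, ∑ x ∈ X ∩ cs V' z, φ x = Nat.card V' * ∑ x ∈ X, φ x := by
  rw [sum_comm' (t' := X) (s' := fun x => cs V' x), mul_sum]
  · exact sum_congr rfl fun x _ => by rw [sum_const, card_cs, nsmul_eq_mul]
  · intro z x
    rw [mem_inter, mem_cs (V := V'), mem_cs (V := V'), add_comm z x]
    refine ⟨fun h => ⟨h.2.2, h.2.1⟩, fun h => ⟨cs_subset h2 hV (hX h.2) ?_, h.2, h.1⟩⟩
    rw [mem_cs, add_comm]
    exact h.1

/-- A densest coset at rate `θ` is spread. -/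
theorem exists_spread (h2 : ∀ x : W, x + x = 0) (θ : ℝ) (V : AddSubgroup W) (z₀ : W)
    {Y : Finset W} (hY : Y.Nonempty) (hYV : Y ⊆ cs V z₀) :
    ∃ V' ≤ V, ∃ z : W, (Y ∩ cs V' z).Nonempty ∧ Spread 1 θ V' (Y ∩ cs V' z) ∧
      (#Y : ℝ) * (Nat.card V' : ℝ) ^ (1 - θ) ≤ #(Y ∩ cs V' z) * (Nat.card V : ℝ) ^ (1 - θ) := by
  have _ := h2
  have hpos : ∀ U : AddSubgroup W, (0 : ℝ) < (Nat.card U : ℝ) ^ (1 - θ) := fun U =>
    Real.rpow_pos_of_pos (by exact_mod_cast Nat.card_pos) _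
  have : Nonempty ({U : AddSubgroup W // U ≤ V} × W) := ⟨(⟨V, le_rfl⟩, z₀)⟩
  obtain ⟨⟨⟨V', hV'⟩, z⟩, hmax⟩ := Finite.exists_max
    (fun q : {U : AddSubgroup W // U ≤ V} × W =>
      (#(Y ∩ cs q.1.1 q.2) : ℝ) / (Nat.card q.1.1 : ℝ) ^ (1 - θ))
  have h0 := hmax (⟨V, le_rfl⟩, z₀)
  simp only [inter_eq_left.2 hYV] at h0
  rw [div_le_div_iff₀ (hpos _) (hpos _)] at h0
  refine ⟨V', hV', z, ?_, fun U hU w => ?_, h0⟩
  · rw [← card_pos]
    have h1 : (0 : ℝ) < #Y := by exact_mod_cast hY.card_pos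
    have h3 := (mul_pos h1 (hpos V')).trans_le h0
    exact_mod_cast (mul_pos_iff_of_pos_right (hpos V)).1 h3
  · have h1 := hmax (⟨U, hU.trans hV'⟩, w)
    simp only at h1
    rw [div_le_div_iff₀ (hpos _) (hpos _)] at h1
    rw [one_mul]
    refine le_trans (mul_le_mul_of_nonneg_right ?_ (hpos V').le) h1
    exact_mod_cast card_le_card (inter_subset_inter_right inter_subset_left)

theorem card_pull (h2 : ∀ x : W, x + x = 0) (V : AddSubgroup W) [Fintype V] (z : W)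
    (Y : Finset W) : #(pull V z Y) = #(Y ∩ cs V z) := by
  refine card_bij (fun v _ => (v : W) + z) (fun v hv => ?_)
    (fun _ _ _ _ h => Subtype.ext (add_right_cancel h)) fun y hy => ?_
  · rw [mem_inter, mem_cs, trans_cancel h2]
    exact ⟨mem_pull.1 hv, v.2⟩
  · rw [mem_inter, mem_cs] at hy
    exact ⟨⟨y + z, hy.2⟩, mem_pull.2 (by simpa only [trans_cancel h2] using hy.1),
      trans_cancel h2 y z⟩

theorem tri_pull (h2 : ∀ x : W, x + x = 0) (V : AddSubgroup W) [Fintype V] (b c : W)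
    (Y B C : Finset W) :
    tri (pull V (b + c) Y) (pull V b B) (pull V c C) = tri Y (B ∩ cs V b) (C ∩ cs V c) := by
  rw [tri_eq, tri_eq]
  refine card_bij (fun q _ => ((q.1 : W) + b, (q.2 : W) + c)) (fun q hq => ?_)
    (fun _ _ _ _ h => Prod.ext (Subtype.ext (add_right_cancel (Prod.ext_iff.1 h).1))
      (Subtype.ext (add_right_cancel (Prod.ext_iff.1 h).2))) fun q hq => ?_
  · simp only [mem_filter, mem_product, mem_pull, mem_inter, mem_cs, trans_cancel h2,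
      AddSubgroup.coe_add] at hq ⊢
    exact ⟨⟨⟨hq.1.1, q.1.2⟩, hq.1.2, q.2.2⟩, by rw [add_add_add_comm]; exact hq.2⟩
  · simp only [mem_filter, mem_product, mem_inter, mem_cs] at hq
    refine ⟨(⟨q.1 + b, hq.1.1.2⟩, ⟨q.2 + c, hq.1.2.2⟩), ?_,
      Prod.ext (trans_cancel h2 _ _) (trans_cancel h2 _ _)⟩
    simp only [mem_filter, mem_product, mem_pull, trans_cancel h2, AddSubgroup.coe_add]
    exact ⟨⟨hq.1.1.1, hq.1.2.1⟩, by rw [add_add_add_comm q.1, trans_cancel h2]; exact hq.2⟩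

theorem Spread.pull (h2 : ∀ x : W, x + x = 0) {V : AddSubgroup W} [Fintype V] {z : W}
    {Y : Finset W} {ρ θ : ℝ} (h : Spread ρ θ V (Y ∩ cs V z)) : Spread ρ θ ⊤ (pull V z Y) := by
  intro U _ w
  have h1 := h (U.map V.subtype) (AddSubgroup.map_subtype_le U) ((w : W) + z)
  have e1 : Nat.card (U.map V.subtype) = Nat.card U :=
    AddSubgroup.card_map_of_injective V.subtype_injective
  have e2 : #(Q.pull V z Y ∩ cs U w) = #(Y ∩ cs V z ∩ cs (U.map V.subtype) ((w : W) + z)) := by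
    refine card_bij (fun v _ => (v : W) + z) (fun v hv => ?_)
      (fun _ _ _ _ h => Subtype.ext (add_right_cancel h)) fun y hy => ?_
    · simp only [mem_inter, mem_cs, mem_pull, trans_cancel h2] at hv ⊢
      refine ⟨⟨hv.1, v.2⟩, v + w, hv.2, ?_⟩
      rw [add_comm (w : W), trans_add h2]
      rfl
    · simp only [mem_inter, mem_cs] at hy
      obtain ⟨⟨a1, a2⟩, u, hu, a3⟩ := hy
      refine ⟨⟨y + z, a2⟩, ?_, trans_cancel h2 y z⟩
      simp only [mem_inter, mem_cs, mem_pull, trans_cancel h2]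
      refine ⟨a1, ?_⟩
      have : (⟨y + z, a2⟩ + w : V) = u := Subtype.ext (by
        rw [AddSubgroup.coe_add, add_assoc, add_comm z]
        exact a3.symm)
      rw [this]
      exact hu
  rw [card_top, ← Nat.card_eq_fintype_card, card_pull h2, e2, ← e1]
  exact h1

/-- The trace of a spread set on a coset. -/
theorem Spread.restrict {V : AddSubgroup W} {z : W} {Y : Finset W} {κ ρ θ : ℝ}
    (h : Spread κ θ ⊤ Y) (hρ : κ * #Y * (Nat.card V : ℝ) ^ (1 - θ) ≤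
      ρ * #(Y ∩ cs V z) * (Fintype.card W : ℝ) ^ (1 - θ)) : Spread ρ θ V (Y ∩ cs V z) := by
  intro U _ w
  have h1 := h U le_top w
  rw [card_top] at h1
  have hN : (0 : ℝ) < (Fintype.card W : ℝ) ^ (1 - θ) :=
    Real.rpow_pos_of_pos (by exact_mod_cast Fintype.card_pos) _
  have h3 : (#(Y ∩ cs V z ∩ cs U w) : ℝ) ≤ #(Y ∩ cs U w) := by
    exact_mod_cast card_le_card (inter_subset_inter_right inter_subset_left)
  have hV : (0 : ℝ) ≤ (Nat.card V : ℝ) ^ (1 - θ) := by positivity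
  have hU : (0 : ℝ) ≤ (Nat.card U : ℝ) ^ (1 - θ) := by positivity
  refine le_of_mul_le_mul_right ?_ hN
  calc (#(Y ∩ cs V z ∩ cs U w) : ℝ) * (Nat.card V : ℝ) ^ (1 - θ) * (Fintype.card W : ℝ) ^ (1 - θ)
      ≤ #(Y ∩ cs U w) * (Nat.card V : ℝ) ^ (1 - θ) * (Fintype.card W : ℝ) ^ (1 - θ) := by gcongr
    _ = #(Y ∩ cs U w) * (Fintype.card W : ℝ) ^ (1 - θ) * (Nat.card V : ℝ) ^ (1 - θ) := by ring
    _ ≤ κ * #Y * (Nat.card U : ℝ) ^ (1 - θ) * (Nat.card V : ℝ) ^ (1 - θ) := by gcongr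
    _ = κ * #Y * (Nat.card V : ℝ) ^ (1 - θ) * (Nat.card U : ℝ) ^ (1 - θ) := by ring
    _ ≤ ρ * #(Y ∩ cs V z) * (Fintype.card W : ℝ) ^ (1 - θ) * (Nat.card U : ℝ) ^ (1 - θ) := by
        gcongr
    _ = _ := by ring

/-- Transport of a corner-free set. -/
theorem exists_pull (h2 : ∀ x : W, x + x = 0) (V : AddSubgroup W) [Fintype V] (x₀ y₀ : W)
    {A : Finset (W × W)} (hA : CF A) {X Y : Finset W} (D : Finset W) (hX : X ⊆ cs V x₀)
    (hY : Y ⊆ cs V y₀) : ∃ A' : Finset (V × V), CF A' ∧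
      In A' (pull V x₀ X) (pull V y₀ Y) (pull V (x₀ + y₀) D) ∧ #A' = #(res A X Y D) := by
  refine ⟨univ.filter fun q => ((q.1 : W) + x₀, (q.2 : W) + y₀) ∈ res A X Y D,
    fun x y z a b c => ?_, fun q hq => ?_, ?_⟩
  · simp only [mem_filter, mem_univ, true_and, res, AddSubgroup.coe_add] at a b c
    refine Subtype.ext (hA (x + x₀) (y + y₀) z a.1 ?_ ?_)
    · rw [add_right_comm]
      exact b.1
    · rw [add_right_comm]
      exact c.1
  · simp only [mem_filter, mem_univ, true_and, res] at hq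
    simp only [mem_pull, AddSubgroup.coe_add]
    exact ⟨hq.2.1, hq.2.2.1, by rw [add_add_add_comm]; exact hq.2.2.2⟩
  · refine card_bij (fun q _ => ((q.1 : W) + x₀, (q.2 : W) + y₀)) (fun q hq => (mem_filter.1 hq).2)
      (fun _ _ _ _ h => Prod.ext (Subtype.ext (add_right_cancel (Prod.ext_iff.1 h).1))
        (Subtype.ext (add_right_cancel (Prod.ext_iff.1 h).2))) fun q hq => ?_
    have hq' := (mem_filter.1 hq).2
    refine ⟨(⟨q.1 + x₀, mem_cs.1 (hX hq'.1)⟩, ⟨q.2 + y₀, mem_cs.1 (hY hq'.2.1)⟩), ?_,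
      Prod.ext (trans_cancel h2 _ _) (trans_cancel h2 _ _)⟩
    simpa only [mem_filter, mem_univ, true_and, trans_cancel h2] using hq

end Pool.Agent.P.MP_db4732_co.Q
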