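import Pool.Agent.P.MP_db4732_co.Q.Sym
import Pool.Agent.P.MP_db4732_co.Q.Trans

/-! Spread sets have no dense rectangles. -/

set_option autoImplicit false

namespace Pool.Agent.P.MP_db4732_co.Q

open Finset

theorem km_pow {N v M : ℕ} {θ : ℝ} (hθ : 0 ≤ θ) (h : N ≤ 2 ^ M * v) :
    (N : ℝ) ^ θ ≤ Real.exp (θ * M) * (v : ℝ) ^ θ := by
  have h1 : (N : ℝ) ≤ Real.exp M * v := by
    have h2 : (N : ℝ) ≤ 2 ^ M * v := by exact_mod_cast h
    refine h2.trans (mul_le_mul_of_nonneg_right ?_ (Nat.cast_nonneg _))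
    rw [← Real.exp_one_pow]
    exact pow_le_pow_left₀ zero_le_two (by linarith [Real.add_one_le_exp 1]) _
  refine (Real.rpow_le_rpow (Nat.cast_nonneg _) h1 hθ).trans_eq ?_
  rw [Real.mul_rpow (Real.exp_pos _).le (Nat.cast_nonneg _), ← Real.exp_mul, mul_comm θ]

theorem km_split {x : ℝ} (hx : 0 < x) (θ : ℝ) : x ^ θ * x ^ (1 - θ) = x := by
  rw [← Real.rpow_add hx]; simp

theorem km_coset {W : Type} [AddCommGroup W] [Fintype W] [DecidableEq W] {Y : Finset W}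
    {ρ θ g : ℝ} {M : ℕ} (h : Spread ρ θ ⊤ Y) (hY : Y.Nonempty) (hρ : 0 ≤ ρ) (hθ : 0 ≤ θ)
    {V : AddSubgroup W} {z : W} (hV : Fintype.card W ≤ 2 ^ M * Nat.card V)
    (hg : g * #Y * Nat.card V ≤ #(Y ∩ cs V z) * (Fintype.card W : ℝ)) :
    g ≤ ρ * Real.exp (θ * M) := by
  have h1 := h V le_top z
  rw [card_top] at h1
  have hv : (0 : ℝ) < Nat.card V := by exact_mod_cast Nat.card_pos
  have hN : (0 : ℝ) < Fintype.card W := by exact_mod_cast Fintype.card_pos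
  have hy : (0 : ℝ) < #Y := by exact_mod_cast card_pos.2 hY
  have h2 := km_pow hθ hV
  refine le_of_mul_le_mul_right ?_ (mul_pos hy hv)
  calc g * (#Y * Nat.card V) = g * #Y * Nat.card V := by ring
    _ ≤ #(Y ∩ cs V z) * (Fintype.card W : ℝ) := hg
    _ = #(Y ∩ cs V z) * (Fintype.card W : ℝ) ^ (1 - θ) * (Fintype.card W : ℝ) ^ θ := by
      rw [mul_assoc, mul_comm (_ ^ (1 - θ)), km_split hN]
    _ ≤ ρ * #Y * (Nat.card V : ℝ) ^ (1 - θ) * (Real.exp (θ * M) * (Nat.card V : ℝ) ^ θ) :=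
      mul_le_mul h1 h2 (Real.rpow_nonneg hN.le _) (by positivity)
    _ = ρ * Real.exp (θ * M) * (#Y * ((Nat.card V : ℝ) ^ θ * (Nat.card V : ℝ) ^ (1 - θ))) := by ring
    _ = _ := by rw [km_split hv]

theorem km_pick {u₀ : ℝ} (hu : 1 < u₀) : ∃ K : ℕ, ∀ (ι : Type) (s : Finset ι) (c t : ι → ℝ)
    (m u : ℝ), s.Nonempty → 0 < m → u₀ ≤ u → (∀ z, 0 ≤ c z) → (∀ z, 0 ≤ t z) →
    (∀ z, c z = 0 → t z = 0) → ∑ z ∈ s, c z = #s * m → u ^ 6 * (#s * m) ≤ ∑ z ∈ s, t z →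
    ∃ z, ∃ σ : ℝ, u ^ 2 ≤ σ ∧ 0 < c z ∧ σ ^ 2 * c z ≤ t z ∧ m ≤ σ ^ K * c z := by
  have hη : 0 < u₀ - 1 := by linarith
  obtain ⟨K, hK⟩ := pow_unbounded_of_one_lt (2 / (u₀ - 1)) hu
  rw [div_lt_iff₀ hη] at hK
  refine ⟨K + 2, fun ι s c t m u hs hm huu hc ht h0 h1 h2 => ?_⟩
  by_contra hcon
  push Not at hcon
  have hu1 : 1 ≤ u := by linarith
  have h3 : ∀ z ∈ s, t z ≤ u ^ 4 * c z + (u₀ - 1) / 2 * m := by
    intro z _
    have hm' : 0 ≤ (u₀ - 1) / 2 * m := by positivity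
    have hc' : 0 ≤ u ^ 4 * c z := mul_nonneg (by positivity) (hc z)
    rcases (hc z).eq_or_lt with h | h
    · rw [h0 z h.symm]; linarith
    have hq : √(t z / c z) ^ 2 * c z = t z := by
      rw [Real.sq_sqrt (div_nonneg (ht z) h.le), div_mul_cancel₀ _ h.ne']
    generalize hσ : √(t z / c z) = σ at hq
    have hσ0 : 0 ≤ σ := hσ ▸ Real.sqrt_nonneg _
    rcases le_or_gt (u ^ 2) σ with h4 | h4
    · have h5 := hcon z σ h4 h hq.le
      have h6 : u₀ ^ K ≤ σ ^ K := pow_le_pow_left₀ (by linarith) (by nlinarith) _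
      have h7 : u₀ ^ K * t z ≤ m := by
        calc u₀ ^ K * t z ≤ σ ^ K * t z := mul_le_mul_of_nonneg_right h6 (ht z)
          _ = σ ^ (K + 2) * c z := by rw [← hq]; ring
          _ ≤ m := h5.le
      nlinarith [mul_le_mul_of_nonneg_right hK.le (ht z), mul_le_mul_of_nonneg_left h7 hη.le]
    · have h5 : σ ^ 2 ≤ (u ^ 2) ^ 2 := pow_le_pow_left₀ hσ0 h4.le _
      nlinarith [mul_le_mul_of_nonneg_right h5 h.le]
  have h4 := sum_le_sum h3
  rw [sum_add_distrib, ← mul_sum, h1, sum_const, nsmul_eq_mul] at h4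
  have hn : (0 : ℝ) < #s * m := mul_pos (by exact_mod_cast card_pos.2 hs) hm
  have h5 : u ^ 4 + (u₀ - 1) / 2 < u ^ 6 := by
    have h6 : 1 ≤ u ^ 4 := one_le_pow₀ hu1
    have h7 : u₀ - 1 ≤ u ^ 2 - 1 := by nlinarith
    nlinarith [mul_le_mul h6 h7 hη.le (by linarith : (0 : ℝ) ≤ u ^ 4)]
  nlinarith [mul_lt_mul_of_pos_right h5 hn]

theorem km_inner {ε σ₀ : ℝ} (hε : 0 < ε) (hσ₀ : 1 < σ₀) : ∃ K : ℕ, ∀ (W : Type) [AddCommGroup W]
    [Fintype W] [DecidableEq W], (∀ x : W, x + x = 0) → ∀ (Y B C : Finset W) (a p j : ℕ)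
    (σ l ρ θ η : ℝ), 1 ≤ a → 1 ≤ p → 1 ≤ j → σ₀ ≤ σ → 1 ≤ l → 0 ≤ ρ → ρ ≤ l → 0 ≤ θ → θ ≤ η →
    Fintype.card W ≤ 2 ^ a * #Y → Fintype.card W ≤ 2 ^ a * #B →
    (Fintype.card W : ℝ) ≤ σ ^ p * #C → σ * l * #Y * #B * #C ≤ tri Y B C * (Fintype.card W : ℝ) →
    Spread ρ θ ⊤ Y → Spread 1 η ⊤ B → η * (K * a ^ 2 * p ^ 2) ≤ j → η * (K * a ^ 3) ≤ 1 →
    (1 - 3 * ε) * l ≤ ρ * Real.exp (θ * (K * j ^ 2 * a ^ 2 * p ^ 2)) := by
  obtain ⟨K₁, hsift⟩ := sift hε hσ₀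
  obtain ⟨K₂, hsym⟩ := nsq_of_spread
  obtain ⟨K₃, hcore⟩ := core hε
  obtain ⟨k₁, hk₁⟩ := pow_unbounded_of_one_lt (4 / ε) (one_lt_two : (1 : ℝ) < 2)
  rw [div_lt_iff₀ hε] at hk₁
  refine ⟨(K₂ + K₃ * (k₁ + 1) ^ 2) * (K₁ + 1) ^ 2, fun W _ _ _ h2 Y B C a p j σ l ρ θ η ha hp hj hσ
    hl hρ hρl hθ hθη hY hB hC ht sY sB e1 e2 => ?_⟩
  obtain ⟨A₁, A₂, hA₁, hA₂, hbad⟩ := hsift W h2 Y B C a p σ l ha hp hσ hl hY hB hC ht
  have hN : 0 < Fintype.card W := Fintype.card_pos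
  have hYne : Y.Nonempty := card_pos.1 (Nat.pos_of_mul_pos_left (hN.trans_le hY))
  have hBne : B.Nonempty := card_pos.1 (Nat.pos_of_mul_pos_left (hN.trans_le hB))
  have hm : 2 ^ (K₁ * a * p) ≤ 2 ^ ((K₁ + 1) * a * p) := Nat.pow_le_pow_right two_pos
    (Nat.mul_le_mul_right _ (Nat.mul_le_mul_right _ (Nat.le_succ _)))
  have hA₁' := hA₁.trans (Nat.mul_le_mul_right _ hm)
  have hA₂' := hA₂.trans (Nat.mul_le_mul_right _ hm)
  have hl1 : 1 ≤ (K₁ + 1) * a * p := Nat.mul_pos (Nat.mul_pos (Nat.succ_pos _) ha) hp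
  have hη : 0 ≤ η := hθ.trans hθη
  have hKK : (K₂ : ℝ) * (K₁ + 1) ^ 2 ≤ (((K₂ + K₃ * (k₁ + 1) ^ 2) * (K₁ + 1) ^ 2 : ℕ) : ℝ) := by
    push_cast
    exact mul_le_mul_of_nonneg_right (le_add_of_nonneg_right (by positivity)) (by positivity)
  have f1 : η * (K₂ * (((K₁ + 1) * a * p : ℕ) : ℝ) ^ 2) ≤ j := by
    refine le_trans (mul_le_mul_of_nonneg_left ?_ hη) e1
    calc (K₂ : ℝ) * (((K₁ + 1) * a * p : ℕ) : ℝ) ^ 2 = K₂ * (K₁ + 1) ^ 2 * a ^ 2 * p ^ 2 := by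
          push_cast; ring
      _ ≤ _ := mul_le_mul_of_nonneg_right (mul_le_mul_of_nonneg_right hKK (by positivity))
          (by positivity)
  have f2 : η * (K₂ * (a : ℝ) ^ 3) ≤ 1 := by
    refine le_trans (mul_le_mul_of_nonneg_left (mul_le_mul_of_nonneg_right (le_trans ?_ hKK)
      (by positivity)) hη) e2
    exact le_mul_of_one_le_right (Nat.cast_nonneg _)
      (one_le_pow₀ (le_add_of_nonneg_left (Nat.cast_nonneg _)))
  have n1 := hsym W h2 Y A₁ a _ j ρ θ ha hl1 hθ hY hA₁' sY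
    ((mul_le_mul_of_nonneg_right hθη (by positivity)).trans f1)
    ((mul_le_mul_of_nonneg_right hθη (by positivity)).trans f2)
  have n2 := hsym W h2 B A₂ a _ j 1 η ha hl1 hη hB hA₂' sB f1 f2
  have n3 : 0 ≤ nsq B A₂ := by unfold nsq; positivity
  have hk : j + k₁ ≤ (k₁ + 1) * j := by nlinarith
  obtain ⟨V, z, hV, hg⟩ := hcore W h2 Y B A₁ A₂ _ ((k₁ + 1) * j) l hl1
    (Nat.mul_pos (Nat.succ_pos _) hj) hYne hBne hA₁' hA₂' (by linarith) hbad (by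
      have h4 : (2 : ℝ) ^ j * 2 ^ k₁ ≤ 2 ^ ((k₁ + 1) * j) := by
        rw [← pow_add]; exact pow_le_pow_right₀ one_le_two hk
      have h5 : (0 : ℝ) < 2 ^ j := by positivity
      have h6 : 4 * l * 2 ^ j ≤ ε * l * 2 ^ ((k₁ + 1) * j) := by
        calc 4 * l * 2 ^ j ≤ 2 ^ k₁ * ε * l * 2 ^ j := mul_le_mul_of_nonneg_right
              (mul_le_mul_of_nonneg_right hk₁.le (by linarith)) h5.le
          _ = ε * l * (2 ^ j * 2 ^ k₁) := by ring
          _ ≤ _ := mul_le_mul_of_nonneg_left h4 (mul_nonneg hε.le (by linarith))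
      calc nsq Y A₁ * nsq B A₂ ≤ 4 * ρ * 2 ^ j * (4 * 1 * 2 ^ j) :=
            mul_le_mul n1 n2 n3 (by positivity)
        _ = ρ * (4 * 2 ^ j) ^ 2 := by ring
        _ ≤ l ^ 2 * (4 * 2 ^ j) ^ 2 := mul_le_mul_of_nonneg_right (by nlinarith) (by positivity)
        _ = (4 * l * 2 ^ j) ^ 2 := by ring
        _ ≤ _ := pow_le_pow_left₀ (by positivity) h6 2)
  refine (km_coset sY hYne hρ hθ hV hg).trans (mul_le_mul_of_nonneg_left
    (Real.exp_le_exp.2 (mul_le_mul_of_nonneg_left ?_ hθ)) hρ)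
  have h7 : K₃ * ((k₁ + 1) * j) ^ 2 * ((K₁ + 1) * a * p) ^ 2 ≤
      (K₂ + K₃ * (k₁ + 1) ^ 2) * (K₁ + 1) ^ 2 * j ^ 2 * a ^ 2 * p ^ 2 :=
    calc _ = K₃ * (k₁ + 1) ^ 2 * ((K₁ + 1) ^ 2 * j ^ 2 * a ^ 2 * p ^ 2) := by ring
      _ ≤ (K₂ + K₃ * (k₁ + 1) ^ 2) * ((K₁ + 1) ^ 2 * j ^ 2 * a ^ 2 * p ^ 2) :=
        Nat.mul_le_mul_right _ (Nat.le_add_left _ _)
      _ = _ := by ring
  exact_mod_cast h7

theorem km_sub {W : Type} [AddCommGroup W] [Fintype W] [DecidableEq W] (h2 : ∀ x : W, x + x = 0)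
    {B : Finset W} {a m : ℕ} (hm : 1 ≤ m) (hB : Fintype.card W ≤ 2 ^ a * #B) :
    ∃ (V : AddSubgroup W) (b : W), Spread 1 (1 / m) V (B ∩ cs V b) ∧
      Nat.card V ≤ 2 ^ a * #(B ∩ cs V b) ∧ Fintype.card W ≤ 2 ^ (a * m) * Nat.card V := by
  have hBne : B.Nonempty := card_pos.1 (Nat.pos_of_mul_pos_left (Fintype.card_pos.trans_le hB))
  obtain ⟨V, -, b, -, hs, h⟩ := exists_spread h2 (1 / m) ⊤ 0 hBne (by rw [cs_top]; exact subset_univ _)
  rw [card_top] at h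
  refine ⟨V, b, hs, ?_⟩
  generalize hη : (1 / m : ℝ) = η at h
  have hη0 : 0 ≤ η := by rw [← hη]; positivity
  have hηm : η * m = 1 := by rw [← hη]; field_simp
  have hv : (0 : ℝ) < Nat.card V := by exact_mod_cast Nat.card_pos
  have hN : (0 : ℝ) < Fintype.card W := by exact_mod_cast Fintype.card_pos
  have hB' : (Fintype.card W : ℝ) ≤ 2 ^ a * #B := by exact_mod_cast hB
  have hvN : (Nat.card V : ℝ) ≤ Fintype.card W := by
    rw [← card_cs V b]; exact_mod_cast card_le_univ _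
  have hbv : (#(B ∩ cs V b) : ℝ) ≤ Nat.card V := by
    rw [← card_cs V b]; exact_mod_cast card_le_card inter_subset_right
  have p1 := Real.rpow_pos_of_pos hv (1 - η)
  have p2 := Real.rpow_pos_of_pos hN (1 - η)
  have key : (Fintype.card W : ℝ) ^ η * (Nat.card V : ℝ) ^ (1 - η) ≤ 2 ^ a * #(B ∩ cs V b) := by
    refine le_of_mul_le_mul_right ?_ p2
    calc _ = (Fintype.card W : ℝ) ^ η * (Fintype.card W : ℝ) ^ (1 - η) *
          (Nat.card V : ℝ) ^ (1 - η) := by ring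
      _ ≤ 2 ^ a * #B * (Nat.card V : ℝ) ^ (1 - η) := by
        rw [km_split hN]; exact mul_le_mul_of_nonneg_right hB' p1.le
      _ = 2 ^ a * (#B * (Nat.card V : ℝ) ^ (1 - η)) := by ring
      _ ≤ 2 ^ a * (#(B ∩ cs V b) * (Fintype.card W : ℝ) ^ (1 - η)) :=
        mul_le_mul_of_nonneg_left h (by positivity)
      _ = _ := by ring
  constructor
  · have : (Nat.card V : ℝ) ≤ 2 ^ a * #(B ∩ cs V b) := by
      refine le_trans ?_ key
      nth_rewrite 1 [← km_split hv η]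
      exact mul_le_mul_of_nonneg_right (Real.rpow_le_rpow hv.le hvN hη0) p1.le
    exact_mod_cast this
  · have h3 : (Fintype.card W : ℝ) ^ η ≤ 2 ^ a * (Nat.card V : ℝ) ^ η := by
      refine le_of_mul_le_mul_right (key.trans ?_) p1
      rw [mul_assoc, km_split hv]
      exact mul_le_mul_of_nonneg_left hbv (by positivity)
    have h4 := pow_le_pow_left₀ (Real.rpow_nonneg hN.le _) h3 m
    rw [mul_pow, ← Real.rpow_natCast (_ ^ η), ← Real.rpow_natCast (_ ^ η), ← Real.rpow_mul hN.le,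
      ← Real.rpow_mul hv.le, hηm, Real.rpow_one, Real.rpow_one, ← pow_mul] at h4
    exact_mod_cast h4

theorem km_pop {W : Type} [AddCommGroup W] [Fintype W] [DecidableEq W] {Y B C : Finset W}
    {a k : ℕ} {w : ℝ} (hw : 0 ≤ w) (hk : 1 ≤ 2 ^ k * (w ^ 2 - w))
    (hY : Fintype.card W ≤ 2 ^ a * #Y) (hC : C.Nonempty)
    (h : w ^ 2 * #Y * #B * #C ≤ tri Y B C * (Fintype.card W : ℝ)) :
    #B ≤ 2 ^ (a + k) * #{x ∈ B | w * #Y * #C ≤ cv Y C x * (Fintype.card W : ℝ)} := by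
  classical
  generalize hB₁ : {x ∈ B | w * #Y * #C ≤ cv Y C x * (Fintype.card W : ℝ)} = B₁
  have hN : (0 : ℝ) < Fintype.card W := by exact_mod_cast Fintype.card_pos
  have hY' : (Fintype.card W : ℝ) ≤ 2 ^ a * #Y := by exact_mod_cast hY
  have hy : (0 : ℝ) < #Y := by
    exact_mod_cast Nat.pos_of_mul_pos_left (Fintype.card_pos.trans_le hY)
  have hc : (0 : ℝ) < #C := by exact_mod_cast card_pos.2 hC
  have h1 : (tri Y B C : ℝ) * Fintype.card W ≤ #B * (w * #Y * #C) + #B₁ * (#C * Fintype.card W) := by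
    rw [tri_comm]
    unfold tri
    push_cast
    rw [sum_mul]
    calc _ ≤ ∑ x ∈ B, (w * #Y * #C + if x ∈ B₁ then (#C : ℝ) * Fintype.card W else 0) := by
          refine sum_le_sum fun x hx => ?_
          split_ifs with h3
          · have : (cv Y C x : ℝ) ≤ #C := by exact_mod_cast card_filter_le _ _
            exact le_add_of_nonneg_of_le (by positivity) (mul_le_mul_of_nonneg_right this hN.le)
          · rw [← hB₁, mem_filter, not_and, not_le] at h3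
            rw [add_zero]; exact (h3 hx).le
      _ = _ := by
          rw [sum_add_distrib, sum_const, nsmul_eq_mul, sum_ite_mem, sum_const, nsmul_eq_mul,
            inter_eq_right.2 (hB₁ ▸ filter_subset _ _)]
  have h3 : (w ^ 2 - w) * #B * (#Y * #C) ≤ 2 ^ a * #B₁ * (#Y * #C) := by
    have := mul_le_mul_of_nonneg_left hY' (show (0 : ℝ) ≤ #B₁ * #C by positivity)
    nlinarith
  have h4 := le_of_mul_le_mul_right h3 (mul_pos hy hc)
  have : (#B : ℝ) ≤ 2 ^ (a + k) * #B₁ := by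
    calc (#B : ℝ) ≤ 2 ^ k * (w ^ 2 - w) * #B := le_mul_of_one_le_left (Nat.cast_nonneg _) hk
      _ = 2 ^ k * ((w ^ 2 - w) * #B) := by ring
      _ ≤ 2 ^ k * (2 ^ a * #B₁) := mul_le_mul_of_nonneg_left h4 (by positivity)
      _ = _ := by ring
  exact_mod_cast this

theorem km_num {K c q a p j : ℕ} (ha : 1 ≤ a) (hc : 1 ≤ c) (hq : 1 ≤ q) (h1 : a ≤ j ^ 3)
    (h2 : a ≤ j * p) :
    K * (c * a) ^ 2 * (q * p) ^ 2 ≤ j * ((K + 1) * c ^ 3 * q ^ 2 * j ^ 2 * a * p ^ 2) ∧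
    K * (c * a) ^ 3 ≤ (K + 1) * c ^ 3 * q ^ 2 * j ^ 2 * a * p ^ 2 ∧
    K * j ^ 2 * (c * a) ^ 2 * (q * p) ^ 2 ≤ c * a * ((K + 1) * c ^ 3 * q ^ 2 * j ^ 2 * a * p ^ 2) := by
  refine ⟨?_, ?_, ?_⟩
  · calc _ = K * (c ^ 2 * 1) * q ^ 2 * a * a * p ^ 2 := by ring
      _ ≤ (K + 1) * (c ^ 2 * c) * q ^ 2 * j ^ 3 * a * p ^ 2 := by gcongr; omega
      _ = _ := by ring
  · calc _ = K * c ^ 3 * 1 ^ 2 * a ^ 2 * a := by ring
      _ ≤ (K + 1) * c ^ 3 * q ^ 2 * (j * p) ^ 2 * a := by gcongr; omega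
      _ = _ := by ring
  · calc _ = K * (c ^ 2 * 1 ^ 2) * q ^ 2 * j ^ 2 * a ^ 2 * p ^ 2 := by ring
      _ ≤ (K + 1) * (c ^ 2 * c ^ 2) * q ^ 2 * j ^ 2 * a ^ 2 * p ^ 2 := by gcongr; omega
      _ = _ := by ring

theorem up_of_spread {l₀ : ℝ} (hl : 1 < l₀) : ∃ κ : ℝ, 1 < κ ∧ ∃ K : ℕ, ∀ (W : Type)
    [AddCommGroup W] [Fintype W] [DecidableEq W], (∀ x : W, x + x = 0) →
    ∀ (Y : Finset W) (a p j : ℕ) (l θ : ℝ), 1 ≤ a → a ≤ j ^ 3 → a ≤ j * p → l₀ ≤ l → 0 ≤ θ →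
    Fintype.card W ≤ 2 ^ a * #Y → Spread κ θ ⊤ Y →
    θ * (K * j ^ 2 * a ^ 2 * p ^ 2) ≤ Real.log l → Up Y a l p := by
  obtain ⟨u₀, hu₀⟩ : ∃ u₀, u₀ = Real.exp (Real.log l₀ / 12) := ⟨_, rfl⟩
  have hu1 : 1 < u₀ := by
    rw [hu₀]; exact Real.one_lt_exp_iff.2 (div_pos (Real.log_pos hl) (by norm_num))
  have hu2 : 0 < u₀ - 1 := by linarith
  obtain ⟨ε, hε⟩ : ∃ ε, ε = (u₀ - 1) / (8 * u₀) := ⟨_, rfl⟩
  have hε0 : 0 < ε := by rw [hε]; positivity
  have hε1 : (1 - 3 * ε) * u₀ = (5 * u₀ + 3) / 8 := by rw [hε]; field_simp; ring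
  have hε2 : 0 < 1 - 3 * ε := by
    by_contra h
    push Not at h
    nlinarith
  obtain ⟨K₁, hin⟩ := km_inner hε0 hu1
  obtain ⟨K₂, hpick⟩ := km_pick hu1
  obtain ⟨k₀, hk₀⟩ := pow_unbounded_of_one_lt (1 / (u₀ - 1)) (one_lt_two : (1 : ℝ) < 2)
  rw [div_lt_iff₀ hu2] at hk₀
  obtain ⟨κ, hκ⟩ : ∃ κ, κ = (1 + u₀) / 2 := ⟨_, rfl⟩
  have hκ1 : 1 < κ := by linarith
  refine ⟨κ, hκ1, 24 * ((k₀ + 3) * ((K₁ + 1) * (k₀ + 3) ^ 3 * (K₂ + 6) ^ 2)),
    fun W _ _ _ h2 Y a p j l θ ha hj3 hjp hll hθ hY sY hθK lam hlam B C hB hC => ?_⟩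
  by_contra hcon
  push Not at hcon
  have hj : 1 ≤ j := Nat.pos_of_mul_pos_right (ha.trans hjp)
  have hp : 1 ≤ p := Nat.pos_of_mul_pos_left (ha.trans hjp)
  obtain ⟨n1, n2, n3⟩ := km_num (K := K₁) (c := k₀ + 3) (q := K₂ + 6) ha (by omega) (by omega)
    hj3 hjp
  obtain ⟨m, hm⟩ : ∃ m, m = (K₁ + 1) * (k₀ + 3) ^ 3 * (K₂ + 6) ^ 2 * j ^ 2 * a * p ^ 2 := ⟨_, rfl⟩
  have hm1 : 1 ≤ m := by rw [hm]; exact Nat.succ_le_of_lt (by positivity)
  obtain ⟨α, hα⟩ : ∃ α, α = (k₀ + 3) * a := ⟨_, rfl⟩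
  obtain ⟨q, hq⟩ : ∃ q, q = (K₂ + 6) * p := ⟨_, rfl⟩
  rw [← hm, ← hα, ← hq] at n1 n3
  rw [← hm, ← hα] at n2
  have hθM : θ * ((α * m : ℕ) : ℝ) * 24 ≤ Real.log l := by
    refine le_of_eq_of_le ?_ hθK
    rw [hα, hm]; push_cast; ring
  clear hθK
  have hm0 : (0 : ℝ) < m := by exact_mod_cast hm1
  have hlam1 : 1 < lam := by linarith
  obtain ⟨u, hu⟩ : ∃ u, u = Real.exp (Real.log lam / 12) := ⟨_, rfl⟩
  have hlog : Real.log l ≤ Real.log lam := Real.log_le_log (by linarith) hlam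
  have huu : u₀ ≤ u := by
    rw [hu, hu₀]
    have := Real.log_le_log (by linarith) hll
    exact Real.exp_le_exp.2 (by linarith)
  have hul : u ^ 12 = lam := by
    rw [hu, ← Real.exp_nat_mul]
    push_cast
    rw [mul_div_cancel₀ _ (by norm_num), Real.exp_log (by linarith)]
  obtain ⟨E, hE⟩ : ∃ E, E = Real.exp (θ * ((α * m : ℕ) : ℝ)) := ⟨_, rfl⟩
  have hE1 : 1 ≤ E := by rw [hE]; exact Real.one_le_exp (mul_nonneg hθ (Nat.cast_nonneg _))
  have hE2 : E * E ≤ u := by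
    rw [hE, hu, ← Real.exp_add]; exact Real.exp_le_exp.2 (by linarith)
  have hE3 : E ≤ u := (le_mul_of_one_le_left (zero_le_one.trans hE1) hE1).trans hE2
  have hu3 : 1 < u := hu1.trans_le huu
  have hu0 : 0 < u := one_pos.trans hu3
  have hκ0 : 0 < κ := one_pos.trans hκ1
  have hE0 : 0 < E := one_pos.trans_le hE1
  have hκu : κ < u := by linarith only [hκ, hu1, huu]
  have hN : (0 : ℝ) < Fintype.card W := by exact_mod_cast Fintype.card_pos
  have hYne : Y.Nonempty := card_pos.1 (Nat.pos_of_mul_pos_left (Fintype.card_pos.trans_le hY))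
  have hy : (0 : ℝ) < #Y := by exact_mod_cast card_pos.2 hYne
  have hb : (0 : ℝ) < #B := by
    exact_mod_cast Nat.pos_of_mul_pos_left (Fintype.card_pos.trans_le hB)
  have hc : (0 : ℝ) < #C := by
    rcases (Nat.cast_nonneg (α := ℝ) #C).eq_or_lt with h | h
    · rw [← h, mul_zero] at hC; linarith
    · exact h
  have hY' : (Fintype.card W : ℝ) ≤ 2 ^ a * #Y := by exact_mod_cast hY
  have hla : Real.log lam ≤ a := by
    have h3 : (tri Y B C : ℝ) ≤ #B * #C := by exact_mod_cast tri_le Y B C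
    have h4 : lam * (#Y * #B * #C) ≤ 2 ^ a * (#Y * #B * #C) := by
      calc _ = lam * #Y * #B * #C := by ring
        _ ≤ _ := hcon
        _ ≤ (#B * #C) * (2 ^ a * #Y) := mul_le_mul h3 hY' hN.le (mul_pos hb hc).le
        _ = _ := by ring
    have h5 := le_of_mul_le_mul_right h4 (mul_pos (mul_pos hy hb) hc)
    rw [Real.log_le_iff_le_exp (by linarith)]
    refine h5.trans ?_
    rw [← Real.exp_one_pow]
    exact pow_le_pow_left₀ zero_le_two (by linarith only [Real.add_one_le_exp 1]) _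
  have haα : 3 * a + k₀ ≤ α := by rw [hα]; nlinarith only [ha]
  have hθη : θ ≤ 1 / (m : ℝ) := by
    rw [le_div_iff₀ hm0]
    have h3 : (a : ℝ) ≤ α := by exact_mod_cast (show a ≤ α by omega)
    have h4 : (1 : ℝ) ≤ a := by exact_mod_cast ha
    have h5 : 0 ≤ θ * ((α * m : ℕ) : ℝ) := mul_nonneg hθ (Nat.cast_nonneg _)
    refine le_of_mul_le_mul_right ?_ (show (0 : ℝ) < α by linarith)
    push_cast at hθM h5
    linarith
  have h61 : 1 ≤ u ^ 6 := one_le_pow₀ hu3.le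
  have hB₁ := km_pop (Y := Y) (B := B) (C := C) (a := a) (k := k₀) (w := u ^ 6) (pow_pos hu0 _).le (by
      have h3 : u ≤ u ^ 6 := le_self_pow₀ hu3.le (by norm_num)
      have h4 : u₀ - 1 ≤ (u ^ 6) ^ 2 - u ^ 6 := by nlinarith only [h3, h61, huu]
      exact hk₀.le.trans (mul_le_mul_of_nonneg_left h4 (pow_nonneg zero_le_two _))) hY
    (card_pos.1 (by exact_mod_cast hc)) (by rw [← pow_mul, hul]; exact hcon)
  generalize hB1 : {x ∈ B | u ^ 6 * #Y * #C ≤ cv Y C x * (Fintype.card W : ℝ)} = B₁ at hB₁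
  obtain ⟨V, b, sB, hvB, hNv⟩ := km_sub h2 (B := B₁) (a := a + (a + k₀)) hm1
    (hB.trans (by rw [pow_add, mul_assoc]; exact Nat.mul_le_mul_left _ hB₁))
  have hNv' : Fintype.card W ≤ 2 ^ (α * m) * Nat.card V := hNv.trans (Nat.mul_le_mul_right _
    (Nat.pow_le_pow_right two_pos (Nat.mul_le_mul_right _ (by omega))))
  have hv : (0 : ℝ) < Nat.card V := by exact_mod_cast Nat.card_pos
  have hb' : (0 : ℝ) < #(B₁ ∩ cs V b) := by
    exact_mod_cast Nat.pos_of_mul_pos_left (Nat.card_pos.trans_le hvB)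
  have htri : u ^ 6 * #Y * #C * #(B₁ ∩ cs V b) ≤ tri Y (B₁ ∩ cs V b) C * (Fintype.card W : ℝ) := by
    rw [tri_comm]
    unfold tri
    push_cast
    rw [sum_mul, mul_comm, ← nsmul_eq_mul]
    refine card_nsmul_le_sum _ _ _ fun x hx => ?_
    have := (mem_inter.1 hx).1
    rw [← hB1] at this
    exact (mem_filter.1 this).2
  have hsum : ∀ φ : W → ℝ, ∑ z, ∑ x ∈ C ∩ cs V z, φ x = Nat.card V * ∑ x ∈ C, φ x := fun φ => by
    have := sum_cs h2 (le_top : V ≤ ⊤) 0 (X := C) (by rw [cs_top]; exact subset_univ _) φ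
    rwa [cs_top] at this
  obtain ⟨z, σ, hσ, hz, hz1, hz2⟩ := hpick W univ (fun z => #(C ∩ cs V z))
    (fun z => tri Y (B₁ ∩ cs V b) (C ∩ cs V z) * (Fintype.card W / (#Y * #(B₁ ∩ cs V b))))
    (Nat.card V * #C / Fintype.card W) u univ_nonempty (div_pos (mul_pos hv hc) hN) huu
    (fun _ => Nat.cast_nonneg _)
    (fun _ => mul_nonneg (Nat.cast_nonneg _) (div_pos hN (mul_pos hy hb')).le)
    (fun z h => by
      have : C ∩ cs V z = ∅ := card_eq_zero.1 (by exact_mod_cast h)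
      simp only [this, tri, sum_empty, Nat.cast_zero, zero_mul])
    (by
      have := hsum fun _ => 1
      simp only [sum_const, nsmul_eq_mul, mul_one] at this
      rw [this, card_univ, mul_div_cancel₀ _ hN.ne'])
    (by
      have := hsum fun x => cv Y (B₁ ∩ cs V b) x
      rw [← sum_mul, card_univ, mul_div_cancel₀ _ hN.ne', ← mul_div_assoc,
        le_div_iff₀ (mul_pos hy hb')]
      unfold tri at htri ⊢
      push_cast at htri ⊢
      rw [this]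
      calc _ = Nat.card V * (u ^ 6 * #Y * #C * #(B₁ ∩ cs V b)) := by ring
        _ ≤ _ := mul_le_mul_of_nonneg_left htri hv.le
        _ = _ := by ring)
  beta_reduce at hz hz1 hz2
  rw [← mul_div_assoc, le_div_iff₀ (mul_pos hy hb')] at hz1
  rw [div_le_iff₀ hN] at hz2
  have hσu : u ≤ σ := (le_self_pow₀ hu3.le two_ne_zero).trans hσ
  have hσ1 : 1 ≤ σ := hu3.le.trans hσu
  letI : Fintype V := Fintype.ofFinite V
  have h2' : ∀ x : V, x + x = 0 := fun x => Subtype.ext (h2 x)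
  have hcv : Fintype.card V = Nat.card V := Nat.card_eq_fintype_card.symm
  have ht := tri_pull h2 V b z Y B₁ C
  have hty : tri Y (B₁ ∩ cs V b) (C ∩ cs V z) ≤ #(Y ∩ cs V (b + z)) * #(C ∩ cs V z) := by
    rw [← ht, tri_rot h2', ← card_pull h2, ← card_pull h2]; exact tri_le _ _ _
  have hty' : (tri Y (B₁ ∩ cs V b) (C ∩ cs V z) : ℝ) ≤ #(Y ∩ cs V (b + z)) * #(C ∩ cs V z) := by
    exact_mod_cast hty
  have hby : #(B₁ ∩ cs V b) ≤ 2 ^ a * #(Y ∩ cs V (b + z)) := by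
    have : (#(B₁ ∩ cs V b) : ℝ) ≤ 2 ^ a * #(Y ∩ cs V (b + z)) := by
      refine le_of_mul_le_mul_right ?_ (mul_pos hy hz)
      calc _ = 1 * #(C ∩ cs V z) * ((#Y : ℝ) * #(B₁ ∩ cs V b)) := by ring
        _ ≤ σ ^ 2 * #(C ∩ cs V z) * (#Y * #(B₁ ∩ cs V b)) := mul_le_mul_of_nonneg_right
          (mul_le_mul_of_nonneg_right (one_le_pow₀ hσ1) hz.le) (mul_pos hy hb').le
        _ ≤ _ := hz1
        _ ≤ (#(Y ∩ cs V (b + z)) * #(C ∩ cs V z)) * (2 ^ a * #Y) :=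
          mul_le_mul hty' hY' hN.le (mul_nonneg (Nat.cast_nonneg _) hz.le)
        _ = _ := by ring
    exact_mod_cast this
  have hy' : (0 : ℝ) < #(Y ∩ cs V (b + z)) := by
    have : 0 < #(B₁ ∩ cs V b) := by exact_mod_cast hb'
    exact_mod_cast Nat.pos_of_mul_pos_left (this.trans_le hby)
  have hκE : κ * E < σ := by
    refine lt_of_lt_of_le ?_ hσ
    rw [sq]; exact mul_lt_mul hκu hE3 hE0 hu0.le
  rcases le_or_gt (σ * #Y * Nat.card V) (#(Y ∩ cs V (b + z)) * (Fintype.card W : ℝ)) with hA | hA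
  · have := km_coset sY hYne hκ0.le hθ hNv' hA
    rw [← hE] at this
    exact absurd this (not_le.2 hκE)
  obtain ⟨d, hd⟩ : ∃ d : ℝ, d = #Y * Nat.card V / (#(Y ∩ cs V (b + z)) * Fintype.card W) := ⟨_, rfl⟩
  have hd0 : 0 < d := by rw [hd]; exact div_pos (mul_pos hy hv) (mul_pos hy' hN)
  have hd1 : d * (#(Y ∩ cs V (b + z)) * Fintype.card W) = #Y * Nat.card V := by
    rw [hd, div_mul_cancel₀ _ (mul_pos hy' hN).ne']
  have hfin := hin V h2' (pull V (b + z) Y) (pull V b B₁) (pull V z C) α q j σ (σ * d) (κ * E * d) θ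
    (1 / m) (by omega) (by rw [hq]; exact Nat.mul_pos (by omega) hp) hj (huu.trans hσu)
    (by
      refine le_of_mul_le_mul_right ?_ (mul_pos hy' hN)
      rw [mul_assoc σ, hd1, one_mul, ← mul_assoc]; exact hA.le)
    (mul_pos (mul_pos hκ0 hE0) hd0).le
    (mul_le_mul_of_nonneg_right hκE.le hd0.le) hθ hθη
    (by
      rw [hcv, card_pull h2]
      refine hvB.trans ((Nat.mul_le_mul_left _ hby).trans ?_)
      rw [← mul_assoc, ← pow_add]
      exact Nat.mul_le_mul_right _ (Nat.pow_le_pow_right two_pos (by omega)))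
    (by
      rw [hcv, card_pull h2]
      exact hvB.trans (Nat.mul_le_mul_right _ (Nat.pow_le_pow_right two_pos (by omega))))
    (by
      rw [hcv, card_pull h2]
      refine le_of_mul_le_mul_right ?_ hN
      have h3 : lam ^ p ≤ σ ^ (6 * p) := by
        rw [← hul, pow_mul σ]
        refine pow_le_pow_left₀ (pow_pos hu0 _).le ?_ _
        calc u ^ 12 = (u ^ 2) ^ 6 := by ring
          _ ≤ _ := pow_le_pow_left₀ (sq_nonneg _) hσ _
      have h4 : σ ^ (6 * p) * σ ^ K₂ ≤ σ ^ q := by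
        rw [← pow_add]; exact pow_le_pow_right₀ hσ1 (by rw [hq]; nlinarith only [hp])
      have h5 : 0 ≤ σ ^ (6 * p) := pow_nonneg (zero_le_one.trans hσ1) _
      calc (Nat.card V : ℝ) * Fintype.card W ≤ Nat.card V * (σ ^ (6 * p) * #C) :=
            mul_le_mul_of_nonneg_left (hC.trans (mul_le_mul_of_nonneg_right h3 hc.le)) hv.le
        _ = σ ^ (6 * p) * (Nat.card V * #C) := by ring
        _ ≤ _ := mul_le_mul_of_nonneg_left hz2 h5
        _ = σ ^ (6 * p) * σ ^ K₂ * (#(C ∩ cs V z) * Fintype.card W) := by ring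
        _ ≤ σ ^ q * (#(C ∩ cs V z) * Fintype.card W) :=
            mul_le_mul_of_nonneg_right h4 (mul_pos hz hN).le
        _ = _ := by ring)
    (by
      rw [hcv, ht, card_pull h2, card_pull h2, card_pull h2]
      refine le_of_mul_le_mul_right ?_ hN
      calc _ = σ ^ 2 * #(C ∩ cs V z) * #(B₁ ∩ cs V b) *
            (d * (#(Y ∩ cs V (b + z)) * Fintype.card W)) := by ring
        _ = σ ^ 2 * #(C ∩ cs V z) * (#Y * #(B₁ ∩ cs V b)) * Nat.card V := by rw [hd1]; ring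
        _ ≤ _ := mul_le_mul_of_nonneg_right hz1 hv.le
        _ = _ := by ring)
    (Spread.pull h2 (sY.restrict (by
      have h3 := km_pow hθ hNv'
      rw [← hE] at h3
      have p1 := Real.rpow_pos_of_pos hv (1 - θ)
      refine le_of_mul_le_mul_right ?_ (Real.rpow_pos_of_pos hN θ)
      calc _ ≤ κ * #Y * (Nat.card V : ℝ) ^ (1 - θ) * (E * (Nat.card V : ℝ) ^ θ) :=
            mul_le_mul_of_nonneg_left h3 (mul_pos (mul_pos hκ0 hy) p1).le
        _ = κ * E * (#Y * ((Nat.card V : ℝ) ^ θ * (Nat.card V : ℝ) ^ (1 - θ))) := by ring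
        _ = κ * E * (d * (#(Y ∩ cs V (b + z)) *
            ((Fintype.card W : ℝ) ^ θ * (Fintype.card W : ℝ) ^ (1 - θ)))) := by
            rw [km_split hv, km_split hN, hd1]
        _ = _ := by ring)))
    (Spread.pull h2 sB)
    (by
      rw [one_div, inv_mul_le_iff₀ hm0, mul_comm (m : ℝ)]
      exact_mod_cast n1)
    (by
      rw [one_div, inv_mul_le_iff₀ hm0, mul_one]
      exact_mod_cast n2)
  have h6 : Real.exp (θ * (K₁ * j ^ 2 * α ^ 2 * q ^ 2)) ≤ E := by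
    rw [hE]
    exact Real.exp_le_exp.2 (mul_le_mul_of_nonneg_left (by exact_mod_cast n3) hθ)
  have h7 : (1 - 3 * ε) * σ * d ≤ κ * u * d := by
    calc _ = (1 - 3 * ε) * (σ * d) := by ring
      _ ≤ _ := hfin
      _ ≤ κ * E * d * E :=
        mul_le_mul_of_nonneg_left h6 (mul_pos (mul_pos hκ0 hE0) hd0).le
      _ = κ * (E * E) * d := by ring
      _ ≤ _ := mul_le_mul_of_nonneg_right (mul_le_mul_of_nonneg_left hE2 hκ0.le) hd0.le
  have h8 := le_of_mul_le_mul_right h7 hd0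
  have h9 : (1 - 3 * ε) * u * u ≤ κ * u := by
    refine le_trans ?_ h8
    rw [mul_assoc, ← sq]
    exact mul_le_mul_of_nonneg_left hσ hε2.le
  have h10 := le_of_mul_le_mul_right h9 hu0
  have h11 := mul_le_mul_of_nonneg_left huu hε2.le
  linarith only [h10, h11, hε1, hκ, hu1]

end Pool.Agent.P.MP_db4732_co.Q
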