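import Pool.Agent.P.MP_db4732_co.Q.Defs

/-! Level sets and regular rows. -/

set_option autoImplicit false

namespace Pool.Agent.P.MP_db4732_co.Q

open Finset

theorem lev_aux {ι : Type} (G g : ι → ℝ) (S : ℝ) (hS : 0 ≤ S) (n : ℕ) :
    ∀ Z : Finset ι, #Z = n → (∀ i ∈ Z, G i ^ 2 * #{j ∈ Z | g i ≤ g j} ≤ S) →
      ∑ i ∈ Z, G i ≤ 2 * √S * √n := by
  classical
  induction n with
  | zero => intro Z hZ _; simp [card_eq_zero.1 hZ]
  | succ n ih =>
    intro Z hZ h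
    obtain ⟨i, hi, hm⟩ := exists_min_image Z g (card_pos.1 (by omega))
    have h1 := h i hi
    rw [filter_true_of_mem hm, hZ] at h1
    have h2 := ih (Z.erase i) (by rw [card_erase_of_mem hi, hZ]; rfl) fun j hj =>
      le_trans (mul_le_mul_of_nonneg_left (by
        exact_mod_cast card_le_card (filter_subset_filter _ (erase_subset _ _))) (sq_nonneg _))
        (h j (mem_of_mem_erase hj))
    rw [← add_sum_erase Z G hi]
    have a0 : 0 < √((n + 1 : ℕ) : ℝ) := Real.sqrt_pos.2 (by positivity)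
    have a1 : √((n + 1 : ℕ) : ℝ) ^ 2 = n + 1 := by rw [Real.sq_sqrt (by positivity)]; push_cast; rfl
    have a2 : √(n : ℝ) ^ 2 = n := Real.sq_sqrt (by positivity)
    have h3 : G i * √((n + 1 : ℕ) : ℝ) ≤ √S := by
      refine Real.le_sqrt_of_sq_le ?_
      rw [mul_pow, Real.sq_sqrt (by positivity)]
      exact h1
    refine le_of_mul_le_mul_right ?_ a0
    have h4 := mul_le_mul_of_nonneg_right h2 a0.le
    have h5 : 1 + 2 * √(n : ℝ) * √((n + 1 : ℕ) : ℝ) ≤ 2 * √((n + 1 : ℕ) : ℝ) * √((n + 1 : ℕ) : ℝ) := by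
      nlinarith [sq_nonneg (√((n + 1 : ℕ) : ℝ) - √(n : ℝ))]
    linarith [mul_le_mul_of_nonneg_left h5 (Real.sqrt_nonneg S)]

/-- A large moment gives a level set whose size is proportional to the gain. -/
theorem level {ι : Type} (s : Finset ι) (g : ι → ℝ) (hg : ∀ i ∈ s, 0 ≤ g i) {l₀ : ℝ} (hl : 0 < l₀)
    (k : ℕ) (h : (l₀ ^ k + 2) * #s < ∑ i ∈ s, g i ^ k) :
    ∃ lam : ℝ, l₀ ≤ lam ∧ (#s : ℝ) ≤ lam ^ (2 * k) * #{i ∈ s | lam ≤ g i} := by
  by_contra hc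
  push Not at hc
  have h1 := lev_aux (fun i => g i ^ k) g #s (by positivity) _ {i ∈ s | l₀ ≤ g i} rfl fun i hi => by
    refine le_trans ?_ (hc (g i) (mem_filter.1 hi).2).le
    rw [← pow_mul, mul_comm k 2]
    refine mul_le_mul_of_nonneg_left ?_ (pow_nonneg (hg i (mem_filter.1 hi).1) _)
    exact_mod_cast card_le_card (filter_subset_filter _ (filter_subset _ _))
  have h2 : √(#{i ∈ s | l₀ ≤ g i} : ℝ) ≤ √(#s : ℝ) :=
    Real.sqrt_le_sqrt (by exact_mod_cast card_filter_le _ _)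
  have h3 : ∑ i ∈ s with ¬ l₀ ≤ g i, g i ^ k ≤ l₀ ^ k * #s := by
    refine (sum_le_card_nsmul _ _ (l₀ ^ k) fun i hi => pow_le_pow_left₀ (hg i (mem_filter.1 hi).1)
      (not_le.1 (mem_filter.1 hi).2).le k).trans ?_
    rw [nsmul_eq_mul, mul_comm]
    exact mul_le_mul_of_nonneg_left (by exact_mod_cast card_filter_le _ _) (by positivity)
  rw [← sum_filter_add_sum_filter_not s (fun i => l₀ ≤ g i)] at h
  nlinarith [Real.mul_self_sqrt (Nat.cast_nonneg (α := ℝ) #s),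
    mul_le_mul_of_nonneg_left h2 (Real.sqrt_nonneg (#s : ℝ))]

/-- Either most of the mass lies on rows that are not too light, or these rows are heavy. -/
theorem rows {ι : Type} (s : Finset ι) (r : ι → ℝ) (hr : ∀ i ∈ s, 0 ≤ r i) {ε : ℝ} (h0 : 0 < ε)
    (h1 : ε ≤ 1 / 2) (hR : 0 < ∑ i ∈ s, r i) (s₀ : Finset ι)
    (hs : s₀ = {x ∈ s | (1 - ε) * ∑ i ∈ s, r i ≤ r x * #s}) :
    (3 / 4 * ∑ i ∈ s, r i ≤ ∑ i ∈ s₀, r i ∧ #s ≤ 2 * #s₀) ∨
      ∃ g : ℝ, 1 + ε / 4 ≤ g ∧ g * (∑ i ∈ s, r i) * #s₀ ≤ (∑ i ∈ s₀, r i) * #s ∧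
        ε * #s ≤ g * #s₀ := by
  set R := ∑ i ∈ s, r i with hRd
  have e1 := sum_filter_add_sum_filter_not s (fun x => (1 - ε) * R ≤ r x * #s) r
  have e2 : ((#s₀ : ℝ) + #{x ∈ s | ¬ (1 - ε) * R ≤ r x * #s}) = #s := by
    rw [hs]
    exact_mod_cast card_filter_add_card_filter_not _
  have e3 : (∑ x ∈ s with ¬ (1 - ε) * R ≤ r x * #s, r x) * #s ≤
      #{x ∈ s | ¬ (1 - ε) * R ≤ r x * #s} * ((1 - ε) * R) := by
    rw [sum_mul, ← nsmul_eq_mul]
    exact sum_le_card_nsmul _ _ _ fun x hx => (not_le.1 (mem_filter.1 hx).2).le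
  have e4 : (#s₀ : ℝ) = 0 → ∑ i ∈ s₀, r i = 0 := fun h => by
    rw [card_eq_zero.1 (by exact_mod_cast h : #s₀ = 0), sum_empty]
  rw [← hs, ← hRd] at e1
  generalize (∑ x ∈ s with ¬ (1 - ε) * R ≤ r x * #s, r x) = m at *
  generalize (#{x ∈ s | ¬ (1 - ε) * R ≤ r x * #s} : ℝ) = f at *
  generalize ∑ i ∈ s₀, r i = R₀ at *
  have hn : (0 : ℝ) < #s := by
    rcases s.eq_empty_or_nonempty with rfl | h
    · simp at hRd
      linarith
    · exact_mod_cast h.card_pos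
  have hn0 : (0 : ℝ) ≤ #s₀ := by positivity
  have hεR := mul_pos h0 hR
  have k1 : ε * R ≤ R₀ := by
    refine le_of_mul_le_mul_right ?_ hn
    nlinarith [mul_nonneg hn0 (mul_nonneg (by linarith : 0 ≤ 1 - ε) hR.le)]
  have hp : (0 : ℝ) < #s₀ := hn0.lt_of_ne fun h => by linarith [e4 h.symm]
  by_cases hA : 3 / 4 * R ≤ R₀ ∧ #s ≤ 2 * #s₀
  · exact Or.inl hA
  refine Or.inr ⟨R₀ * #s / (R * #s₀), ?_, le_of_eq (by field_simp), ?_⟩
  · rw [le_div_iff₀ (by positivity)]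
    by_cases hB : 3 / 4 * R ≤ R₀
    · have : (2 * #s₀ : ℝ) ≤ #s := by exact_mod_cast (not_le.1 fun h => hA ⟨hB, h⟩).le
      nlinarith [mul_le_mul hB this (by positivity) (by linarith), mul_pos hR hp,
        mul_le_mul_of_nonneg_right h1 (mul_pos hR hp).le]
    · have h4 : (#s : ℝ) ≤ 4 * f := by
        refine le_of_mul_le_mul_right ?_ hR
        have hf : 0 ≤ f := by nlinarith
        nlinarith [mul_nonneg hf hεR.le]
      nlinarith [mul_le_mul_of_nonneg_left h4 hεR.le, mul_nonneg hεR.le hn0]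
  · rw [div_mul_eq_mul_div, le_div_iff₀ (by positivity)]
    nlinarith [mul_le_mul_of_nonneg_right k1 (mul_pos hn hp).le]

end Pool.Agent.P.MP_db4732_co.Q
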