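import Pool.Agent.P.MP_db4732_co.Q.Step
import Pool.Agent.P.MP_db4732_co.Q.KM

/-! The iteration. -/

set_option autoImplicit false

namespace Pool.Agent.P.MP_db4732_co.Q

open Finset

theorem main_le_tri {W : Type} [AddCommGroup W] [DecidableEq W] {A : Finset (W × W)}
    {X Y D : Finset W} (h : In A X Y D) : #A ≤ tri D X Y := by
  rw [tri_eq]
  exact card_le_card fun q hq => mem_filter.2
    ⟨mem_product.2 ⟨(h q hq).1, (h q hq).2.1⟩, (h q hq).2.2⟩

theorem main_spread_univ {W : Type} [AddCommGroup W] [Fintype W] [DecidableEq W] {κ θ : ℝ}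
    (hκ : 1 ≤ κ) (hθ : 0 ≤ θ) : Spread κ θ (⊤ : AddSubgroup W) univ := by
  intro V _ z
  rw [univ_inter, card_cs, card_top, card_univ]
  have hv : (0 : ℝ) < Nat.card V := by exact_mod_cast Nat.card_pos
  have hN : (0 : ℝ) < Fintype.card W := by exact_mod_cast Fintype.card_pos
  have hle : (Nat.card V : ℝ) ≤ Fintype.card W := by
    rw [← card_cs V z]; exact_mod_cast card_le_univ _
  have e1 : (Nat.card V : ℝ) = (Nat.card V : ℝ) ^ θ * (Nat.card V : ℝ) ^ (1 - θ) := by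
    rw [← Real.rpow_add hv]; simp
  have e2 : (Fintype.card W : ℝ) =
      (Fintype.card W : ℝ) ^ θ * (Fintype.card W : ℝ) ^ (1 - θ) := by
    rw [← Real.rpow_add hN]; simp
  have h3 := Real.rpow_le_rpow hv.le hle hθ
  have p1 := Real.rpow_pos_of_pos hv (1 - θ)
  have p2 := Real.rpow_pos_of_pos hN (1 - θ)
  calc (Nat.card V : ℝ) * (Fintype.card W : ℝ) ^ (1 - θ)
      = (Nat.card V : ℝ) ^ θ * ((Fintype.card W : ℝ) ^ (1 - θ) * (Nat.card V : ℝ) ^ (1 - θ)) := by
        nth_rewrite 1 [e1]; ring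
    _ ≤ (Fintype.card W : ℝ) ^ θ *
        ((Fintype.card W : ℝ) ^ (1 - θ) * (Nat.card V : ℝ) ^ (1 - θ)) := by gcongr
    _ = 1 * Fintype.card W * (Nat.card V : ℝ) ^ (1 - θ) := by
        nth_rewrite 3 [e2]; ring
    _ ≤ _ := by gcongr

theorem main_dim : ∃ K : ℕ, ∀ (W : Type) [AddCommGroup W] [Fintype W] [DecidableEq W],
    (∀ x : W, x + x = 0) → ∀ (A : Finset (W × W)) (L : ℕ), CF A → 1 ≤ L →
    Fintype.card W ^ 2 ≤ 2 ^ L * #A → Fintype.card W ≤ 2 ^ (K * L ^ 16) := by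
  obtain ⟨l₀, hl1, hl2, K₁, hincr⟩ := incr
  obtain ⟨κ, hκ, K₂, hup⟩ := up_of_spread hl1
  obtain ⟨J, K₃, hJ, hstep⟩ := step_of_better (g₀ := 1 + 1 / 5000) (by norm_num) hκ K₁
  obtain ⟨Q, hQ⟩ : ∃ Q, Q = 2 * (K₁ + 1) * (K₃ + 1) ^ 2 := ⟨_, rfl⟩
  have hQ1 : 1 ≤ Q := by rw [hQ]; exact Nat.succ_le_of_lt (by positivity)
  have hlog : 0 < Real.log l₀ := Real.log_pos hl1
  obtain ⟨R, hR⟩ := exists_nat_gt ((K₂ * Q ^ 6 : ℝ) / Real.log l₀)
  have hR0 : (0 : ℝ) < R := lt_of_le_of_lt (by positivity) hR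
  have hR' : (K₂ * Q ^ 6 : ℝ) ≤ R * Real.log l₀ := ((div_lt_iff₀ hlog).1 hR).le
  refine ⟨K₃ * (K₃ + 1) * (J * R) + Q, fun W _ _ _ h2 A L hA hL hd => ?_⟩
  by_contra hbig
  push Not at hbig
  obtain ⟨c, hc⟩ : ∃ c, c = (K₃ + 1) * L ^ 2 := ⟨_, rfl⟩
  obtain ⟨a, ha⟩ : ∃ a, a = 2 * (K₃ + 1) * c * L := ⟨_, rfl⟩
  obtain ⟨θ, hθ⟩ : ∃ θ : ℝ, θ = 1 / (R * L ^ 13) := ⟨_, rfl⟩
  have hL0 : (1 : ℝ) ≤ L := by exact_mod_cast hL
  have hR1 : (1 : ℝ) ≤ R := by exact_mod_cast (show 0 < R by exact_mod_cast hR0)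
  have hRL : (1 : ℝ) ≤ R * L ^ 13 := one_le_mul_of_one_le_of_one_le hR1 (one_le_pow₀ hL0)
  have hθ0 : 0 < θ := by rw [hθ]; positivity
  have hθ1 : θ ≤ 1 := by rw [hθ]; exact (div_le_one (by positivity)).2 hRL
  have hJ0 : (0 : ℝ) < J := by exact_mod_cast (show 0 < J by omega)
  have hLc : L ≤ c := by rw [hc]; nlinarith
  have hca : c * L ≤ a := by rw [ha]; nlinarith [Nat.zero_le (K₃ * (c * L))]
  have hQa : (K₁ + 1) * a = Q * L ^ 3 := by rw [ha, hc, hQ]; ring
  have hKa : K₁ * a ≤ Q * L ^ 3 := by rw [← hQa]; nlinarith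
  have haQ : a ≤ Q * L ^ 3 := by rw [← hQa]; nlinarith
  have hKc : K₁ * c ≤ Q * L ^ 2 := by
    rw [hc, hQ, ← mul_assoc]
    exact Nat.mul_le_mul_right _ (by nlinarith [Nat.zero_le (K₁ * K₃ ^ 2), Nat.zero_le (K₁ * K₃)])
  have hP : ∀ i, 1 ≤ L ^ i := fun i => Nat.one_le_pow _ _ hL
  have hQ3 : Q * L ^ 3 ≤ (Q * L) ^ 3 := by
    rw [mul_pow]; exact Nat.mul_le_mul_right _ (Nat.le_self_pow (by norm_num) Q)
  have hN0 : (0 : ℝ) < Fintype.card W := by exact_mod_cast Fintype.card_pos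
  obtain ⟨ω, hω⟩ : ∃ ω : ℝ, ω = θ / J := ⟨_, rfl⟩
  have hω0 : 0 < ω := by rw [hω]; positivity
  have hωm : ω * ((J * R * L ^ 13 : ℕ) : ℝ) = 1 := by
    rw [hω, hθ]; push_cast; field_simp
  have key : ∀ t : ℕ, ∃ (W' : Type) (_ : AddCommGroup W') (_ : Fintype W') (_ : DecidableEq W'),
      (∀ x : W', x + x = 0) ∧ Fintype.card W' ≤ Fintype.card W ∧
      ∃ (A' : Finset (W' × W')) (X Y D : Finset W') (G : ℝ), CF A' ∧ In A' X Y D ∧ A'.Nonempty ∧
        Spread κ θ ⊤ X ∧ Spread κ θ ⊤ Y ∧ (1 + 1 / 5000 : ℝ) ^ t ≤ G ∧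
        G * tri D X Y ≤ 2 ^ L * #A' ∧ (#X : ℝ) * #Y ≤ 2 ^ L * G ^ (K₃ * L) * #A' ∧
        (Fintype.card W : ℝ) ^ ω * (Fintype.card W' : ℝ) ^ (1 - ω) ≤
          G ^ (K₃ * c) * √(#X * #Y) := by
    intro t
    induction t with
    | zero =>
      have hd' : (Fintype.card W : ℝ) * Fintype.card W ≤ 2 ^ L * #A := by
        rw [← sq]; exact_mod_cast hd
      refine ⟨W, inferInstance, inferInstance, inferInstance, h2, le_rfl, A, univ, univ, univ, 1,
        hA, fun q _ => ⟨mem_univ _, mem_univ _, mem_univ _⟩, ?_, main_spread_univ hκ.le hθ0.le,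
        main_spread_univ hκ.le hθ0.le, by simp, ?_, ?_, ?_⟩
      · rw [← card_pos]
        by_contra h
        have : #A = 0 := by omega
        rw [this] at hd'
        simp only [Nat.cast_zero, mul_zero] at hd'
        nlinarith
      · rw [one_mul]
        refine le_trans ?_ hd'
        exact_mod_cast tri_le univ univ (univ : Finset W)
      · simpa using hd'
      · rw [← Real.rpow_add hN0, card_univ, Real.sqrt_mul_self hN0.le]; simp
    | succ t ih =>
      obtain ⟨W', i1, i2, i3, h2', hle, A', X, Y, D, G, hA', hIn, hne, hX, hY, hG, h1, h3, h4⟩ := ih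
      have hA0 : (0 : ℝ) < #A' := by exact_mod_cast card_pos.2 hne
      have hAt : (#A' : ℝ) ≤ tri D X Y := by exact_mod_cast main_le_tri hIn
      have hG1 : 1 ≤ G := (one_le_pow₀ (by norm_num)).trans hG
      have hG2 : G ≤ 2 ^ L := le_of_mul_le_mul_right
        ((mul_le_mul_of_nonneg_left hAt (by linarith)).trans h1) hA0
      have hN' : (0 : ℝ) < Fintype.card W' := by exact_mod_cast Fintype.card_pos
      have hle' : (Fintype.card W' : ℝ) ≤ Fintype.card W := by exact_mod_cast hle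
      have k1 : tri D X Y ≤ 2 ^ L * #A' := by
        have : (tri D X Y : ℝ) ≤ 2 ^ L * #A' :=
          (le_mul_of_one_le_left (Nat.cast_nonneg _) hG1).trans h1
        exact_mod_cast this
      have k2 : #X * #Y ≤ 2 ^ c * #A' := by
        have : (#X : ℝ) * #Y ≤ 2 ^ c * #A' := by
          refine h3.trans (mul_le_mul_of_nonneg_right ?_ hA0.le)
          calc (2 : ℝ) ^ L * G ^ (K₃ * L) ≤ 2 ^ L * (2 ^ L) ^ (K₃ * L) :=
                mul_le_mul_of_nonneg_left (pow_le_pow_left₀ (by linarith only [hG1]) hG2 _)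
                  (pow_nonneg zero_le_two _)
            _ = 2 ^ (L + L * (K₃ * L)) := by rw [← pow_mul, ← pow_add]
            _ ≤ 2 ^ c := pow_le_pow_right₀ one_le_two (by rw [hc]; nlinarith)
        exact_mod_cast this
      have eN : (Fintype.card W' : ℝ) =
          (Fintype.card W' : ℝ) ^ ω * (Fintype.card W' : ℝ) ^ (1 - ω) := by
        rw [← Real.rpow_add hN']; simp
      have p1 := Real.rpow_pos_of_pos hN' (1 - ω)
      have h5 : (Fintype.card W : ℝ) ^ ω * (Fintype.card W' : ℝ) ^ (1 - ω) ≤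
          2 ^ (L * (K₃ * c)) * √(#X * #Y) := by
        refine h4.trans (mul_le_mul_of_nonneg_right ?_ (Real.sqrt_nonneg _))
        rw [pow_mul (2 : ℝ)]; exact pow_le_pow_left₀ (by linarith only [hG1]) hG2 _
      have hXN : (#X : ℝ) ≤ Fintype.card W' := by exact_mod_cast card_le_univ X
      have hYN : (#Y : ℝ) ≤ Fintype.card W' := by exact_mod_cast card_le_univ Y
      have h6 : (Fintype.card W' : ℝ) ^ 2 ≤ 2 ^ a * (#X * #Y) := by
        have h7 : (Fintype.card W' : ℝ) ≤ 2 ^ (L * (K₃ * c)) * √(#X * #Y) := by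
          refine le_trans ?_ h5
          nth_rewrite 1 [eN]
          exact mul_le_mul_of_nonneg_right (Real.rpow_le_rpow hN'.le hle' hω0.le) p1.le
        have hXY : (0 : ℝ) ≤ (#X : ℝ) * #Y := mul_nonneg (Nat.cast_nonneg _) (Nat.cast_nonneg _)
        have hea : L * (K₃ * c) * 2 ≤ a := by
          rw [ha]
          calc L * (K₃ * c) * 2 = 2 * K₃ * c * L := by ring
            _ ≤ _ := Nat.mul_le_mul_right _ (Nat.mul_le_mul_right _ (by omega))
        calc (Fintype.card W' : ℝ) ^ 2 ≤ ((2 : ℝ) ^ (L * (K₃ * c)) * √((#X : ℝ) * #Y)) ^ 2 :=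
              pow_le_pow_left₀ hN'.le h7 2
          _ = (2 : ℝ) ^ (L * (K₃ * c) * 2) * ((#X : ℝ) * #Y) := by
            rw [mul_pow, Real.sq_sqrt hXY, ← pow_mul]
          _ ≤ _ := mul_le_mul_of_nonneg_right (pow_le_pow_right₀ one_le_two hea) hXY
      have k3 : Fintype.card W' ≤ 2 ^ a * #X := by
        have : (Fintype.card W' : ℝ) ≤ 2 ^ a * #X := le_of_mul_le_mul_right (by
          calc (Fintype.card W' : ℝ) * Fintype.card W' ≤ 2 ^ a * (#X * #Y) := by rwa [← sq]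
            _ ≤ 2 ^ a * (#X * Fintype.card W') := mul_le_mul_of_nonneg_left
                (mul_le_mul_of_nonneg_left hYN (Nat.cast_nonneg _)) (pow_nonneg zero_le_two _)
            _ = _ := by ring) hN'
        exact_mod_cast this
      have k4 : Fintype.card W' ≤ 2 ^ a * #Y := by
        have : (Fintype.card W' : ℝ) ≤ 2 ^ a * #Y := le_of_mul_le_mul_right (by
          calc (Fintype.card W' : ℝ) * Fintype.card W' ≤ 2 ^ a * (#X * #Y) := by rwa [← sq]
            _ ≤ 2 ^ a * (Fintype.card W' * #Y) := mul_le_mul_of_nonneg_left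
                (mul_le_mul_of_nonneg_right hXN (Nat.cast_nonneg _)) (pow_nonneg zero_le_two _)
            _ = _ := by ring) hN'
        exact_mod_cast this
      have k5 : 2 ^ (K₁ * a) ≤ Fintype.card W' := by
        have h7 : (Fintype.card W : ℝ) ^ ω ≤ 2 ^ (L * (K₃ * c)) * (Fintype.card W' : ℝ) ^ ω := by
          refine le_of_mul_le_mul_right (h5.trans ?_) p1
          rw [mul_assoc, ← eN]
          refine mul_le_mul_of_nonneg_left (Real.sqrt_le_iff.2 ⟨hN'.le, ?_⟩)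
            (pow_nonneg zero_le_two _)
          rw [sq]; exact mul_le_mul hXN hYN (Nat.cast_nonneg _) hN'.le
        have h8 := pow_le_pow_left₀ (Real.rpow_nonneg hN0.le _) h7 (J * R * L ^ 13)
        rw [mul_pow, ← Real.rpow_natCast (_ ^ ω), ← Real.rpow_natCast (_ ^ ω),
          ← Real.rpow_mul hN0.le, ← Real.rpow_mul hN'.le, hωm, Real.rpow_one, Real.rpow_one,
          ← pow_mul] at h8
        have h9 : Fintype.card W ≤ 2 ^ (L * (K₃ * c) * (J * R * L ^ 13)) * Fintype.card W' := by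
          exact_mod_cast h8
        have e : (K₃ * (K₃ + 1) * (J * R) + Q) * L ^ 16 =
            L * (K₃ * c) * (J * R * L ^ 13) + Q * L ^ 16 := by rw [hc]; ring
        rw [e, pow_add] at hbig
        have h10 := Nat.lt_of_mul_lt_mul_left (hbig.trans_le h9)
        refine le_trans (Nat.pow_le_pow_right two_pos (hKa.trans ?_)) h10.le
        exact Nat.mul_le_mul_left _ (Nat.pow_le_pow_right hL (by norm_num))
      have hl0L : l₀ ≤ 2 ^ L := hl2.trans (le_self_pow₀ one_le_two (by omega))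
      have hups : ∀ Z : Finset W', Fintype.card W' ≤ 2 ^ a * #Z → Spread κ θ ⊤ Z →
          Up Z (K₁ * a) l₀ (K₁ * c) ∧ Up Z (K₁ * a) (2 ^ L) (K₁ * a) := by
        intro Z hZ hs
        have hZ' : Fintype.card W' ≤ 2 ^ (Q * L ^ 3) * #Z :=
          hZ.trans (Nat.mul_le_mul_right _ (Nat.pow_le_pow_right two_pos haQ))
        have h1a : 1 ≤ Q * L ^ 3 := Nat.mul_pos hQ1 (hP 3)
        constructor
        · refine (hup W' h2' Z (Q * L ^ 3) (Q * L ^ 2) (Q * L) l₀ θ h1a hQ3 ?_ le_rfl hθ0.le hZ' hs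
            ?_).mono hKa le_rfl hl1.le hKc
          · calc Q * L ^ 3 ≤ Q * (Q * L ^ 3) := Nat.le_mul_of_pos_left _ hQ1
              _ = _ := by ring
          · rw [hθ, one_div, inv_mul_le_iff₀ (by positivity)]
            push_cast
            calc (K₂ : ℝ) * (Q * L) ^ 2 * (Q * L ^ 3) ^ 2 * (Q * L ^ 2) ^ 2
                = K₂ * Q ^ 6 * L ^ 12 := by ring
              _ ≤ R * Real.log l₀ * L ^ 13 :=
                mul_le_mul hR' (pow_le_pow_right₀ hL0 (by norm_num))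
                  (pow_nonneg (Nat.cast_nonneg _) _) (mul_nonneg hR0.le hlog.le)
              _ = _ := by ring
        · refine (hup W' h2' Z (Q * L ^ 3) (Q * L ^ 3) (Q * L) (2 ^ L) θ h1a hQ3 ?_ hl0L hθ0.le hZ'
            hs ?_).mono hKa le_rfl (one_le_pow₀ one_le_two) hKa
          · exact Nat.le_mul_of_pos_left _ (Nat.mul_pos hQ1 hL)
          · rw [hθ, one_div, inv_mul_le_iff₀ (by positivity), Real.log_pow]
            push_cast
            calc (K₂ : ℝ) * (Q * L) ^ 2 * (Q * L ^ 3) ^ 2 * (Q * L ^ 3) ^ 2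
                = K₂ * Q ^ 6 * L ^ 14 := by ring
              _ ≤ R * Real.log l₀ * L ^ 14 :=
                mul_le_mul_of_nonneg_right hR' (pow_nonneg (Nat.cast_nonneg _) _)
              _ ≤ R * Real.log 2 * L ^ 14 := mul_le_mul_of_nonneg_right
                (mul_le_mul_of_nonneg_left (Real.log_le_log (one_pos.trans hl1) hl2) hR0.le)
                (pow_nonneg (Nat.cast_nonneg _) _)
              _ = _ := by ring
      have hB := hincr W' h2' A' X Y D L c a hA' hIn hL hLc hca k1 k2 k3 k4 k5 (hups X k3 hX).1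
        (hups Y k4 hY).1 (hups X k3 hX).2 (hups Y k4 hY).2
      obtain ⟨W'', j1, j2, j3, h2'', hle2, A'', X', Y', D', g, hA'', hIn', hne', hX', hY', hg, s1,
        s2, s3⟩ := hstep W' h2' A' X Y D L c θ hA' hIn hne hL hLc k2 hθ0 hθ1 hB
      rw [← hω] at s3
      have hg0 : 0 < g := lt_of_lt_of_le (by norm_num) hg
      have hG0 : 0 < G := by linarith
      refine ⟨W'', j1, j2, j3, h2'', hle2.trans hle, A'', X', Y', D', G * g, hA'', hIn', hne', hX',
        hY', by rw [pow_succ]; exact mul_le_mul hG hg (by norm_num) hG0.le,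
        le_of_mul_le_mul_right ?_ hA0,
        le_of_mul_le_mul_right ?_ hA0, le_of_mul_le_mul_right ?_ p1⟩
      · calc G * g * tri D' X' Y' * #A' = G * (g * #A' * tri D' X' Y') := by ring
          _ ≤ G * (#A'' * tri D X Y) := mul_le_mul_of_nonneg_left s1 hG0.le
          _ = #A'' * (G * tri D X Y) := by ring
          _ ≤ #A'' * (2 ^ L * #A') := mul_le_mul_of_nonneg_left h1 (Nat.cast_nonneg _)
          _ = _ := by ring
      · calc (#X' : ℝ) * #Y' * #A' = #A' * #X' * #Y' := by ring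
          _ ≤ g ^ (K₃ * L) * #A'' * #X * #Y := s2
          _ = g ^ (K₃ * L) * #A'' * (#X * #Y) := by ring
          _ ≤ g ^ (K₃ * L) * #A'' * (2 ^ L * G ^ (K₃ * L) * #A') :=
            mul_le_mul_of_nonneg_left h3 (mul_nonneg (pow_nonneg hg0.le _) (Nat.cast_nonneg _))
          _ = _ := by rw [mul_pow]; ring
      · calc (Fintype.card W : ℝ) ^ ω * (Fintype.card W'' : ℝ) ^ (1 - ω) *
              (Fintype.card W' : ℝ) ^ (1 - ω)
            = (Fintype.card W : ℝ) ^ ω * (Fintype.card W' : ℝ) ^ (1 - ω) *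
              (Fintype.card W'' : ℝ) ^ (1 - ω) := by ring
          _ ≤ G ^ (K₃ * c) * √(#X * #Y) * (Fintype.card W'' : ℝ) ^ (1 - ω) :=
            mul_le_mul_of_nonneg_right h4 (Real.rpow_nonneg (Nat.cast_nonneg _) _)
          _ = G ^ (K₃ * c) * (√(#X * #Y) * (Fintype.card W'' : ℝ) ^ (1 - ω)) := by ring
          _ ≤ G ^ (K₃ * c) * (g ^ (K₃ * c) * √(#X' * #Y') * (Fintype.card W' : ℝ) ^ (1 - ω)) :=
            mul_le_mul_of_nonneg_left s3 (pow_nonneg hG0.le _)
          _ = _ := by rw [mul_pow]; ring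
  obtain ⟨t, ht⟩ := pow_unbounded_of_one_lt ((2 : ℝ) ^ L) (show (1 : ℝ) < 1 + 1 / 5000 by norm_num)
  obtain ⟨W', i1, i2, i3, -, -, A', X, Y, D, G, -, hIn, hne, -, -, hG, h1, -, -⟩ := key t
  have hA0 : (0 : ℝ) < #A' := by exact_mod_cast card_pos.2 hne
  have hAt : (#A' : ℝ) ≤ tri D X Y := by exact_mod_cast main_le_tri hIn
  have hG0 : 0 ≤ G := le_trans (by positivity) hG
  have hG2 : G ≤ 2 ^ L := le_of_mul_le_mul_right ((mul_le_mul_of_nonneg_left hAt hG0).trans h1) hA0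
  linarith

theorem main_root {n m : ℕ} (h : n ≤ m ^ 16) : (n : ℝ) ^ (1 / 16 : ℝ) ≤ m := by
  have h7 : (n : ℝ) ≤ (m : ℝ) ^ 16 := by exact_mod_cast h
  refine (Real.rpow_le_rpow (Nat.cast_nonneg _) h7 (by norm_num)).trans_eq ?_
  rw [← Real.rpow_natCast, ← Real.rpow_mul (Nat.cast_nonneg _)]
  norm_num

theorem main : ∃ c : ℝ, 0 < c ∧ ∀ (n : ℕ) (A : Finset ((Fin n → ZMod 2) × (Fin n → ZMod 2))),
    (∀ x y z : Fin n → ZMod 2, z ≠ 0 → ¬ ((x, y) ∈ A ∧ (x, y + z) ∈ A ∧ (x + z, y) ∈ A)) →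
    (#A : ℝ) ≤ 2 * 4 ^ n * Real.exp (-c * (n : ℝ) ^ (1 / 16 : ℝ)) := by
  obtain ⟨K, hK⟩ := main_dim
  refine ⟨Real.log 2 / (K + 1), div_pos (Real.log_pos one_lt_two) (by positivity),
    fun n A hA => ?_⟩
  rcases A.eq_empty_or_nonempty with rfl | hne
  · simp only [card_empty, Nat.cast_zero]; positivity
  have hA0 : 1 ≤ #A := card_pos.2 hne
  have hN : Fintype.card (Fin n → ZMod 2) = 2 ^ n := by simp
  have hex : ∃ L, 4 ^ n ≤ 2 ^ (L + 1) * #A := ⟨2 * n, by
    calc 4 ^ n = 2 ^ (2 * n) * 1 := by rw [pow_mul]; norm_num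
      _ ≤ _ := Nat.mul_le_mul (Nat.pow_le_pow_right two_pos (by omega)) hA0⟩
  have h1 := Nat.find_spec hex
  have h3 : 2 ^ Nat.find hex * #A ≤ 4 ^ n := by
    rcases h : Nat.find hex with _ | L
    · have := card_le_univ A
      rw [Fintype.card_prod, hN, ← mul_pow] at this
      simpa using this
    · exact (not_le.1 (Nat.find_min hex (by omega))).le
  generalize Nat.find hex = L at h1 h3
  have h4 := hK (Fin n → ZMod 2) (fun x => by ext i; exact CharTwo.add_self_eq_zero _) A (L + 1)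
    (fun x y z a b c => by_contra fun h => hA x y z h ⟨a, b, c⟩) (by omega)
    (by rw [hN, ← pow_mul, mul_comm n, pow_mul]; exact h1)
  rw [hN] at h4
  have h5 : n ≤ ((K + 1) * (L + 1)) ^ 16 := by
    refine ((Nat.pow_le_pow_iff_right one_lt_two).1 h4).trans ?_
    rw [mul_pow]
    exact Nat.mul_le_mul_right _ ((Nat.le_succ K).trans (Nat.le_self_pow (by norm_num) _))
  have h6 := main_root h5
  clear hK h4 h5 h1
  push_cast at h6
  have h8 : Real.exp (-(Real.log 2 * (L + 1))) ≤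
      Real.exp (-(Real.log 2 / (K + 1)) * (n : ℝ) ^ (1 / 16 : ℝ)) := by
    refine Real.exp_le_exp.2 ?_
    rw [neg_mul, neg_le_neg_iff, div_mul_eq_mul_div, div_le_iff₀ (by positivity), mul_assoc]
    exact mul_le_mul_of_nonneg_left (h6.trans_eq (mul_comm _ _)) (Real.log_pos one_lt_two).le
  have h9 : Real.exp (-(Real.log 2 * (L + 1))) = ((2 : ℝ) ^ (L + 1))⁻¹ := by
    rw [Real.exp_neg, Real.exp_mul, Real.exp_log two_pos, ← Real.rpow_natCast]
    push_cast; rfl
  refine le_trans ?_ (mul_le_mul_of_nonneg_left h8 (by positivity))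
  rw [h9, ← div_eq_mul_inv, le_div_iff₀ (by positivity)]
  have h10 : (2 : ℝ) ^ L * #A ≤ 4 ^ n := by exact_mod_cast h3
  rw [pow_succ]; linarith

end Pool.Agent.P.MP_db4732_co.Q
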