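import Pool.Agent.P.MP_db4732_co.Q.Trans

/-! Passing to a cell in which both sides are spread. -/

set_option autoImplicit false

namespace Pool.Agent.P.MP_db4732_co.Q

open Finset

variable {W : Type} [AddCommGroup W] [Fintype W] [DecidableEq W]

omit [DecidableEq W] in
theorem part_pos (V : AddSubgroup W) : (0 : ℝ) < Nat.card V := by
  exact_mod_cast Nat.card_pos

omit [DecidableEq W] in
theorem part_le {V V' : AddSubgroup W} (h : V' ≤ V) : (Nat.card V' : ℝ) ≤ Nat.card V := by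
  exact_mod_cast AddSubgroup.card_le_of_le h

theorem part_sq {v : ℝ} (hv : 0 ≤ v) (t : ℝ) : (v ^ (t / 2)) ^ 2 = v ^ t := by
  rw [← Real.rpow_natCast, ← Real.rpow_mul hv]
  norm_num

theorem part_num {n m a b : ℝ} (hm : 0 < m) (hmn : m ≤ n) (hb : 0 ≤ b)
    (h : n * a ^ 2 ≤ m * b ^ 2) : 2 * √(n - m) * b + √m * a ≤ 2 * √n * b := by
  have hn : 0 < n := hm.trans_le hmn
  have hs : 0 < √n := Real.sqrt_pos.2 hn
  have e1 : √n ^ 2 = n := Real.sq_sqrt hn.le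
  have e2 : √m ^ 2 = m := Real.sq_sqrt hm.le
  have e3 : √(n - m) ^ 2 = n - m := Real.sq_sqrt (sub_nonneg.2 hmn)
  have h1 : √m * a * √n ≤ m * b := by
    refine le_of_sq_le_sq ?_ (by positivity)
    rw [mul_pow, mul_pow, e1, e2, mul_pow]
    nlinarith [mul_le_mul_of_nonneg_left h hm.le]
  have h2 : 2 * √(n - m) * √n + m ≤ 2 * n := by nlinarith [sq_nonneg (√(n - m) - √n)]
  refine le_of_mul_le_mul_right ?_ hs
  have h3 := mul_le_mul_of_nonneg_right h2 hb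
  calc (2 * √(n - m) * b + √m * a) * √n = 2 * √(n - m) * √n * b + √m * a * √n := by ring
    _ ≤ 2 * n * b := by linarith
    _ = 2 * √n ^ 2 * b := by rw [e1]
    _ = 2 * √n * b * √n := by ring

/-- Greedy partition into spread pieces, in dual form. -/
theorem part_one (h2 : ∀ x : W, x + x = 0) (θ : ℝ) (V : AddSubgroup W) (z₀ : W) (φ : W → ℝ)
    {M : ℝ} (hM : 0 ≤ M) (Y : Finset W) (hYV : Y ⊆ cs V z₀)
    (h : ∀ V' ≤ V, ∀ z : W, ∀ Y' ⊆ Y ∩ cs V' z, Y'.Nonempty → Spread 1 θ V' Y' →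
      ∑ y ∈ Y', φ y ≤ M * √(#Y') * (Nat.card V' : ℝ) ^ ((1 - θ) / 2)) :
    ∑ y ∈ Y, φ y ≤ 2 * M * √(#Y) * (Nat.card V : ℝ) ^ ((1 - θ) / 2) := by
  induction' hn : #Y using Nat.strong_induction_on with n ih generalizing Y
  subst hn
  rcases Y.eq_empty_or_nonempty with rfl | hY
  · simp
  obtain ⟨V', hV', z, hne, hsp, hle⟩ := exists_spread h2 θ V z₀ hY hYV
  set Y1 := Y ∩ cs V' z with hY1
  have hsub : Y1 ⊆ Y := inter_subset_left
  have h1 := h V' hV' z Y1 subset_rfl hne hsp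
  have hc : #(Y \ Y1) + #Y1 = #Y := card_sdiff_add_card_eq_card hsub
  have hp := hne.card_pos
  have h3 := ih #(Y \ Y1) (by omega) (Y \ Y1) (sdiff_subset.trans hYV)
    (fun V'' hV'' z' Y' hY' => h V'' hV'' z' Y'
      (hY'.trans (inter_subset_inter_right sdiff_subset))) rfl
  rw [← sum_sdiff hsub]
  have hcr : (#(Y \ Y1) : ℝ) = #Y - #Y1 := by rw [← hc]; push_cast; ring
  rw [hcr] at h3
  have h4 := part_num (n := #Y) (m := #Y1) (a := (Nat.card V' : ℝ) ^ ((1 - θ) / 2))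
    (b := (Nat.card V : ℝ) ^ ((1 - θ) / 2)) (by exact_mod_cast hp)
    (by exact_mod_cast card_le_card hsub) (by positivity)
    (by rw [part_sq (part_pos V').le, part_sq (part_pos V).le]; exact hle)
  nlinarith [mul_le_mul_of_nonneg_left h4 hM]

theorem part_card (h2 : ∀ x : W, x + x = 0) {V V' : AddSubgroup W} (hV : V' ≤ V) (z₀ : W)
    {X : Finset W} (hX : X ⊆ cs V z₀) :
    ∑ z ∈ cs V z₀, (#(X ∩ cs V' z) : ℝ) = Nat.card V' * #X := by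
  simpa using sum_cs h2 hV z₀ hX fun _ => 1

theorem part_cs (h2 : ∀ x : W, x + x = 0) {V V' : AddSubgroup W} (hV : V' ≤ V) (z₀ : W)
    {X : Finset W} (hX : X ⊆ cs V z₀) {S : Finset W} (hS : S ⊆ cs V z₀) :
    ∑ z ∈ S, √(#(X ∩ cs V' z)) ≤ √(Nat.card V) * √(Nat.card V') * √(#X) := by
  rw [← Real.sqrt_mul (part_pos V).le, ← Real.sqrt_mul (by positivity)]
  refine Real.le_sqrt_of_sq_le (sq_sum_le_card_mul_sum_sq.trans ?_)
  rw [mul_assoc, ← part_card h2 hV z₀ hX, ← card_cs V z₀]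
  refine mul_le_mul (by exact_mod_cast card_le_card hS) ?_ (by positivity) (by positivity)
  rw [sum_congr rfl fun z _ => Real.sq_sqrt (Nat.cast_nonneg _)]
  exact sum_le_sum_of_subset_of_nonneg hS fun _ _ _ => Nat.cast_nonneg _

theorem part_mono {ρ θ θ' : ℝ} {V : AddSubgroup W} {Y : Finset W} (h : Spread ρ θ V Y)
    (hρ : 0 ≤ ρ) (hθ : θ ≤ θ') : Spread ρ θ' V Y := fun V' hV' z => by
  have h1 := h V' hV' z
  have e : ∀ U : AddSubgroup W, (Nat.card U : ℝ) ^ (1 - θ) =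
      (Nat.card U : ℝ) ^ (1 - θ') * (Nat.card U : ℝ) ^ (θ' - θ) := fun U => by
    rw [← Real.rpow_add (part_pos U)]; congr 1; ring
  rw [e V, e V'] at h1
  have h3 : (Nat.card V' : ℝ) ^ (θ' - θ) ≤ (Nat.card V : ℝ) ^ (θ' - θ) :=
    Real.rpow_le_rpow (part_pos V').le (part_le hV') (sub_nonneg.2 hθ)
  have h4 : 0 < (Nat.card V : ℝ) ^ (θ' - θ) := Real.rpow_pos_of_pos (part_pos V) _
  refine le_of_mul_le_mul_right ?_ h4
  have h5 : 0 ≤ ρ * #Y * (Nat.card V' : ℝ) ^ (1 - θ') := by positivity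
  nlinarith [mul_le_mul_of_nonneg_left h3 h5]

/-- The shallow case: most cosets carry a spread trace. -/
theorem part_shallow (h2 : ∀ x : W, x + x = 0) {κ e θ η M MF c : ℝ} (hM : 0 ≤ M) (hMF : 0 ≤ MF)
    (hc : 0 ≤ c) (he0 : 0 < e) (he1 : e < 1) (hκ : 1 + e ≤ κ * (1 - e)) (hη : η ≤ θ)
    {V1 V2 : AddSubgroup W} (hV : V2 ≤ V1) (z1 : W) {Y1 : Finset W} (hY1 : Y1 ⊆ cs V1 z1)
    (hne : Y1.Nonempty) (hsY : Spread 1 η V1 Y1)
    (hr : ((Nat.card V1 : ℝ) / Nat.card V2) ^ η ≤ 1 + e / 8) (f : W → ℝ)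
    (hall : ∀ w, f w ≤ M * (c * √(#(Y1 ∩ cs V2 w))))
    (hfin : ∀ w, (Y1 ∩ cs V2 w).Nonempty → Spread κ θ V2 (Y1 ∩ cs V2 w) →
      f w ≤ MF * (c * √(#(Y1 ∩ cs V2 w)))) :
    ∑ w ∈ cs V1 z1, f w ≤ (MF + M / 8) * (c * (√(Nat.card V1) * √(Nat.card V2) * √(#Y1))) := by
  have p1 := part_pos V1
  have p2 := part_pos V2
  set v1 := (Nat.card V1 : ℝ) with hv1
  set v2 := (Nat.card V2 : ℝ) with hv2
  have pY : (0 : ℝ) < #Y1 := by exact_mod_cast hne.card_pos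
  set r := v1 / v2 with hrd
  have pr : 0 < r := div_pos p1 p2
  set a := (#Y1 : ℝ) / r with had
  have pa : 0 < a := div_pos pY pr
  have ea : (#Y1 : ℝ) = a * r := by rw [had]; field_simp
  have e1 : v1 = r * v2 := by rw [hrd]; field_simp
  have hκ0 : 0 ≤ κ := by nlinarith
  have key : ∀ V3 ≤ V2, ∀ z : W, (#(Y1 ∩ cs V3 z) : ℝ) * v2 ^ (1 - η) ≤
      (1 + e / 8) * a * (Nat.card V3 : ℝ) ^ (1 - η) := fun V3 hV3 z => by
    have h1 := hsY V3 (hV3.trans hV) z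
    rw [← hv1, e1, Real.mul_rpow pr.le p2.le, one_mul] at h1
    have e3 : r ^ (1 - η) * r ^ η = r := by rw [← Real.rpow_add pr]; simp
    have q1 : 0 < r ^ η := Real.rpow_pos_of_pos pr _
    have q3 : 0 < (Nat.card V3 : ℝ) ^ (1 - η) := Real.rpow_pos_of_pos (part_pos V3) _
    have h3 := mul_le_mul_of_nonneg_right h1 q1.le
    have h4 := mul_le_mul_of_nonneg_left hr (mul_pos pY q3).le
    refine le_of_mul_le_mul_right ?_ pr
    calc (#(Y1 ∩ cs V3 z) : ℝ) * v2 ^ (1 - η) * r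
        = #(Y1 ∩ cs V3 z) * (r ^ (1 - η) * v2 ^ (1 - η)) * r ^ η := by
          conv_lhs => rw [← e3]
          ring
      _ ≤ #Y1 * (Nat.card V3 : ℝ) ^ (1 - η) * (1 + e / 8) := h3.trans h4
      _ = _ := by rw [ea]; ring
  have up : ∀ w, (#(Y1 ∩ cs V2 w) : ℝ) ≤ (1 + e / 8) * a := fun w =>
    le_of_mul_le_mul_right (key V2 le_rfl w) (Real.rpow_pos_of_pos p2 _)
  have thick : ∀ w, ¬ (#(Y1 ∩ cs V2 w) : ℝ) < (1 - e) * a →
      f w ≤ MF * (c * √(#(Y1 ∩ cs V2 w))) := fun w hw => by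
    push Not at hw
    refine hfin w ?_ (part_mono (fun V3 hV3 z => ?_) hκ0 hη)
    · rw [← card_pos]
      have : (0 : ℝ) < #(Y1 ∩ cs V2 w) := lt_of_lt_of_le (mul_pos (sub_pos.2 he1) pa) hw
      exact_mod_cast this
    · have h1 : (#(Y1 ∩ cs V2 w ∩ cs V3 z) : ℝ) ≤ #(Y1 ∩ cs V3 z) := by
        exact_mod_cast card_le_card (inter_subset_inter_right inter_subset_left)
      refine (mul_le_mul_of_nonneg_right h1 (Real.rpow_pos_of_pos p2 _).le).trans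
        ((key V3 hV3 z).trans (mul_le_mul_of_nonneg_right ?_
          (Real.rpow_pos_of_pos (part_pos V3) _).le))
      nlinarith [mul_le_mul_of_nonneg_left hw hκ0, mul_le_mul_of_nonneg_right hκ pa.le]
  set T := (cs V1 z1).filter fun w => (#(Y1 ∩ cs V2 w) : ℝ) < (1 - e) * a with hT
  have hcard : (#(cs V1 z1) : ℝ) = v1 := by rw [card_cs]
  have hTc : (#T : ℝ) ≤ v1 / 8 := by
    have s1 : ∑ w ∈ cs V1 z1, ((1 + e / 8) * a - #(Y1 ∩ cs V2 w)) = v1 * (e / 8) * a := by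
      rw [sum_sub_distrib, part_card h2 hV z1 hY1, sum_const, nsmul_eq_mul, hcard, ← hv2, ea, e1]
      ring
    have s2 : ∑ w ∈ T, ((1 + e / 8) * a - #(Y1 ∩ cs V2 w)) ≤ v1 * (e / 8) * a := by
      rw [← s1]
      exact sum_le_sum_of_subset_of_nonneg (filter_subset _ _) fun w _ _ => sub_nonneg.2 (up w)
    have s3 : #T • (e * a) ≤ ∑ w ∈ T, ((1 + e / 8) * a - #(Y1 ∩ cs V2 w)) :=
      card_nsmul_le_sum _ _ _ fun w hw => by
        have := (mem_filter.1 hw).2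
        nlinarith [mul_pos he0 pa]
    rw [nsmul_eq_mul] at s3
    refine le_of_mul_le_mul_right ?_ (mul_pos he0 pa)
    linarith
  have eQ : √v1 * √v2 * √(#Y1) = v1 * √a := by
    rw [← Real.sqrt_mul p1.le, ← Real.sqrt_mul (by positivity), ea,
      show v1 * v2 * (a * r) = v1 ^ 2 * a by rw [e1]; ring, Real.sqrt_mul (by positivity),
      Real.sqrt_sq p1.le]
  have t1 : ∑ w ∈ T, f w ≤ #T • (M * (c * √a)) := sum_le_card_nsmul _ _ _ fun w hw => by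
    refine (hall w).trans (mul_le_mul_of_nonneg_left (mul_le_mul_of_nonneg_left
      (Real.sqrt_le_sqrt ?_) hc) hM)
    have := (mem_filter.1 hw).2
    nlinarith [mul_pos he0 pa]
  rw [nsmul_eq_mul] at t1
  have t2 := mul_le_mul_of_nonneg_right hTc (mul_nonneg hM (mul_nonneg hc (Real.sqrt_nonneg a)))
  have t3 : ∑ w ∈ (cs V1 z1).filter fun w => ¬ (#(Y1 ∩ cs V2 w) : ℝ) < (1 - e) * a, f w ≤
      MF * (c * (√v1 * √v2 * √(#Y1))) := by
    refine (sum_le_sum fun w hw => thick w (mem_filter.1 hw).2).trans ?_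
    rw [← mul_sum, ← mul_sum]
    exact mul_le_mul_of_nonneg_left (mul_le_mul_of_nonneg_left
      (part_cs h2 hV z1 hY1 (filter_subset _ _)) hc) hMF
  rw [← sum_filter_add_sum_filter_not (cs V1 z1)
    fun w => (#(Y1 ∩ cs V2 w) : ℝ) < (1 - e) * a]
  rw [eQ] at t3 ⊢
  nlinarith

/-- Both pieces are fixed: split the second one along the cosets of the smaller group. -/
theorem part_three (h2 : ∀ x : W, x + x = 0) {κ e θ ω M MF : ℝ} (hM : 0 ≤ M) (hMF : 0 ≤ MF)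
    (he0 : 0 < e) (he1 : e < 1) (hκ : 1 + e ≤ κ * (1 - e)) (hω : 0 < ω) (hθ : 4 * ω ≤ θ)
    (hJ : ∀ r : ℝ, 1 ≤ r → r ^ (θ / 2 - ω) < 8 → r ^ (2 * ω) ≤ 1 + e / 8) (ν : W → W → ℝ)
    {V1 V2 : AddSubgroup W} (hV : V2 ≤ V1) (z1 : W) (X2 : Finset W) {Y1 : Finset W}
    (hY1 : Y1 ⊆ cs V1 z1) (hne : Y1.Nonempty) (hsY : Spread 1 (2 * ω) V1 Y1)
    (hall : ∀ w, ∑ x ∈ X2, ∑ y ∈ Y1 ∩ cs V2 w, ν x y ≤
      M * (√(#X2 * #(Y1 ∩ cs V2 w)) * (Nat.card V2 : ℝ) ^ (1 - ω)))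
    (hfin : ∀ w, (Y1 ∩ cs V2 w).Nonempty → Spread κ θ V2 (Y1 ∩ cs V2 w) →
      ∑ x ∈ X2, ∑ y ∈ Y1 ∩ cs V2 w, ν x y ≤
        MF * (√(#X2 * #(Y1 ∩ cs V2 w)) * (Nat.card V2 : ℝ) ^ (1 - ω))) :
    ∑ x ∈ X2, ∑ y ∈ Y1, ν x y ≤ (MF + M / 8) * √(#Y1) * (Nat.card V1 : ℝ) ^ (1 / 2 - ω + θ / 2) *
      √(#X2) * (Nat.card V2 : ℝ) ^ ((1 - θ) / 2) := by
  have p1 := part_pos V1
  have p2 := part_pos V2
  have hr : 1 ≤ (Nat.card V1 : ℝ) / Nat.card V2 := (one_le_div p2).2 (part_le hV)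
  set c := √(#X2) * (Nat.card V2 : ℝ) ^ (1 - ω) with hc
  have pc : 0 ≤ c := by positivity
  have ec : ∀ w, √(#X2 * #(Y1 ∩ cs V2 w)) * (Nat.card V2 : ℝ) ^ (1 - ω) =
      c * √(#(Y1 ∩ cs V2 w)) := fun w => by
    rw [Real.sqrt_mul (Nat.cast_nonneg _), hc]; ring
  simp only [ec] at hall hfin
  have es : (Nat.card V2 : ℝ) * ∑ x ∈ X2, ∑ y ∈ Y1, ν x y =
      ∑ w ∈ cs V1 z1, ∑ x ∈ X2, ∑ y ∈ Y1 ∩ cs V2 w, ν x y := by
    rw [sum_comm, ← sum_cs h2 hV z1 hY1]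
    exact sum_congr rfl fun w _ => sum_comm
  set Q := √(Nat.card V1 : ℝ) * √(Nat.card V2 : ℝ) * √(#Y1) with hQ
  have pQ : 0 ≤ Q := by positivity
  set ρ := ((Nat.card V1 : ℝ) / Nat.card V2) ^ (θ / 2 - ω) with hρ
  have hρ1 : 1 ≤ ρ := Real.one_le_rpow hr (by linarith)
  have main : ∑ w ∈ cs V1 z1, ∑ x ∈ X2, ∑ y ∈ Y1 ∩ cs V2 w, ν x y ≤
      (MF + M / 8) * (c * Q) * ρ := by
    have pcQ : 0 ≤ c * Q := mul_nonneg pc pQ
    rcases lt_or_ge ρ 8 with h8 | h8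
    · refine (part_shallow h2 hM hMF pc he0 he1 hκ (by linarith) hV z1 hY1 hne hsY
        (hJ _ hr h8) _ hall hfin).trans ?_
      exact le_mul_of_one_le_right (by positivity) hρ1
    · refine (sum_le_sum fun w _ => hall w).trans ?_
      rw [← mul_sum, ← mul_sum]
      have h3 := mul_le_mul_of_nonneg_left (mul_le_mul_of_nonneg_left
        (part_cs h2 hV z1 hY1 subset_rfl) pc) hM
      have h4 := mul_le_mul_of_nonneg_left h8 (mul_nonneg hM pcQ)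
      have h5 : 0 ≤ MF * (c * Q) * ρ := by positivity
      nlinarith
  refine le_of_mul_le_mul_left (es.le.trans (main.trans (le_of_eq ?_))) p2
  have e1 : (Nat.card V1 : ℝ) ^ (1 / 2 - ω + θ / 2) =
      √(Nat.card V1 : ℝ) * (Nat.card V1 : ℝ) ^ (θ / 2 - ω) := by
    rw [Real.sqrt_eq_rpow, ← Real.rpow_add p1]; congr 1; ring
  have e2 : (Nat.card V2 : ℝ) ^ (1 - ω) * √(Nat.card V2 : ℝ) = (Nat.card V2 : ℝ) ^ (1 : ℝ) *
      (Nat.card V2 : ℝ) ^ ((1 - θ) / 2) * (Nat.card V2 : ℝ) ^ (θ / 2 - ω) := by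
    rw [Real.sqrt_eq_rpow, ← Real.rpow_add p2, ← Real.rpow_add p2, ← Real.rpow_add p2]
    congr 1; ring
  rw [Real.rpow_one] at e2
  have p3 : 0 < (Nat.card V2 : ℝ) ^ (θ / 2 - ω) := Real.rpow_pos_of_pos p2 _
  rw [hρ, Real.div_rpow p1.le p2.le, e1, hc, hQ, ← mul_div_assoc, div_eq_iff p3.ne']
  linear_combination ((MF + M / 8) * √(#X2) * √(Nat.card V1 : ℝ) * √(#Y1) *
    (Nat.card V1 : ℝ) ^ (θ / 2 - ω)) * e2

/-- The second piece is fixed: split the first set along cosets and into spread pieces. -/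
theorem part_two (h2 : ∀ x : W, x + x = 0) {θ ω K : ℝ} (hK : 0 ≤ K) (ψ : W → ℝ)
    {V V1 : AddSubgroup W} (hV : V1 ≤ V) (x₀ : W) {X : Finset W} (hX : X ⊆ cs V x₀)
    (h : ∀ V2 ≤ V1, ∀ z : W, ∀ X2 ⊆ X ∩ cs V2 z, X2.Nonempty → Spread 1 θ V2 X2 →
      ∑ x ∈ X2, ψ x ≤ K * (Nat.card V1 : ℝ) ^ (1 / 2 - ω + θ / 2) * √(#X2) *
        (Nat.card V2 : ℝ) ^ ((1 - θ) / 2)) :
    ∑ x ∈ X, ψ x ≤ 2 * K * (√(Nat.card V) * √(#X)) * (Nat.card V1 : ℝ) ^ ((1 - 2 * ω) / 2) := by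
  have p1 := part_pos V1
  set K' := K * (Nat.card V1 : ℝ) ^ (1 / 2 - ω + θ / 2) with hK'
  have pK : 0 ≤ K' := by positivity
  have h1 : ∀ z, ∑ x ∈ X ∩ cs V1 z, ψ x ≤
      2 * K' * (Nat.card V1 : ℝ) ^ ((1 - θ) / 2) * √(#(X ∩ cs V1 z)) := fun z => by
    refine (part_one h2 θ V1 z ψ pK _ inter_subset_right fun V2 hV2 z' X2 hX2 =>
      h V2 hV2 z' X2 (hX2.trans (inter_subset_inter_right inter_subset_left))).trans
        (le_of_eq ?_)
    ring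
  refine le_of_mul_le_mul_left ?_ p1
  rw [← sum_cs h2 hV x₀ hX]
  refine (sum_le_sum fun z _ => h1 z).trans ?_
  rw [← mul_sum]
  refine (mul_le_mul_of_nonneg_left (part_cs h2 hV x₀ hX subset_rfl) (by positivity)).trans
    (le_of_eq ?_)
  have e : (Nat.card V1 : ℝ) ^ (1 / 2 - ω + θ / 2) * (Nat.card V1 : ℝ) ^ ((1 - θ) / 2) *
      √(Nat.card V1 : ℝ) = (Nat.card V1 : ℝ) ^ (1 : ℝ) * (Nat.card V1 : ℝ) ^ ((1 - 2 * ω) / 2) := by
    rw [Real.sqrt_eq_rpow, ← Real.rpow_add p1, ← Real.rpow_add p1, ← Real.rpow_add p1]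
    congr 1; ring
  rw [Real.rpow_one] at e
  rw [hK']
  linear_combination (2 * K * √(Nat.card V : ℝ) * √(#X)) * e

theorem pseudo {κ : ℝ} (hκ : 1 < κ) : ∃ J : ℕ, 4 ≤ J ∧ ∀ (W : Type) [AddCommGroup W] [Fintype W]
    [DecidableEq W], (∀ x : W, x + x = 0) → ∀ (θ : ℝ), 0 < θ → θ ≤ 1 → ∀ (X Y : Finset W)
    (ν : W → W → ℝ), 0 < ∑ x ∈ X, ∑ y ∈ Y, ν x y →
    ∃ (V : AddSubgroup W) (x₀ y₀ : W), ∃ X' ⊆ X ∩ cs V x₀, ∃ Y' ⊆ Y ∩ cs V y₀,
      X'.Nonempty ∧ Y'.Nonempty ∧ Spread κ θ V X' ∧ Spread κ θ V Y' ∧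
      (∑ x ∈ X, ∑ y ∈ Y, ν x y) * √(#X' * #Y') * (Nat.card V : ℝ) ^ (1 - θ / J) ≤
        16 * (∑ x ∈ X', ∑ y ∈ Y', ν x y) * √(#X * #Y) * (Fintype.card W : ℝ) ^ (1 - θ / J) := by
  set e := (κ - 1) / (κ + 1) with he
  have he0 : 0 < e := div_pos (by linarith) (by linarith)
  have he1 : e < 1 := (div_lt_one (by linarith)).2 (by linarith)
  have hκe : 1 + e ≤ κ * (1 - e) := by
    have : e * (κ + 1) = κ - 1 := by rw [he]; field_simp
    nlinarith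
  obtain ⟨J₀, hJ₀⟩ := pow_unbounded_of_one_lt ((8 : ℝ) ^ 8) (show 1 < 1 + e / 8 by linarith)
  refine ⟨J₀ + 4, by omega, fun W _ _ _ h2 θ hθ0 hθ1 X Y ν hν => ?_⟩
  set J : ℕ := J₀ + 4 with hJd
  have hJ4 : (4 : ℝ) ≤ J := by rw [hJd]; push_cast; linarith [Nat.cast_nonneg (α := ℝ) J₀]
  set ω := θ / J with hω
  have eω : ω * J = θ := by rw [hω]; field_simp
  have pω : 0 < ω := div_pos hθ0 (by linarith)
  have h4ω : 4 * ω ≤ θ := by nlinarith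
  have hJ : ∀ r : ℝ, 1 ≤ r → r ^ (θ / 2 - ω) < 8 → r ^ (2 * ω) ≤ 1 + e / 8 := fun r hr h8 => by
    have pr : 0 ≤ r := by linarith
    refine le_of_pow_le_pow_left₀ (n := J) (by omega) (by linarith) ?_
    have a1 : r ^ (θ / 4) ≤ 8 := (Real.rpow_le_rpow_of_exponent_le hr (by linarith)).trans h8.le
    have a2 : (r ^ (2 * ω)) ^ J = (r ^ (θ / 4)) ^ 8 := by
      rw [← Real.rpow_natCast, ← Real.rpow_natCast, ← Real.rpow_mul pr, ← Real.rpow_mul pr]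
      congr 1; push_cast; linarith
    rw [a2]
    exact (pow_le_pow_left₀ (by positivity) a1 8).trans
      (hJ₀.le.trans (pow_le_pow_right₀ (by linarith) (by omega)))
  have hX : X.Nonempty := by
    rcases X.eq_empty_or_nonempty with rfl | h
    · simp at hν
    · exact h
  have hY : Y.Nonempty := by
    rcases Y.eq_empty_or_nonempty with rfl | h
    · simp at hν
    · exact h
  have pP : ∀ (V : AddSubgroup W) (X' Y' : Finset W), X'.Nonempty → Y'.Nonempty →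
      0 < √(#X' * #Y') * (Nat.card V : ℝ) ^ (1 - ω) := fun V X' Y' h1 h3 =>
    mul_pos (Real.sqrt_pos.2 (mul_pos (by exact_mod_cast h1.card_pos)
      (by exact_mod_cast h3.card_pos))) (Real.rpow_pos_of_pos (part_pos V) _)
  by_contra hcon
  push Not at hcon
  rw [← card_top] at hcon
  set ν₀ := ∑ x ∈ X, ∑ y ∈ Y, ν x y with hν₀
  set P₀ := √(#X * #Y) * (Nat.card (⊤ : AddSubgroup W) : ℝ) ^ (1 - ω) with hP₀
  have pP₀ : 0 < P₀ := pP ⊤ X Y hX hY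
  obtain ⟨⟨V, x₀, y₀, X', Y'⟩, ⟨hX', hY', nX, nY⟩, hmax⟩ := Set.exists_max_image
    {q : AddSubgroup W × W × W × Finset W × Finset W | q.2.2.2.1 ⊆ X ∩ cs q.1 q.2.1 ∧
      q.2.2.2.2 ⊆ Y ∩ cs q.1 q.2.2.1 ∧ q.2.2.2.1.Nonempty ∧ q.2.2.2.2.Nonempty}
    (fun q => (∑ x ∈ q.2.2.2.1, ∑ y ∈ q.2.2.2.2, ν x y) /
      (√(#q.2.2.2.1 * #q.2.2.2.2) * (Nat.card q.1 : ℝ) ^ (1 - ω))) (Set.toFinite _)
    ⟨(⊤, 0, 0, X, Y), by simp [cs_top], by simp [cs_top], hX, hY⟩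
  dsimp only at hX' hY' nX nY hmax
  set M := (∑ x ∈ X', ∑ y ∈ Y', ν x y) / (√(#X' * #Y') * (Nat.card V : ℝ) ^ (1 - ω)) with hM
  have hM₀ : ν₀ / P₀ ≤ M := hmax (⊤, 0, 0, X, Y) ⟨by simp [cs_top], by simp [cs_top], hX, hY⟩
  have pM₀ : 0 < ν₀ / P₀ := div_pos hν pP₀
  have pM : 0 ≤ M := pM₀.le.trans hM₀
  set MF := ν₀ / P₀ / 16 with hMF
  have pMF : 0 ≤ MF := by positivity
  have hall : ∀ (U : AddSubgroup W) (z w : W) (A B : Finset W), A ⊆ X ∩ cs U z →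
      B ⊆ Y ∩ cs U w → A.Nonempty → ∑ x ∈ A, ∑ y ∈ B, ν x y ≤
        M * (√(#A * #B) * (Nat.card U : ℝ) ^ (1 - ω)) := fun U z w A B hA hB nA => by
    rcases B.eq_empty_or_nonempty with rfl | nB
    · simp
    · exact (div_le_iff₀ (pP U A B nA nB)).1 (hmax (U, z, w, A, B) ⟨hA, hB, nA, nB⟩)
  have hfin : ∀ (U : AddSubgroup W) (z w : W) (A B : Finset W), A ⊆ X ∩ cs U z →
      B ⊆ Y ∩ cs U w → A.Nonempty → B.Nonempty → Spread 1 θ U A → Spread κ θ U B →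
      ∑ x ∈ A, ∑ y ∈ B, ν x y ≤ MF * (√(#A * #B) * (Nat.card U : ℝ) ^ (1 - ω)) := by
    intro U z w A B hA hB nA nB sA sB
    have sA' : Spread κ θ U A := fun U' hU' z' => (sA U' hU' z').trans
      (mul_le_mul_of_nonneg_right (mul_le_mul_of_nonneg_right hκ.le (Nat.cast_nonneg _))
        (Real.rpow_pos_of_pos (part_pos U') _).le)
    have h1 := hcon U z w A hA B hB nA nB sA' sB
    rw [hMF, div_div, div_mul_eq_mul_div, le_div_iff₀ (by positivity), hP₀]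
    linarith
  have pK : 0 ≤ MF + M / 8 := by positivity
  have h1 := part_one h2 (2 * ω) V y₀ (fun y => ∑ x ∈ X', ν x y)
    (M := 2 * (MF + M / 8) * (√(Nat.card V) * √(#X'))) (by positivity) Y'
    (hY'.trans inter_subset_right) fun V1 hV1 z1 Y1 hY1 nY1 sY1 => by
      have hYY : Y1 ⊆ Y := (hY1.trans inter_subset_left).trans (hY'.trans inter_subset_left)
      rw [sum_comm]
      refine (part_two h2 (θ := θ) (ω := ω) (K := (MF + M / 8) * √(#Y1)) (by positivity)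
        (fun x => ∑ y ∈ Y1, ν x y) hV1 x₀ (hX'.trans inter_subset_right)
        fun V2 hV2 z X2 hX2 nX2 sX2 => ?_).trans (le_of_eq (by ring))
      have hXX : X2 ⊆ X ∩ cs V2 z :=
        hX2.trans (inter_subset_inter_right (hX'.trans inter_subset_left))
      exact part_three h2 pM pMF he0 he1 hκe pω h4ω hJ ν hV2 z1 X2 (hY1.trans inter_subset_right)
        nY1 sY1 (fun w => hall V2 z w X2 _ hXX (inter_subset_inter_right hYY) nX2)
        fun w nw sw => hfin V2 z w X2 _ hXX (inter_subset_inter_right hYY) nX2 nw sX2 sw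
  rw [sum_comm] at h1
  have e1 : √(Nat.card V : ℝ) * (Nat.card V : ℝ) ^ ((1 - 2 * ω) / 2) =
      (Nat.card V : ℝ) ^ (1 - ω) := by
    rw [Real.sqrt_eq_rpow, ← Real.rpow_add (part_pos V)]; congr 1; ring
  have h3 : M ≤ 4 * (MF + M / 8) := by
    conv_lhs => rw [hM]
    rw [div_le_iff₀ (pP V X' Y' nX nY), Real.sqrt_mul (Nat.cast_nonneg _), ← e1]
    linarith
  linarith

end Pool.Agent.P.MP_db4732_co.Q
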