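import Pool.Agent.P.MP_db4732_co.Q.Level

/-! Sifting relative to a sparse majorant. -/

set_option autoImplicit false

namespace Pool.Agent.P.MP_db4732_co.Q

open Finset

theorem rs_exp {ι : Type} [DecidableEq ι] {s X : Finset ι} (hX : X ⊆ s) (f : ι → ℝ) (m : ℕ) :
    (∑ x ∈ X, f x) ^ m = ∑ w ∈ Fintype.piFinset fun _ : Fin m => s,
      if ∀ i, w i ∈ X then ∏ i, f (w i) else 0 := by
  have : ∑ x ∈ X, f x = ∑ x ∈ s, if x ∈ X then f x else 0 := by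
    rw [← sum_filter, filter_mem_eq_inter, inter_eq_right.2 hX]
  rw [this, sum_pow']
  refine sum_congr rfl fun w _ => ?_
  rw [prod_ite_zero]
  simp

theorem rs_swap {ι δ : Type} [DecidableEq ι] [DecidableEq δ] {s : Finset ι} (X : Finset ι)
    (D : Finset δ) (N : ι → Finset δ) (a : ι → ℝ) (G : ι → Finset ι) (hG : ∀ x ∈ X, G x ⊆ s) (m : ℕ)
    (φ : ι → δ → ℝ) :
    ∑ x ∈ X, ∑ d ∈ D, φ x d * (∑ y ∈ G x, if d ∈ N y then a y else 0) ^ m =
      ∑ w ∈ Fintype.piFinset fun _ : Fin m => s, (∏ i, a (w i)) *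
        ∑ x ∈ X with ∀ i, w i ∈ G x, ∑ d ∈ D with ∀ i, d ∈ N (w i), φ x d := by
  simp only [sum_filter, mul_sum]
  rw [sum_comm (s := Fintype.piFinset fun _ : Fin m => s)]
  refine sum_congr rfl fun x hx => ?_
  simp only [rs_exp (hG x hx), mul_sum]
  rw [sum_comm]
  refine sum_congr rfl fun w _ => ?_
  split_ifs with h
  · rw [mul_sum]
    refine sum_congr rfl fun d _ => ?_
    rw [prod_ite_zero]
    simp only [mem_univ, true_imp_iff]
    split_ifs <;> ring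
  · simp

theorem rsift {ι δ : Type} [DecidableEq ι] [DecidableEq δ] (s : Finset ι) (D : Finset δ)
    (N T : ι → Finset δ) (Γ : Finset (ι × ι)) {μ lam p τ Λ β₁ β₂ l₁ : ℝ} {m : ℕ}
    (hs : s.Nonempty) (hD : D.Nonempty) (hNT : ∀ x ∈ s, N x ⊆ T x) (hND : ∀ x ∈ s, N x ⊆ D)
    (hμ : 0 < μ) (hrow : ∀ x ∈ s, μ * #D ≤ #(N x)) (hΓ : Γ ⊆ s ×ˢ s) (hp : 0 < p)
    (hpΓ : p * (#s : ℝ) ^ 2 ≤ #Γ) (hlam : 0 ≤ lam)
    (hco : ∀ q ∈ Γ, lam * #(N q.1) * #(N q.2) ≤ #(N q.1 ∩ N q.2) * (#D : ℝ)) (hm : 1 ≤ m)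
    (hτ : 0 ≤ τ) (hΛ : 0 ≤ Λ)
    (hsp : ∀ B ⊆ s, ∀ C ⊆ D,
      ∑ x ∈ B, (#(T x ∩ C) : ℝ) ≤ τ * (Λ * #B * #C + β₁ * #C + β₂ * #B))
    (h1 : β₁ ≤ (p / 2) ^ (m + 1) * #s) (h2 : β₂ ≤ μ ^ m * #D) (hl₁ : 0 < l₁)
    (hbig : τ * ((Λ + 1) * (l₁ ^ m + 2) + 1) < μ * lam ^ m) :
    ∃ X₁ ⊆ s, ∃ D' ⊆ D, ∃ g : ℝ, l₁ ≤ g ∧ p * #s ≤ 2 * #X₁ ∧ (#D : ℝ) ≤ g ^ (2 * m) * #D' ∧
      g * μ * #X₁ * #D' ≤ ∑ x ∈ X₁, (#(N x ∩ D') : ℝ) := by
  by_contra hc
  have hn : (0 : ℝ) < #s := by exact_mod_cast hs.card_pos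
  have hd : (0 : ℝ) < #D := by exact_mod_cast hD.card_pos
  have hN : ∀ x ∈ s, (0 : ℝ) < #(N x) := fun x hx => (mul_pos hμ hd).trans_le (hrow x hx)
  set a : ι → ℝ := fun x => #D / #(N x) with ha
  have a0 : ∀ x, 0 ≤ a x := fun x => by positivity
  have a1 : ∀ x ∈ s, μ * a x ≤ 1 := fun x hx => by
    rw [← mul_div_assoc, div_le_one (hN x hx)]
    exact hrow x hx
  set H : Finset ι → δ → ℝ := fun X d => ∑ y ∈ X, if d ∈ N y then a y else 0 with hH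
  have H0 : ∀ X d, 0 ≤ H X d := fun X d => sum_nonneg fun y _ => by
    split_ifs
    exacts [a0 y, le_rfl]
  have HS : ∀ (X : Finset ι) (E : Finset δ), ∑ d ∈ E, H X d = ∑ y ∈ X, a y * #(N y ∩ E) := by
    intro X E
    rw [sum_comm]
    refine sum_congr rfl fun y _ => ?_
    rw [← sum_filter, filter_mem_eq_inter, sum_const, nsmul_eq_mul, mul_comm, inter_comm]
  have hA : ∀ X ⊆ s, p * #s ≤ 2 * #X → ∑ d ∈ D, H X d ^ m ≤ (l₁ ^ m + 2) * #D * #X ^ m := by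
    intro X hX hpX
    have hX0 : (0 : ℝ) < #X := by nlinarith [mul_pos hp hn]
    by_contra h
    obtain ⟨g, g1, g2⟩ := level D (fun d => H X d / #X) (fun d _ => div_nonneg (H0 X d) hX0.le)
      hl₁ m (by
        simp only [div_pow]
        rw [← sum_div, lt_div_iff₀ (by positivity)]
        exact not_le.1 h)
    refine hc ⟨X, hX, _, filter_subset _ _, g, g1, hpX, g2, ?_⟩
    have k1 := card_nsmul_le_sum {d ∈ D | g ≤ H X d / #X} (H X) (g * #X) fun d hd =>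
      (le_div_iff₀ hX0).1 (mem_filter.1 hd).2
    rw [HS, nsmul_eq_mul] at k1
    have k2 := mul_le_mul_of_nonneg_left k1 hμ.le
    rw [mul_sum] at k2
    refine (le_of_eq (by ring)).trans (k2.trans (sum_le_sum fun y hy => ?_))
    rw [← mul_assoc]
    exact mul_le_of_le_one_left (by positivity) (a1 y (hX hy))
  set Gam : ι → Finset ι := fun x' => {x ∈ s | (x, x') ∈ Γ} with hGam
  set X₂ := {x' ∈ s | p * #s / 2 ≤ #(Gam x')} with hX₂
  have hsum : (#Γ : ℝ) = ∑ x' ∈ s, (#(Gam x') : ℝ) := by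
    have : Γ = {q ∈ s ×ˢ s | q ∈ Γ} := by rw [filter_mem_eq_inter, inter_eq_right.2 hΓ]
    conv_lhs => rw [this, card_filter, sum_product_right]
    simp only [hGam, card_filter, Nat.cast_sum]
  have hX2 : p * #s / 2 ≤ #X₂ := by
    rw [← sum_filter_add_sum_filter_not s fun x' => p * #s / 2 ≤ #(Gam x')] at hsum
    have k1 := sum_le_card_nsmul X₂ (fun x' => (#(Gam x') : ℝ)) #s fun x _ => by
      exact_mod_cast card_filter_le _ _
    have k2 := sum_le_card_nsmul {x' ∈ s | ¬ p * #s / 2 ≤ #(Gam x')} (fun x' => (#(Gam x') : ℝ))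
      (p * #s / 2) fun x hx => (not_le.1 (mem_filter.1 hx).2).le
    have k3 : (#{x' ∈ s | ¬ p * #s / 2 ≤ #(Gam x')} : ℝ) ≤ #s := by
      exact_mod_cast card_filter_le _ _
    rw [nsmul_eq_mul] at k1 k2
    refine le_of_mul_le_mul_right ?_ hn
    nlinarith [mul_le_mul_of_nonneg_right k3 (by positivity : 0 ≤ p * #s / 2)]
  have hX20 : (0 : ℝ) < #X₂ := lt_of_lt_of_le (by positivity) hX2
  have hp1 : p * #s ≤ 2 * #s := by
    have : (#X₂ : ℝ) ≤ #s := by exact_mod_cast card_filter_le _ _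
    linarith
  set n₀ := ⌈p * #s / 2⌉₊ with hn₀
  have n1 : p * #s / 2 ≤ n₀ := Nat.le_ceil _
  have n2 : (0 : ℝ) < n₀ := lt_of_lt_of_le (by positivity) n1
  have hG : ∀ x', ∃ G : Finset ι, x' ∈ X₂ → G ⊆ Gam x' ∧ #G = n₀ := fun x' => by
    by_cases h : x' ∈ X₂
    · obtain ⟨G, h1, h2⟩ := exists_subset_card_eq (Nat.ceil_le.2 (mem_filter.1 h).2)
      exact ⟨G, fun _ => ⟨h1, h2⟩⟩
    · exact ⟨∅, fun h' => absurd h' h⟩
  choose G hG using hG
  have hGs : ∀ x ∈ X₂, G x ⊆ s := fun x hx => (hG x hx).1.trans (filter_subset _ _)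
  have hC : ∀ x ∈ X₂, μ * lam ^ m * (#D * n₀ ^ m) ≤
      ∑ d ∈ D, (if d ∈ T x then 1 else 0) * H (G x) d ^ m := by
    intro x hx
    have hxs : x ∈ s := (mem_filter.1 hx).1
    have hNx := hN x hxs
    have k1 : lam * n₀ * #(N x) ≤ ∑ d ∈ N x, H (G x) d := by
      rw [HS, ← (hG x hx).2, mul_right_comm, mul_comm, ← nsmul_eq_mul]
      refine card_nsmul_le_sum _ _ _ fun y hy => ?_
      have := hco (y, x) (mem_filter.1 ((hG x hx).1 hy)).2
      rw [ha, div_mul_eq_mul_div, le_div_iff₀ (hN y (hGs x hx hy))]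
      linarith
    obtain ⟨k, rfl⟩ : ∃ k, m = k + 1 := ⟨m - 1, by omega⟩
    have k2 := pow_sum_div_card_le_sum_pow (s := N x) (f := H (G x)) (fun d _ => H0 _ d) k
    rw [div_le_iff₀ (by positivity)] at k2
    have k3 : (lam * n₀) ^ (k + 1) * #(N x) ≤ ∑ d ∈ N x, H (G x) d ^ (k + 1) := by
      refine le_of_mul_le_mul_right ?_ (pow_pos hNx k)
      exact (le_of_eq (by ring)).trans ((pow_le_pow_left₀ (by positivity) k1 (k + 1)).trans k2)
    calc _ = (lam * n₀) ^ (k + 1) * (μ * #D) := by ring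
      _ ≤ (lam * n₀) ^ (k + 1) * #(N x) := mul_le_mul_of_nonneg_left (hrow x hxs) (by positivity)
      _ ≤ ∑ d ∈ N x, (if d ∈ T x then 1 else 0) * H (G x) d ^ (k + 1) :=
          k3.trans (le_of_eq (sum_congr rfl fun d hd => by rw [if_pos (hNT x hxs hd), one_mul]))
      _ ≤ _ := sum_le_sum_of_subset_of_nonneg (hND x hxs) fun d _ _ =>
          mul_nonneg (by split_ifs <;> norm_num) (pow_nonneg (H0 _ _) _)
  have e0 := card_nsmul_le_sum X₂ _ _ hC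
  rw [nsmul_eq_mul, rs_swap X₂ D N a G hGs m] at e0
  have e1 := rs_swap X₂ D N a G hGs m fun _ _ => 1
  have e2 := rs_swap {hs.choose} D N a (fun _ => s) (fun _ _ => Subset.rfl) m fun _ _ => 1
  have e3 : ∑ w ∈ Fintype.piFinset fun _ : Fin m => s, (#{x ∈ X₂ | ∀ i, w i ∈ G x} : ℝ) =
      #X₂ * n₀ ^ m := by
    simp only [card_filter, Nat.cast_sum]
    rw [sum_comm, ← nsmul_eq_mul, ← sum_const]
    refine sum_congr rfl fun x hx => ?_
    have := rs_exp (hGs x hx) (fun _ => 1) m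
    simp only [sum_const, nsmul_eq_mul, mul_one, (hG x hx).2, prod_const_one] at this
    rw [this]
    exact sum_congr rfl fun w _ => by split_ifs <;> simp
  simp only [one_mul, sum_const, nsmul_eq_mul, mul_one, card_singleton, Nat.cast_one] at e1 e2
  have b1 : ∑ x ∈ X₂, ∑ d ∈ D, H (G x) d ^ m ≤ #X₂ * ((l₁ ^ m + 2) * #D * n₀ ^ m) := by
    rw [← nsmul_eq_mul]
    refine sum_le_card_nsmul _ _ _ fun x hx => ?_
    have := hA (G x) (hGs x hx) (by rw [(hG x hx).2]; linarith)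
    rwa [(hG x hx).2] at this
  have b2 : (p / 2) ^ (m + 1) * #s * ∑ d ∈ D, H s d ^ m ≤ #X₂ * ((l₁ ^ m + 2) * #D * n₀ ^ m) := by
    refine (mul_le_mul_of_nonneg_left (hA s Subset.rfl hp1) (by positivity)).trans ?_
    calc _ = p * #s / 2 * ((l₁ ^ m + 2) * #D * (p * #s / 2) ^ m) := by ring
      _ ≤ _ := by gcongr
  have b3 : ∀ w ∈ Fintype.piFinset fun _ : Fin m => s, (∏ i, a (w i)) *
      ∑ x ∈ X₂ with ∀ i, w i ∈ G x, ∑ d ∈ D with ∀ i, d ∈ N (w i), (if d ∈ T x then (1 : ℝ) else 0) ≤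
      τ * (Λ * ((∏ i, a (w i)) * (#{x ∈ X₂ | ∀ i, w i ∈ G x} * #{d ∈ D | ∀ i, d ∈ N (w i)})) +
        (p / 2) ^ (m + 1) * #s * ((∏ i, a (w i)) * (#{x ∈ ({hs.choose} : Finset ι) | ∀ i, w i ∈ s} *
          #{d ∈ D | ∀ i, d ∈ N (w i)})) + #D * #{x ∈ X₂ | ∀ i, w i ∈ G x}) := by
    intro w hw
    rw [Fintype.mem_piFinset] at hw
    have c0 : 0 ≤ ∏ i, a (w i) := prod_nonneg fun i _ => a0 _
    have c1 : μ ^ m * ∏ i, a (w i) ≤ 1 := by
      have : μ ^ m = ∏ _i : Fin m, μ := by simp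
      rw [this, ← prod_mul_distrib]
      exact prod_le_one (fun i _ => mul_nonneg hμ.le (a0 _)) fun i _ => a1 _ (hw i)
    have c2 := hsp {x ∈ X₂ | ∀ i, w i ∈ G x} ((filter_subset _ _).trans (filter_subset _ _))
      {d ∈ D | ∀ i, d ∈ N (w i)} (filter_subset _ _)
    rw [filter_true_of_mem (s := {hs.choose}) fun _ _ => hw, card_singleton, Nat.cast_one, one_mul]
    simp only [sum_boole, filter_mem_eq_inter, inter_comm _ (T _)]
    refine (mul_le_mul_of_nonneg_left c2 c0).trans ?_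
    rw [mul_left_comm]
    refine mul_le_mul_of_nonneg_left ?_ hτ
    have c3 := mul_le_mul_of_nonneg_right h1 (mul_nonneg c0
      (Nat.cast_nonneg #{d ∈ D | ∀ i, d ∈ N (w i)}))
    have c4 := mul_le_mul_of_nonneg_right h2 (mul_nonneg c0
      (Nat.cast_nonneg #{x ∈ X₂ | ∀ i, w i ∈ G x}))
    have c5 := mul_le_mul_of_nonneg_right c1 (mul_nonneg hd.le
      (Nat.cast_nonneg #{x ∈ X₂ | ∀ i, w i ∈ G x}))
    linarith
  have b4 := e0.trans (sum_le_sum b3)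
  rw [← mul_sum, sum_add_distrib, sum_add_distrib, ← mul_sum, ← mul_sum, ← mul_sum, ← e1, ← e2,
    e3] at b4
  have b5 := b4.trans (mul_le_mul_of_nonneg_left (add_le_add (add_le_add
    (mul_le_mul_of_nonneg_left b1 hΛ) b2) le_rfl) hτ)
  nlinarith [mul_lt_mul_of_pos_left hbig (by positivity : (0 : ℝ) < #X₂ * (#D * n₀ ^ m))]

end Pool.Agent.P.MP_db4732_co.Q
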