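import Pool.Agent.P.MP_db4732_co.Q.Defs

/-! Sifting for convolutions. -/

set_option autoImplicit false

namespace Pool.Agent.P.MP_db4732_co.Q

open Finset

section aux

variable {W : Type} [AddCommGroup W] [Fintype W] [DecidableEq W]

theorem sift_one (h2 : ∀ x : W, x + x = 0) (Y B : Finset W) (x y : W) :
    #{s : W | x + s ∈ Y ∧ y + s ∈ B} = cv Y B (x + y) := by
  unfold cv
  refine card_bij (fun s _ => y + s) (fun s hs => ?_) (fun _ _ _ _ h => add_left_cancel h)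
    fun b hb => ⟨y + b, ?_, by rw [← add_assoc, h2, zero_add]⟩
  · rw [mem_filter] at hs ⊢
    refine ⟨hs.2.2, ?_⟩
    rw [add_assoc, ← add_assoc y, h2, zero_add]
    exact hs.2.1
  · rw [mem_filter] at hb ⊢
    refine ⟨mem_univ _, ?_, ?_⟩
    · rw [← add_assoc]; exact hb.2
    · rw [← add_assoc, h2, zero_add]; exact hb.1

theorem sift_pow (h2 : ∀ x : W, x + x = 0) (Y B : Finset W) (q : ℕ) (x y : W) :
    #{t : Fin q → W | (∀ i, x + t i ∈ Y) ∧ ∀ i, y + t i ∈ B} = cv Y B (x + y) ^ q := by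
  rw [← sift_one h2, ← Fintype.card_piFinset_const]
  refine congrArg card ?_
  ext t
  simp only [mem_filter, mem_univ, true_and, Fintype.mem_piFinset]
  exact ⟨fun h i => ⟨h.1 i, h.2 i⟩, fun h => ⟨fun i => (h i).1, fun i => (h i).2⟩⟩

theorem sift_sum (h2 : ∀ x : W, x + x = 0) (Y B : Finset W) (q : ℕ) (w : W → ℝ) :
    ∑ t : Fin q → W, ∑ r ∈ ({x : W | ∀ i, x + t i ∈ Y} : Finset W) ×ˢ
      ({x : W | ∀ i, x + t i ∈ B} : Finset W), w (r.1 + r.2) =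
      Fintype.card W * ∑ x, (cv Y B x : ℝ) ^ q * w x := by
  have h1 : ∀ t : Fin q → W, ∑ r ∈ ({x : W | ∀ i, x + t i ∈ Y} : Finset W) ×ˢ
      ({x : W | ∀ i, x + t i ∈ B} : Finset W), w (r.1 + r.2) =
      ∑ x : W, ∑ y : W, if (∀ i, x + t i ∈ Y) ∧ ∀ i, y + t i ∈ B then w (x + y) else 0 := by
    intro t
    rw [sum_product, sum_filter]
    refine sum_congr rfl fun x _ => ?_
    rw [sum_filter]
    by_cases hx : ∀ i, x + t i ∈ Y
    · rw [if_pos hx]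
      refine sum_congr rfl fun y _ => ?_
      by_cases hy : ∀ i, y + t i ∈ B
      · rw [if_pos hy, if_pos ⟨hx, hy⟩]
      · rw [if_neg hy, if_neg fun h => hy h.2]
    · rw [if_neg hx]
      exact (sum_eq_zero fun y _ => if_neg fun h => hx h.1).symm
  rw [sum_congr rfl fun t _ => h1 t, sum_comm]
  have h3 : ∀ x : W, (∑ t : Fin q → W, ∑ y : W,
      if (∀ i, x + t i ∈ Y) ∧ ∀ i, y + t i ∈ B then w (x + y) else 0) =
      ∑ z, (cv Y B z : ℝ) ^ q * w z := by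
    intro x
    rw [sum_comm]
    have h4 : ∀ y : W, (∑ t : Fin q → W,
        if (∀ i, x + t i ∈ Y) ∧ ∀ i, y + t i ∈ B then w (x + y) else 0) =
        (cv Y B (x + y) : ℝ) ^ q * w (x + y) := by
      intro y
      rw [← sum_filter, sum_const, sift_pow h2, nsmul_eq_mul, Nat.cast_pow]
    rw [sum_congr rfl fun y _ => h4 y]
    exact Fintype.sum_equiv (Equiv.addLeft x) _ _ fun y => rfl
  rw [sum_congr rfl fun x _ => h3 x, sum_const, card_univ, nsmul_eq_mul]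

omit [Fintype W] in
theorem sift_pm (Y B C : Finset W) (q : ℕ) {u : ℝ} (hu : 0 ≤ u) (hC : 0 < (#C : ℝ))
    (h : u * #C ≤ tri Y B C) : u ^ (q + 1) * #C ≤ ∑ x ∈ C, (cv Y B x : ℝ) ^ (q + 1) := by
  have h1 := pow_sum_div_card_le_sum_pow (s := C) (f := fun x => (cv Y B x : ℝ))
    (fun _ _ => Nat.cast_nonneg _) q
  refine le_trans ?_ h1
  rw [le_div_iff₀ (pow_pos hC q)]
  have h2 : (tri Y B C : ℝ) = ∑ x ∈ C, (cv Y B x : ℝ) := by
    unfold tri; rw [Nat.cast_sum]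
  rw [← h2]
  calc u ^ (q + 1) * #C * (#C : ℝ) ^ q = (u * #C) ^ (q + 1) := by ring
    _ ≤ _ := pow_le_pow_left₀ (by positivity) h _

theorem sift_sum_cv (Y B : Finset W) : ∑ x, (cv Y B x : ℝ) = #Y * #B := by
  have h : ∑ x, cv Y B x = #Y * #B := by
    unfold cv
    simp only [card_filter]
    rw [sum_comm]
    have h1 : ∀ b ∈ B, (∑ x : W, if x + b ∈ Y then 1 else 0) = #Y := by
      intro b _
      have h2 : (∑ x : W, if x + b ∈ Y then 1 else 0) = ∑ y : W, if y ∈ Y then 1 else 0 :=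
        Fintype.sum_equiv (Equiv.addRight b) _ _ fun y => rfl
      rw [h2, ← card_filter, filter_mem_eq_inter, univ_inter]
    rw [sum_congr rfl h1, sum_const, smul_eq_mul, mul_comm]
  rw [← Nat.cast_sum, h, Nat.cast_mul]

end aux

theorem sift {ε l₀ : ℝ} (hε : 0 < ε) (hl : 1 < l₀) : ∃ K : ℕ, ∀ (W : Type) [AddCommGroup W]
    [Fintype W] [DecidableEq W], (∀ x : W, x + x = 0) → ∀ (Y B C : Finset W) (a p : ℕ) (σ l : ℝ),
    1 ≤ a → 1 ≤ p → l₀ ≤ σ → 1 ≤ l → Fintype.card W ≤ 2 ^ a * #Y → Fintype.card W ≤ 2 ^ a * #B →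
    (Fintype.card W : ℝ) ≤ σ ^ p * #C → σ * l * #Y * #B * #C ≤ tri Y B C * (Fintype.card W : ℝ) →
    ∃ A₁ A₂ : Finset W, Fintype.card W ≤ 2 ^ (K * a * p) * #A₁ ∧
      Fintype.card W ≤ 2 ^ (K * a * p) * #A₂ ∧
      (#{q ∈ A₁ ×ˢ A₂ | nc Y B (q.1 + q.2) < l} : ℝ) ≤ ε * #A₁ * #A₂ := by
  obtain ⟨q₀, hq₀⟩ := pow_unbounded_of_one_lt (1 + 1 / ε) hl
  refine ⟨2 * (1 + q₀), fun W _ _ _ h2 Y B C a p σ l ha hp hσ hl1 hY hB hC htri => ?_⟩
  obtain ⟨N, hN⟩ : ∃ N : ℕ, N = Fintype.card W := ⟨_, rfl⟩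
  have hNpos : 0 < N := hN ▸ Fintype.card_pos
  have hNr : (0 : ℝ) < N := Nat.cast_pos.2 hNpos
  have hσ1 : 1 < σ := hl.trans_le hσ
  have hσ0 : 0 < σ := zero_lt_one.trans hσ1
  rw [← hN] at hY hB hC htri
  have hYr : (N : ℝ) ≤ 2 ^ a * #Y := by exact_mod_cast hY
  have hBr : (N : ℝ) ≤ 2 ^ a * #B := by exact_mod_cast hB
  have hY0 : (0 : ℝ) < #Y := by
    by_contra h
    have h0 : (#Y : ℝ) = 0 := le_antisymm (not_lt.1 h) (Nat.cast_nonneg _)
    rw [h0] at hYr; linarith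
  have hB0 : (0 : ℝ) < #B := by
    by_contra h
    have h0 : (#B : ℝ) = 0 := le_antisymm (not_lt.1 h) (Nat.cast_nonneg _)
    rw [h0] at hBr; linarith
  have hC0 : (0 : ℝ) < #C := by
    by_contra h
    have h0 : (#C : ℝ) = 0 := le_antisymm (not_lt.1 h) (Nat.cast_nonneg _)
    rw [h0] at hC; linarith
  obtain ⟨p', rfl⟩ : ∃ p', p = p' + 1 := ⟨p - 1, by omega⟩
  obtain ⟨q, hq⟩ : ∃ q, q = q₀ + p' + 1 := ⟨_, rfl⟩
  obtain ⟨β, hβ⟩ : ∃ β : ℝ, β = #Y * #B / N := ⟨_, rfl⟩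
  have hβ0 : 0 < β := by rw [hβ]; positivity
  have hl0 : 0 < l := zero_lt_one.trans_le hl1
  -- the power mean bound on `C`
  have hpm : (σ * l * β) ^ q * #C ≤ ∑ x ∈ C, (cv Y B x : ℝ) ^ q := by
    rw [hq]
    refine sift_pm Y B C _ (by positivity) hC0 ?_
    rw [hβ]
    have : σ * l * (#Y * #B / N) * #C = σ * l * #Y * #B * #C / N := by ring
    rw [this, div_le_iff₀ hNr]
    exact htri
  have hmain : N * (l * β) ^ q * (1 + 1 / ε) ≤ ∑ x, (cv Y B x : ℝ) ^ q := by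
    have h1 : ∑ x ∈ C, (cv Y B x : ℝ) ^ q ≤ ∑ x, (cv Y B x : ℝ) ^ q :=
      sum_le_sum_of_subset_of_nonneg (subset_univ _) fun _ _ _ => by positivity
    refine le_trans ?_ (hpm.trans h1)
    have h3 : 1 + 1 / ε ≤ σ ^ q₀ := hq₀.le.trans (pow_le_pow_left₀ (by linarith) hσ _)
    calc N * (l * β) ^ q * (1 + 1 / ε) ≤ (σ ^ (p' + 1) * #C) * (l * β) ^ q * σ ^ q₀ := by
          gcongr
      _ = (σ * l * β) ^ q * #C := by rw [hq]; ring
  obtain ⟨w, hw⟩ : ∃ w : W → ℝ, w = fun x => 1 - (if nc Y B x < l then 1 / ε else 0) := ⟨_, rfl⟩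
  have hlow : N * β ^ q ≤ ∑ x, (cv Y B x : ℝ) ^ q * w x := by
    have h1 : ∀ x : W, (cv Y B x : ℝ) ^ q - (l * β) ^ q * (1 / ε) ≤ (cv Y B x : ℝ) ^ q * w x := by
      intro x
      rw [hw]
      dsimp only
      by_cases hx : nc Y B x < l
      · rw [if_pos hx]
        have h3 : (cv Y B x : ℝ) ≤ l * β := by
          unfold nc at hx
          rw [← hN, div_lt_iff₀ (by positivity)] at hx
          rw [hβ, ← mul_div_assoc, le_div_iff₀ hNr]
          exact hx.le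
        have h4 : (cv Y B x : ℝ) ^ q ≤ (l * β) ^ q := pow_le_pow_left₀ (by positivity) h3 _
        have h5 : (cv Y B x : ℝ) ^ q * (1 / ε) ≤ (l * β) ^ q * (1 / ε) := by gcongr
        linarith
      · rw [if_neg hx]
        have : 0 ≤ (l * β) ^ q * (1 / ε) := by positivity
        linarith
    have h2 := sum_le_sum fun x (_ : x ∈ (univ : Finset W)) => h1 x
    rw [sum_sub_distrib, sum_const, card_univ, ← hN, nsmul_eq_mul] at h2
    have h3 : β ^ q ≤ (l * β) ^ q :=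
      pow_le_pow_left₀ hβ0.le (le_mul_of_one_le_left hβ0.le hl1) _
    have h4 : N * β ^ q ≤ N * (l * β) ^ q := by gcongr
    linarith
  have hsum := sift_sum h2 Y B q w
  rw [← hN] at hsum
  obtain ⟨t, -, ht⟩ : ∃ t ∈ (univ : Finset (Fin q → W)), (N : ℝ) ^ 2 * (β / N) ^ q ≤
      ∑ r ∈ ({x : W | ∀ i, x + t i ∈ Y} : Finset W) ×ˢ
        ({x : W | ∀ i, x + t i ∈ B} : Finset W), w (r.1 + r.2) := by
    refine exists_le_of_sum_le univ_nonempty ?_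
    rw [hsum, sum_const, card_univ, Fintype.card_fun, Fintype.card_fin, ← hN, nsmul_eq_mul,
      Nat.cast_pow, div_pow]
    have : (N : ℝ) ^ q * (N ^ 2 * (β ^ q / N ^ q)) = N * (N * β ^ q) := by
      field_simp
    rw [this]
    gcongr
  obtain ⟨A₁, hA₁⟩ : ∃ A₁ : Finset W, A₁ = ({x : W | ∀ i, x + t i ∈ Y} : Finset W) :=
    ⟨_, rfl⟩
  obtain ⟨A₂, hA₂⟩ : ∃ A₂ : Finset W, A₂ = ({x : W | ∀ i, x + t i ∈ B} : Finset W) :=
    ⟨_, rfl⟩
  rw [← hA₁, ← hA₂, hw] at ht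
  dsimp only at ht
  rw [sum_sub_distrib, sum_const, card_product, ← sum_filter, sum_const, nsmul_eq_mul,
    nsmul_eq_mul, mul_one, Nat.cast_mul] at ht
  have hbad : (0 : ℝ) ≤ #{q ∈ A₁ ×ˢ A₂ | nc Y B (q.1 + q.2) < l} * (1 / ε) := by positivity
  have hpos : 0 < (N : ℝ) ^ 2 * (β / N) ^ q := by positivity
  have hden : (1 : ℝ) ≤ 2 ^ (2 * (1 + q₀) * a * (p' + 1)) * (β / N) ^ q := by
    have h1 : (1 : ℝ) ≤ 2 ^ (2 * a) * (β / N) := by
      rw [hβ, div_div, ← mul_div_assoc, le_div_iff₀ (by positivity), one_mul]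
      calc (N : ℝ) * N ≤ (2 ^ a * #Y) * (2 ^ a * #B) := by gcongr
        _ = _ := by ring
    have h3 : (1 : ℝ) ≤ (2 ^ (2 * a) * (β / N)) ^ q := one_le_pow₀ h1
    rw [mul_pow, ← pow_mul] at h3
    refine h3.trans ?_
    have h4 : 2 * a * q ≤ 2 * (1 + q₀) * a * (p' + 1) := by
      rw [hq]
      have : q₀ + p' + 1 ≤ (1 + q₀) * (p' + 1) := by nlinarith
      calc 2 * a * (q₀ + p' + 1) ≤ 2 * a * ((1 + q₀) * (p' + 1)) := by gcongr
        _ = _ := by ring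
    have h5 : (2 : ℝ) ^ (2 * a * q) ≤ 2 ^ (2 * (1 + q₀) * a * (p' + 1)) :=
      pow_le_pow_right₀ one_le_two h4
    gcongr
  have hle₁ : (#A₁ : ℝ) ≤ N := by rw [hN]; exact_mod_cast card_le_univ A₁
  have hle₂ : (#A₂ : ℝ) ≤ N := by rw [hN]; exact_mod_cast card_le_univ A₂
  obtain ⟨M, hM⟩ : ∃ M : ℝ, M = 2 ^ (2 * (1 + q₀) * a * (p' + 1)) := ⟨_, rfl⟩
  have hM0 : 0 < M := by rw [hM]; positivity
  rw [← hM] at hden
  have hprod : (N : ℝ) * N ≤ M * (#A₁ * #A₂) := by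
    calc (N : ℝ) * N = N ^ 2 * 1 := by ring
      _ ≤ N ^ 2 * (M * (β / N) ^ q) := by gcongr
      _ = M * (N ^ 2 * (β / N) ^ q) := by ring
      _ ≤ M * (#A₁ * #A₂) := mul_le_mul_of_nonneg_left (by linarith) hM0.le
  refine ⟨A₁, A₂, ?_, ?_, ?_⟩
  · rw [← hN]
    have h1 : (N : ℝ) * N ≤ (M * #A₁) * N := by
      calc (N : ℝ) * N ≤ M * (#A₁ * #A₂) := hprod
        _ ≤ M * (#A₁ * N) := by gcongr
        _ = _ := by ring
    have h3 : (N : ℝ) ≤ M * #A₁ := le_of_mul_le_mul_right h1 hNr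
    rw [hM] at h3
    exact_mod_cast h3
  · rw [← hN]
    have h1 : (N : ℝ) * N ≤ (M * #A₂) * N := by
      calc (N : ℝ) * N ≤ M * (#A₁ * #A₂) := hprod
        _ ≤ M * (N * #A₂) := by gcongr
        _ = _ := by ring
    have h3 : (N : ℝ) ≤ M * #A₂ := le_of_mul_le_mul_right h1 hNr
    rw [hM] at h3
    exact_mod_cast h3
  · have h1 : (#{q ∈ A₁ ×ˢ A₂ | nc Y B (q.1 + q.2) < l} : ℝ) * (1 / ε) ≤ #A₁ * #A₂ := by linarith
    rw [mul_one_div, div_le_iff₀ hε] at h1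
    linarith

variable {W : Type} [AddCommGroup W] [Fintype W] [DecidableEq W]

theorem one_le_nsq {Y B : Finset W} (hY : Y.Nonempty) (hB : B.Nonempty) : 1 ≤ nsq Y B := by
  have hN : (0 : ℝ) < Fintype.card W := Nat.cast_pos.2 Fintype.card_pos
  have hY0 : (0 : ℝ) < #Y := Nat.cast_pos.2 hY.card_pos
  have hB0 : (0 : ℝ) < #B := Nat.cast_pos.2 hB.card_pos
  have h1 : ∑ x, nc Y B x = Fintype.card W := by
    unfold nc
    rw [← sum_div, ← sum_mul, sift_sum_cv]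
    field_simp
  have h2 := sq_sum_le_card_mul_sum_sq (s := (univ : Finset W)) (f := fun x => nc Y B x)
  rw [h1, card_univ, sq] at h2
  unfold nsq
  rw [le_div_iff₀ hN, one_mul]
  exact le_of_mul_le_mul_left h2 hN

theorem nsq_le {Y B : Finset W} (hY : Y.Nonempty) : nsq Y B * #Y ≤ Fintype.card W := by
  have hN : (0 : ℝ) < Fintype.card W := Nat.cast_pos.2 Fintype.card_pos
  have hY0 : (0 : ℝ) < #Y := Nat.cast_pos.2 hY.card_pos
  rcases B.eq_empty_or_nonempty with rfl | hB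
  · have : nsq Y (∅ : Finset W) = 0 := by simp [nsq, nc]
    rw [this, zero_mul]; exact hN.le
  have hB0 : (0 : ℝ) < #B := Nat.cast_pos.2 hB.card_pos
  have h1 : ∀ x, nc Y B x ^ 2 ≤
      (cv Y B x : ℝ) * ((Fintype.card W : ℝ) ^ 2 / ((#Y : ℝ) ^ 2 * #B)) := by
    intro x
    have h2 : (cv Y B x : ℝ) ≤ #B := by
      unfold cv; exact_mod_cast card_filter_le _ _
    have h3 : nc Y B x ^ 2 = (cv Y B x : ℝ) * ((cv Y B x : ℝ) *
        ((Fintype.card W : ℝ) ^ 2 / ((#Y : ℝ) ^ 2 * (#B : ℝ) ^ 2))) := by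
      unfold nc; ring
    have h4 : (Fintype.card W : ℝ) ^ 2 / ((#Y : ℝ) ^ 2 * #B) =
        #B * ((Fintype.card W : ℝ) ^ 2 / ((#Y : ℝ) ^ 2 * (#B : ℝ) ^ 2)) := by
      field_simp
    rw [h3, h4]
    gcongr
  have h2 := sum_le_sum fun x (_ : x ∈ (univ : Finset W)) => h1 x
  rw [← sum_mul, sift_sum_cv] at h2
  unfold nsq
  rw [div_mul_eq_mul_div, div_le_iff₀ hN]
  calc (∑ x, nc Y B x ^ 2) * #Y ≤
        (#Y * #B * ((Fintype.card W : ℝ) ^ 2 / ((#Y : ℝ) ^ 2 * #B))) * #Y := by gcongr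
    _ = _ := by field_simp

end Pool.Agent.P.MP_db4732_co.Q
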