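import Pool.Agent.P.MP_db4732_co.Q.Incr
import Pool.Agent.P.MP_db4732_co.Q.Part

/-! One step of the iteration. -/

set_option autoImplicit false

namespace Pool.Agent.P.MP_db4732_co.Q

open Finset

section

variable {W : Type} [AddCommGroup W] [DecidableEq W]

theorem step_res_le (A : Finset (W × W)) (X Y D : Finset W) : #(res A X Y D) ≤ tri D X Y := by
  rw [tri_eq]
  refine card_le_card fun q hq => ?_
  simp only [res, mem_filter, mem_product] at hq ⊢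
  exact ⟨⟨hq.2.1, hq.2.2.1⟩, hq.2.2.2⟩

theorem step_sum (A : Finset (W × W)) (X Y D : Finset W) (ρ ρ' : ℝ) :
    ∑ x ∈ X, ∑ y ∈ Y, ((if (x, y) ∈ A ∧ x + y ∈ D then (1 : ℝ) else 0) -
      ρ * (if x + y ∈ D then 1 else 0) - ρ') =
      #(res A X Y D) - ρ * tri D X Y - ρ' * (#X * #Y) := by
  have e1 : (#(res A X Y D) : ℝ) =
      ∑ x ∈ X, ∑ y ∈ Y, if (x, y) ∈ A ∧ x + y ∈ D then (1 : ℝ) else 0 := by
    have : res A X Y D = {q ∈ X ×ˢ Y | q ∈ A ∧ q.1 + q.2 ∈ D} := by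
      ext q
      simp only [res, mem_filter, mem_product]
      tauto
    rw [this, card_filter, sum_product]
    push_cast
    rfl
  have e2 : (tri D X Y : ℝ) = ∑ x ∈ X, ∑ y ∈ Y, if x + y ∈ D then (1 : ℝ) else 0 := by
    rw [tri_eq, card_filter, sum_product]
    push_cast
    rfl
  rw [e1, e2]
  simp only [sum_sub_distrib, ← mul_sum, sum_const, nsmul_eq_mul]
  ring

end

theorem step_first {g e a a1 a' t t1 t' : ℝ} (hg : 1 ≤ (1 - 2 * e) * g) (hg0 : 0 ≤ g)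
    (he : 0 ≤ 1 - 2 * e) (ha : 0 ≤ a) (ht : 0 ≤ t) (ht1 : 0 < t1) (ht' : 0 ≤ t')
    (h1 : g ^ 2 * a * t1 ≤ a1 * t) (h2 : (1 - 2 * e) * a1 / t1 * t' ≤ a') :
    g * a * t' ≤ a' * t := by
  have h3 : g ^ 2 * a ≤ a1 / t1 * t := by
    rw [div_mul_eq_mul_div, le_div_iff₀ ht1]
    exact h1
  calc g * a * t' ≤ ((1 - 2 * e) * g) * (g * a * t') :=
        le_mul_of_one_le_left (by positivity) hg
    _ = (1 - 2 * e) * t' * (g ^ 2 * a) := by ring
    _ ≤ (1 - 2 * e) * t' * (a1 / t1 * t) := mul_le_mul_of_nonneg_left h3 (by positivity)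
    _ = ((1 - 2 * e) * a1 / t1 * t') * t := by ring
    _ ≤ a' * t := mul_le_mul_of_nonneg_right h2 ht

theorem step_second {G H e a a1 a' p p1 p' : ℝ} (hG : 0 ≤ G) (hH : 1 ≤ e * H) (he : 0 < e)
    (ha : 0 ≤ a) (hp : 0 ≤ p) (hp1 : 0 < p1) (hp' : 0 ≤ p')
    (h1 : a * p1 ≤ G * a1 * p) (h2 : e * a1 / p1 * p' ≤ a') : a * p' ≤ G * H * a' * p := by
  have hH0 : 0 ≤ H := by
    by_contra h
    nlinarith
  have h3 : a ≤ G * (a1 / p1) * p := by
    rw [← mul_div_assoc, div_mul_eq_mul_div, le_div_iff₀ hp1]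
    exact h1
  calc a * p' ≤ (e * H) * (a * p') := le_mul_of_one_le_left (by positivity) hH
    _ ≤ (e * H) * ((G * (a1 / p1) * p) * p') := by gcongr
    _ = G * H * (e * a1 / p1 * p') * p := by ring
    _ ≤ _ := by gcongr

theorem step_third {G G' H T e a a1 n p p1 p' u w : ℝ} (hG : 1 ≤ G) (hGG : G' ≤ G)
    (hT : 0 ≤ T) (hH : 16 * T ≤ e * H) (he : 0 < e) (ha : 0 < a) (ha1 : 0 < a1) (hp1 : 0 < p1)
    (hp' : 0 < p') (hp : 0 ≤ p) (hu : 0 ≤ u) (hw : 0 ≤ w)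
    (h0 : p ≤ T * a) (h1 : a * p1 ≤ G' * a1 * p) (h2 : p ≤ G * p1) (h3 : n ≤ p')
    (h4 : e * a1 * √p' * u ≤ 16 * n * √p1 * w) : √p * u ≤ G * G * H * √p' * w := by
  have s1 : 0 < √p1 := Real.sqrt_pos.2 hp1
  have s' : 0 < √p' := Real.sqrt_pos.2 hp'
  have hH0 : 0 ≤ H := by
    by_contra h
    nlinarith
  have b1 : e * a1 * u ≤ 16 * √p' * √p1 * w := by
    refine le_of_mul_le_mul_right ?_ s'
    calc e * a1 * u * √p' = e * a1 * √p' * u := by ring
      _ ≤ 16 * n * √p1 * w := h4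
      _ ≤ 16 * (√p' * √p') * √p1 * w := by
          rw [Real.mul_self_sqrt hp'.le]
          gcongr
      _ = _ := by ring
  have b2 : p1 ≤ G * T * a1 := by
    refine le_of_mul_le_mul_left ?_ ha
    calc a * p1 ≤ G' * a1 * p := h1
      _ ≤ G * a1 * (T * a) := by gcongr
      _ = _ := by ring
  have b3 : √p ≤ G * √p1 := by
    rw [Real.sqrt_le_left (by positivity), mul_pow, Real.sq_sqrt hp1.le]
    nlinarith [mul_le_mul_of_nonneg_right hG (show 0 ≤ G * p1 by positivity)]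
  refine le_of_mul_le_mul_left ?_ (mul_pos he ha1)
  calc e * a1 * (√p * u) = √p * (e * a1 * u) := by ring
    _ ≤ (G * √p1) * (16 * √p' * √p1 * w) := by gcongr
    _ = 16 * G * (√p1 * √p1) * (√p' * w) := by ring
    _ ≤ 16 * G * (G * T * a1) * (√p' * w) := by
        rw [Real.mul_self_sqrt hp1.le]
        gcongr
    _ = (16 * T) * (G * G * a1 * (√p' * w)) := by ring
    _ ≤ (e * H) * (G * G * a1 * (√p' * w)) := by gcongr
    _ = _ := by ring

/-- From an increment inside the container to a new state in a subgroup. -/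
theorem step_of_better {g₀ κ : ℝ} (hg : 1 < g₀) (hκ : 1 < κ) (K₀ : ℕ) : ∃ J K : ℕ, 4 ≤ J ∧
    ∀ (W : Type) [AddCommGroup W] [Fintype W] [DecidableEq W], (∀ x : W, x + x = 0) →
    ∀ (A : Finset (W × W)) (X Y D : Finset W) (L c : ℕ) (θ : ℝ), CF A → In A X Y D → A.Nonempty →
    1 ≤ L → L ≤ c → #X * #Y ≤ 2 ^ c * #A → 0 < θ → θ ≤ 1 → Better A X Y D g₀ (K₀ * c) (K₀ * L) →
    ∃ (W' : Type) (_ : AddCommGroup W') (_ : Fintype W') (_ : DecidableEq W'),
      (∀ x : W', x + x = 0) ∧ Fintype.card W' ≤ Fintype.card W ∧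
      ∃ (A' : Finset (W' × W')) (X' Y' D' : Finset W') (g : ℝ), CF A' ∧ In A' X' Y' D' ∧
        A'.Nonempty ∧ Spread κ θ ⊤ X' ∧ Spread κ θ ⊤ Y' ∧ g₀ ≤ g ∧
        g * #A * tri D' X' Y' ≤ #A' * (tri D X Y : ℝ) ∧
        (#A : ℝ) * #X' * #Y' ≤ g ^ (K * L) * #A' * #X * #Y ∧
        √(#X * #Y) * (Fintype.card W' : ℝ) ^ (1 - θ / J) ≤
          g ^ (K * c) * √(#X' * #Y') * (Fintype.card W : ℝ) ^ (1 - θ / J) := by
  obtain ⟨J, hJ, hP⟩ := pseudo hκ
  obtain ⟨e, he0, he1, he2⟩ : ∃ e : ℝ, 0 < e ∧ 0 ≤ 1 - 2 * e ∧ 1 ≤ (1 - 2 * e) * g₀ := by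
    have h0 : 0 < g₀ := by linarith
    have h1 : 1 / g₀ < 1 := by rw [div_lt_one h0]; exact hg
    have h2 : 0 < 1 / g₀ := by positivity
    refine ⟨(1 - 1 / g₀) / 2, by linarith, by linarith, le_of_eq ?_⟩
    field_simp
    ring
  obtain ⟨K₁, hK⟩ := pow_unbounded_of_one_lt (32 / e) hg
  refine ⟨J, 2 * K₀ + K₁, hJ, ?_⟩
  intro W _ _ _ h2 A X Y D L c θ hA hIn hne hL hLc hc hθ hθ1
    ⟨X1, hX1, Y1, hY1, D1, hD1, g, hgg, hne1, b1, b2, b3⟩
  have hg1 : 1 ≤ g := by linarith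
  have ha1 : (0 : ℝ) < #(res A X1 Y1 D1) := by exact_mod_cast hne1.card_pos
  have ht1 : (0 : ℝ) < tri D1 X1 Y1 :=
    ha1.trans_le (by exact_mod_cast step_res_le A X1 Y1 D1)
  have hp1 : (0 : ℝ) < #X1 * #Y1 := ht1.trans_le (by exact_mod_cast tri_le D1 X1 Y1)
  have htot := step_sum A X1 Y1 D1 ((1 - 2 * e) * #(res A X1 Y1 D1) / tri D1 X1 Y1)
    (e * #(res A X1 Y1 D1) / (#X1 * #Y1))
  rw [div_mul_cancel₀ _ ht1.ne', div_mul_cancel₀ _ hp1.ne',
    show (#(res A X1 Y1 D1) : ℝ) - (1 - 2 * e) * #(res A X1 Y1 D1) - e * #(res A X1 Y1 D1) =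
      e * #(res A X1 Y1 D1) by ring] at htot
  obtain ⟨V, x₀, y₀, X', hX', Y', hY', n1, n2, s1, s2, hle⟩ := hP W h2 θ hθ hθ1 X1 Y1 _
    (htot.symm ▸ mul_pos he0 ha1)
  rw [htot, step_sum] at hle
  have hXc : X' ⊆ cs V x₀ := hX'.trans inter_subset_right
  have hYc : Y' ⊆ cs V y₀ := hY'.trans inter_subset_right
  have eX : X' ∩ cs V x₀ = X' := inter_eq_left.2 hXc
  have eY : Y' ∩ cs V y₀ = Y' := inter_eq_left.2 hYc
  let _ : Fintype V := Fintype.ofFinite V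
  obtain ⟨A', c1, c2, c3⟩ := exists_pull h2 V x₀ y₀ hA D1 hXc hYc
  have hp' : (0 : ℝ) < #X' * #Y' :=
    mul_pos (by exact_mod_cast n1.card_pos) (by exact_mod_cast n2.card_pos)
  have hV : (0 : ℝ) < Nat.card V := by exact_mod_cast Nat.card_pos
  have hN : (0 : ℝ) ≤ (Fintype.card W : ℝ) ^ (1 - θ / J) := by positivity
  have q1 : 0 ≤ (1 - 2 * e) * #(res A X1 Y1 D1) / tri D1 X1 Y1 * tri D1 X' Y' := by positivity
  have q2 : 0 < e * #(res A X1 Y1 D1) / (#X1 * #Y1) * (#X' * #Y') := by positivity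
  have q3 : (#(res A X' Y' D1) : ℝ) ≤ #X' * #Y' := by
    exact_mod_cast (step_res_le A X' Y' D1).trans (tri_le D1 X' Y')
  have hν : 0 < (#(res A X' Y' D1) : ℝ) -
      (1 - 2 * e) * #(res A X1 Y1 D1) / tri D1 X1 Y1 * tri D1 X' Y' -
      e * #(res A X1 Y1 D1) / (#X1 * #Y1) * (#X' * #Y') := by
    by_contra hn
    refine absurd hle (not_le.2 (lt_of_le_of_lt ?_ (show 0 < _ by positivity)))
    exact mul_nonpos_of_nonpos_of_nonneg (mul_nonpos_of_nonpos_of_nonneg (by linarith)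
      (Real.sqrt_nonneg _)) hN
  have hK' : 32 / e ≤ g ^ K₁ := hK.le.trans (pow_le_pow_left₀ (by linarith) hgg _)
  have hK1 : 1 ≤ 16 / e := by
    rw [le_div_iff₀ he0]
    linarith
  have hA0 : (0 : ℝ) < #A := by exact_mod_cast hne.card_pos
  refine ⟨V, inferInstance, inferInstance, inferInstance, fun x => Subtype.ext (h2 x),
    Fintype.card_subtype_le _, A', pull V x₀ X', pull V y₀ Y', pull V (x₀ + y₀) D1, g, c1, c2,
    ?_, Spread.pull h2 (eX.symm ▸ s1), Spread.pull h2 (eY.symm ▸ s2), hgg, ?_, ?_, ?_⟩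
  · rw [← card_pos, c3]
    exact_mod_cast (show (0 : ℝ) < #(res A X' Y' D1) by linarith)
  · rw [tri_pull h2, eX, eY, c3]
    exact step_first (he2.trans (mul_le_mul_of_nonneg_left hgg he1)) (by linarith) he1 hA0.le
      (Nat.cast_nonneg _) ht1 (Nat.cast_nonneg _) b1 (by linarith)
  · rw [card_pull h2, card_pull h2, eX, eY, c3, mul_assoc, mul_assoc _ (#X : ℝ),
      show (2 * K₀ + K₁) * L = K₀ * L + (K₀ + K₁) * L by ring, pow_add]
    refine step_second (by positivity) ?_ he0 hA0.le (by positivity) hp1 hp'.le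
      (by rw [← mul_assoc, ← mul_assoc]; exact b2) (by linarith)
    have : g ^ K₁ ≤ g ^ ((K₀ + K₁) * L) := pow_le_pow_right₀ hg1 (by nlinarith)
    have h3 := (div_le_iff₀ he0).1 (hK'.trans this)
    linarith
  · rw [card_pull h2, card_pull h2, eX, eY, ← Nat.card_eq_fintype_card,
      show (2 * K₀ + K₁) * c = K₀ * c + K₀ * c + K₁ * c by ring, pow_add, pow_add]
    refine step_third (T := 2 ^ c) (one_le_pow₀ hg1)
      (pow_le_pow_right₀ hg1 (Nat.mul_le_mul_left K₀ hLc)) (by positivity) ?_ he0 hA0 ha1 hp1 hp'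
      (by positivity) (by positivity) hN (by exact_mod_cast hc)
      (by rw [← mul_assoc, ← mul_assoc]; exact b2) (by rw [← mul_assoc]; exact b3)
      (by linarith) hle
    have d1 : (16 / e * 2) ^ c ≤ g ^ (K₁ * c) := by
      rw [pow_mul]
      exact pow_le_pow_left₀ (by positivity) (by linarith [show 16 / e * 2 = 32 / e by ring]) _
    have d2 : 16 / e ≤ (16 / e) ^ c := le_self_pow₀ hK1 (by omega)
    rw [mul_pow] at d1
    calc 16 * 2 ^ c = e * (16 / e * 2 ^ c) := by field_simp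
      _ ≤ e * ((16 / e) ^ c * 2 ^ c) := by gcongr
      _ ≤ _ := by gcongr

end Pool.Agent.P.MP_db4732_co.Q
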