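import Pool.Agent.P.MP_db4732_co.Q.Core
import Pool.Agent.P.MP_db4732_co.Q.Ext

/-! A spread set has a bounded convolution with every dense set. -/

set_option autoImplicit false

namespace Pool.Agent.P.MP_db4732_co.Q

open Finset

theorem sym_dyadic {x y : ℝ} {a : ℕ} (hx : 1 ≤ x) (hxy : x ≤ y) (hy : y ≤ 2 ^ a) :
    ∃ i : ℕ, i ≤ a ∧ y ≤ 2 ^ i * x ∧ 2 ^ i * x ≤ 2 * y := by
  classical
  have ha : y ≤ 2 ^ a * x := hy.trans (le_mul_of_one_le_right (by positivity) hx)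
  have hex : ∃ i : ℕ, y ≤ 2 ^ i * x := ⟨a, ha⟩
  refine ⟨Nat.find hex, Nat.find_min' hex ha, Nat.find_spec hex, ?_⟩
  rcases h : Nat.find hex with _ | i
  · rw [pow_zero]; linarith
  · have := Nat.find_min hex (m := i) (by omega)
    rw [pow_succ]
    linarith [not_le.1 this]

theorem sym_exp {θ : ℝ} {K₁ K₂ a l i j : ℕ} (hθ : 0 ≤ θ) (hi : i ≤ a)
    (h1 : θ * (((32 * K₂ * (K₁ ^ 2 + 1) : ℕ) : ℝ) * l ^ 2) ≤ j)
    (h2 : θ * (((32 * K₂ * (K₁ ^ 2 + 1) : ℕ) : ℝ) * a ^ 3) ≤ 1) :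
    ((K₂ * 4 ^ 2 * (l + K₁ * a * i) ^ 2 : ℕ) : ℝ) * θ ≤ ((j + i : ℕ) : ℝ) := by
  have e1 : K₂ * 4 ^ 2 * (l + K₁ * a * i) ^ 2 ≤
      32 * K₂ * (K₁ ^ 2 + 1) * l ^ 2 + 32 * K₂ * (K₁ ^ 2 + 1) * a ^ 3 * i := by
    have f1 : (l + K₁ * a * i) ^ 2 ≤ 2 * l ^ 2 + 2 * (K₁ * a * i) ^ 2 := by
      nlinarith [sq_nonneg ((l : ℤ) - K₁ * a * i)]
    have f2 : (K₁ * a * i) ^ 2 ≤ K₁ ^ 2 * a ^ 3 * i := by
      calc (K₁ * a * i) ^ 2 = K₁ ^ 2 * a ^ 2 * i * i := by ring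
        _ ≤ K₁ ^ 2 * a ^ 2 * i * a := Nat.mul_le_mul_left _ hi
        _ = _ := by ring
    calc K₂ * 4 ^ 2 * (l + K₁ * a * i) ^ 2
        ≤ K₂ * 4 ^ 2 * (2 * l ^ 2 + 2 * (K₁ ^ 2 * a ^ 3 * i)) := by
          refine Nat.mul_le_mul_left _ (f1.trans ?_)
          omega
      _ = 32 * K₂ * 1 * l ^ 2 + 32 * K₂ * K₁ ^ 2 * a ^ 3 * i := by ring
      _ ≤ _ := by gcongr <;> omega
  have e2 : ((K₂ * 4 ^ 2 * (l + K₁ * a * i) ^ 2 : ℕ) : ℝ) ≤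
      ((32 * K₂ * (K₁ ^ 2 + 1) : ℕ) : ℝ) * l ^ 2 +
        ((32 * K₂ * (K₁ ^ 2 + 1) : ℕ) : ℝ) * a ^ 3 * i := by exact_mod_cast e1
  have e3 := mul_le_mul_of_nonneg_right e2 hθ
  have e4 := mul_le_mul_of_nonneg_right h2 (Nat.cast_nonneg (α := ℝ) i)
  rw [Nat.cast_add j i]
  nlinarith

theorem nsq_of_spread : ∃ K : ℕ, ∀ (W : Type) [AddCommGroup W] [Fintype W] [DecidableEq W],
    (∀ x : W, x + x = 0) → ∀ (Y A : Finset W) (a l j : ℕ) (ρ θ : ℝ), 1 ≤ a → 1 ≤ l → 0 ≤ θ →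
    Fintype.card W ≤ 2 ^ a * #Y → Fintype.card W ≤ 2 ^ l * #A → Spread ρ θ ⊤ Y →
    θ * (K * l ^ 2) ≤ j → θ * (K * a ^ 3) ≤ 1 → nsq Y A ≤ 4 * ρ * 2 ^ j := by
  obtain ⟨K₁, hK₁⟩ := ext_sift (ε := 1 / 10) (by norm_num)
  obtain ⟨K₂, hK₂⟩ := core (ε := 1 / 10) (by norm_num)
  refine ⟨32 * K₂ * (K₁ ^ 2 + 1), ?_⟩
  intro W _ _ _ h2 Y A a l j ρ θ ha hl hθ hY hA hS hj ha3
  have hNn : 0 < Fintype.card W := Fintype.card_pos
  have hN : (0 : ℝ) < Fintype.card W := by exact_mod_cast hNn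
  have hYn : Y.Nonempty := by
    rw [← card_pos]
    exact Nat.pos_of_mul_pos_left (hNn.trans_le hY)
  have hAn : A.Nonempty := by
    rw [← card_pos]
    exact Nat.pos_of_mul_pos_left (hNn.trans_le hA)
  have hYp : (0 : ℝ) < #Y := by exact_mod_cast card_pos.2 hYn
  have hρ : 1 ≤ ρ := by
    have := hS ⊤ le_rfl 0
    rw [cs_top, inter_univ, card_top] at this
    have hp : (0 : ℝ) < #Y * (Fintype.card W : ℝ) ^ (1 - θ) := by positivity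
    nlinarith
  by_contra hc
  rw [not_le] at hc
  obtain ⟨A', -, hA'n, hle, hcard, hbad⟩ := hK₁ W h2 Y A a ha hY hAn
  have h2j : (1 : ℝ) ≤ 2 ^ j := one_le_pow₀ (by norm_num)
  have h0 : 1 ≤ nsq Y A := by nlinarith
  have hup : nsq Y A' ≤ 2 ^ a := by
    have e1 := nsq_le (B := A') hYn
    have e2 : (Fintype.card W : ℝ) ≤ 2 ^ a * #Y := by exact_mod_cast hY
    exact le_of_mul_le_mul_right (e1.trans e2) hYp
  obtain ⟨i, hia, hi1, hi2⟩ := sym_dyadic h0 hle hup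
  have hlam : 0 ≤ nsq Y A' := by linarith
  have hAA : #A ≤ 2 ^ (K₁ * a * i) * #A' := by
    have hp : (0 : ℝ) < nsq Y A ^ (K₁ * a) := by positivity
    have e1 : (#A : ℝ) * nsq Y A ^ (K₁ * a) ≤ 2 ^ (K₁ * a * i) * #A' * nsq Y A ^ (K₁ * a) := by
      calc (#A : ℝ) * nsq Y A ^ (K₁ * a) ≤ #A' * nsq Y A' ^ (K₁ * a) := hcard
        _ ≤ #A' * (2 ^ i * nsq Y A) ^ (K₁ * a) := by gcongr
        _ = _ := by rw [mul_pow, ← pow_mul, mul_comm i]; ring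
    exact_mod_cast le_of_mul_le_mul_right e1 hp
  have hA' : Fintype.card W ≤ 2 ^ (l + K₁ * a * i) * #A' := by
    rw [pow_add, mul_assoc]
    exact hA.trans (Nat.mul_le_mul_left _ hAA)
  obtain ⟨V, z, hV, hz⟩ := hK₂ W h2 Y Y A' A' (l + K₁ * a * i) 4 ((1 - 1 / 10) * nsq Y A')
    (by omega) (by norm_num) hYn hYn hA' hA' (by positivity) hbad (by nlinarith)
  have hsp := hS V le_top z
  rw [card_top] at hsp
  have hv : (0 : ℝ) < Nat.card V := by exact_mod_cast Nat.card_pos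
  set E := K₂ * 4 ^ 2 * (l + K₁ * a * i) ^ 2 with hE
  have hexp : (E : ℝ) * θ ≤ ((j + i : ℕ) : ℝ) := sym_exp hθ hia hj ha3
  set N : ℝ := (Fintype.card W : ℝ) with hNdef
  set v : ℝ := (Nat.card V : ℝ) with hvdef
  have hNv : N ^ θ ≤ 2 ^ (j + i) * v ^ θ := by
    have e1 : N ≤ 2 ^ E * v := by rw [hNdef, hvdef]; exact_mod_cast hV
    calc N ^ θ ≤ (2 ^ E * v) ^ θ := Real.rpow_le_rpow hN.le e1 hθ
      _ = (2 : ℝ) ^ ((E : ℝ) * θ) * v ^ θ := by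
        rw [Real.mul_rpow (by positivity) hv.le, Real.rpow_natCast_mul (by norm_num)]
      _ ≤ (2 : ℝ) ^ (((j + i : ℕ) : ℝ)) * v ^ θ := by
        gcongr
        norm_num
      _ = _ := by rw [Real.rpow_natCast]
  have hNs : N ^ (1 - θ) * N ^ θ = N := by
    rw [← Real.rpow_add hN]; simp
  have hvs : v ^ (1 - θ) * v ^ θ = v := by
    rw [← Real.rpow_add hv]; simp
  have p1 : 0 < N ^ (1 - θ) := by positivity
  have p2 : 0 < v ^ (1 - θ) := by positivity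
  have p3 : 0 < v ^ θ := by positivity
  have key : (63 / 100 * nsq Y A') * (#Y * v) ≤ (ρ * 2 ^ (j + i)) * (#Y * v) := by
    calc (63 / 100 * nsq Y A') * (#Y * v)
        = (1 - 3 * (1 / 10)) * ((1 - 1 / 10) * nsq Y A') * #Y * v := by ring
      _ ≤ #(Y ∩ cs V z) * N := hz
      _ = #(Y ∩ cs V z) * N ^ (1 - θ) * N ^ θ := by rw [mul_assoc, hNs]
      _ ≤ ρ * #Y * v ^ (1 - θ) * (2 ^ (j + i) * v ^ θ) := by gcongr
      _ = (ρ * 2 ^ (j + i)) * (#Y * (v ^ (1 - θ) * v ^ θ)) := by ring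
      _ = _ := by rw [hvs]
  have key2 := le_of_mul_le_mul_right key (by positivity)
  rw [pow_add] at key2
  have h2i : (0 : ℝ) < 2 ^ i := by positivity
  have e5 : 2 ^ i * (4 * ρ * 2 ^ j) < 2 ^ i * nsq Y A := mul_lt_mul_of_pos_left hc h2i
  have e6 : 0 < ρ * (2 ^ j * 2 ^ i) := by positivity
  nlinarith

end Pool.Agent.P.MP_db4732_co.Q
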